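import Mathlib

/-!
# A Kraft inequality for sequentially revealed functions
-/

set_option autoImplicit false

namespace Pool.Agent.TH439.Kraft

open Finset

/-- Kraft's inequality.  `ℓ x f` is a list of admissible values at `x` which depends only on the
values of `f` before `x`; the functions of `F` take admissible values everywhere on the down-closed
decreasing list `l` and are determined by their values on `l`. -/
theorem kraft_list {X Q : Type*} [LinearOrder X] [Nonempty Q] (ℓ : X → (X → Q) → Finset Q)
    (hℓ : ∀ x f f', (∀ y < x, f y = f' y) → ℓ x f = ℓ x f') :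
    ∀ l : List X, l.Pairwise (· > ·) → (∀ z ∈ l, ∀ y < z, y ∈ l) → ∀ F : Finset (X → Q),
      (∀ f ∈ F, ∀ f' ∈ F, (∀ y ∈ l, f y = f' y) → f = f') → (∀ f ∈ F, ∀ x ∈ l, f x ∈ ℓ x f) →
      ∑ f ∈ F, (l.map (fun x => (((ℓ x f).card : ℕ) : ℝ)⁻¹)).prod ≤ 1 := by
  classical
  intro l
  induction l with
  | nil =>
    intro _ _ F hinj _
    simp only [List.map_nil, List.prod_nil, Finset.sum_const, nsmul_eq_mul, mul_one]
    have : F.card ≤ 1 := by
      rw [Finset.card_le_one]
      intro f hf f' hf'
      exact hinj f hf f' hf' (by simp)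
    exact_mod_cast this
  | cons x l ih =>
    intro hs hdown F hinj hmem
    obtain ⟨q0⟩ := ‹Nonempty Q›
    have hlt : ∀ y ∈ l, y < x := (List.pairwise_cons.1 hs).1
    have hs' := (List.pairwise_cons.1 hs).2
    have hdown' : ∀ z ∈ l, ∀ y < z, y ∈ l := by
      intro z hz y hy
      have := hdown z (List.mem_cons_of_mem _ hz) y hy
      rcases List.mem_cons.1 this with h | h
      · exfalso
        subst h
        exact lt_asymm hy (hlt z hz)
      · exact h
    have hx : ∀ y < x, y ∈ l := by
      intro y hy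
      have := hdown x List.mem_cons_self y hy
      rcases List.mem_cons.1 this with h | h
      · exact absurd h hy.ne
      · exact h
    -- restriction to `l`
    let ρ : (X → Q) → (X → Q) := fun f y => if y ∈ l then f y else q0
    have hρ : ∀ f, ∀ y ∈ l, ρ f y = f y := by
      intro f y hy
      simp only [ρ, if_pos hy]
    have hρℓ : ∀ f, ∀ z, (z = x ∨ z ∈ l) → ℓ z (ρ f) = ℓ z f := by
      intro f z hz
      apply hℓ
      intro y hy
      apply hρ
      rcases hz with rfl | hz
      · exact hx y hy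
      · exact hdown' z hz y hy
    have hIH := ih hs' hdown' (F.image ρ) (by
      intro h hh h' hh' hag
      obtain ⟨f, hf, rfl⟩ := Finset.mem_image.1 hh
      obtain ⟨f', hf', rfl⟩ := Finset.mem_image.1 hh'
      funext y
      by_cases hy : y ∈ l
      · exact hag y hy
      · simp only [ρ, if_neg hy]) (by
      intro h hh z hz
      obtain ⟨f, hf, rfl⟩ := Finset.mem_image.1 hh
      rw [hρ f z hz, hρℓ f z (Or.inr hz)]
      exact hmem f hf z (List.mem_cons_of_mem _ hz))
    refine le_trans ?_ hIH
    rw [← Finset.sum_fiberwise_of_maps_to (s := F) (t := F.image ρ) (g := ρ)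
      (fun f hf => Finset.mem_image_of_mem ρ hf)]
    apply Finset.sum_le_sum
    intro h hh
    -- the fibre of `h`
    have e1 : ∀ f ∈ F.filter (fun f => ρ f = h),
        ((x :: l).map (fun z => (((ℓ z f).card : ℕ) : ℝ)⁻¹)).prod =
          (((ℓ x h).card : ℕ) : ℝ)⁻¹ * (l.map (fun z => (((ℓ z h).card : ℕ) : ℝ)⁻¹)).prod := by
      intro f hf
      have hfh : ρ f = h := (Finset.mem_filter.1 hf).2
      rw [List.map_cons, List.prod_cons, ← hfh, hρℓ f x (Or.inl rfl)]
      congr 2
      apply List.map_congr_left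
      intro z hz
      rw [hρℓ f z (Or.inr hz)]
    rw [Finset.sum_congr rfl e1, Finset.sum_const, nsmul_eq_mul, ← mul_assoc]
    have hP : 0 ≤ (l.map (fun z => (((ℓ z h).card : ℕ) : ℝ)⁻¹)).prod := by
      apply List.prod_nonneg
      intro a ha
      obtain ⟨z, -, rfl⟩ := List.mem_map.1 ha
      positivity
    have hcard : (F.filter (fun f => ρ f = h)).card ≤ (ℓ x h).card := by
      apply Finset.card_le_card_of_injOn (fun f => f x)
      · intro f hf
        have hf' := Finset.mem_filter.1 hf
        have hfh : ρ f = h := hf'.2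
        rw [← hfh, hρℓ f x (Or.inl rfl)]
        exact hmem f hf'.1 x List.mem_cons_self
      · intro f hf f' hf' hff
        have h1 := Finset.mem_filter.1 hf
        have h2 := Finset.mem_filter.1 hf'
        apply hinj f h1.1 f' h2.1
        intro y hy
        rcases List.mem_cons.1 hy with rfl | hy
        · exact hff
        · rw [← hρ f y hy, ← hρ f' y hy, h1.2, h2.2]
    have hle : ((F.filter (fun f => ρ f = h)).card : ℝ) * (((ℓ x h).card : ℕ) : ℝ)⁻¹ ≤ 1 := by
      rcases Nat.eq_zero_or_pos (ℓ x h).card with h0 | h0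
      · rw [h0]; simp
      · rw [← div_eq_mul_inv, div_le_one (by exact_mod_cast h0)]
        exact_mod_cast hcard
    calc ((F.filter (fun f => ρ f = h)).card : ℝ) * (((ℓ x h).card : ℕ) : ℝ)⁻¹ *
          (l.map (fun z => (((ℓ z h).card : ℕ) : ℝ)⁻¹)).prod
        ≤ 1 * (l.map (fun z => (((ℓ z h).card : ℕ) : ℝ)⁻¹)).prod :=
          mul_le_mul_of_nonneg_right hle hP
      _ = _ := one_mul _

/-- Kraft's inequality on a finite linear order. -/
theorem kraft {X Q : Type*} [LinearOrder X] [Fintype X] [Nonempty Q]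
    (ℓ : X → (X → Q) → Finset Q)
    (hℓ : ∀ x f f', (∀ y < x, f y = f' y) → ℓ x f = ℓ x f') (F : Finset (X → Q))
    (hF : ∀ f ∈ F, ∀ x, f x ∈ ℓ x f) :
    ∑ f ∈ F, ∏ x, (((ℓ x f).card : ℕ) : ℝ)⁻¹ ≤ 1 := by
  classical
  have h1 : ((Finset.univ : Finset X).sort (· ≥ ·)).Pairwise (· > ·) :=
    (Finset.sortedGT_sort _).pairwise
  have h2 := kraft_list ℓ hℓ ((Finset.univ : Finset X).sort (· ≥ ·)) h1
    (by intro z _ y _; simp) F
    (by
      intro f _ f' _ h
      funext y
      exact h y (by simp))
    (by intro f hf x _; exact hF f hf x)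
  refine le_trans (le_of_eq ?_) h2
  apply Finset.sum_congr rfl
  intro f _
  rw [← List.prod_toFinset _ (Finset.sort_nodup _ _)]
  simp

end Pool.Agent.TH439.Kraft
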