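import Mathlib
import Pool.Agent.TH439.Kraft

/-!
# The number of Latin hypercubes: an upper bound

A function `f : (Fin k → Fin q) → Fin q` is Latin if it is injective in each argument.  We show
that there are at most `2 ^ ((q - 1) * (q / 2) ^ k)` Latin functions.
-/

set_option autoImplicit false

namespace Pool.Agent.TH439.Upper

open Finset

/-- Latin hypercubes of dimension `k` and order `q`: functions of `k` arguments which are
injective in each argument when the others are held fixed. -/
def IsLatin {k q : ℕ} (f : (Fin k → Fin q) → Fin q) : Prop :=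
  ∀ (x : Fin k → Fin q) (i : Fin k), Function.Injective (fun a => f (Function.update x i a))

variable {k q : ℕ}

/-- Reverse the coordinates `i` with `s i = true`. -/
def flip (s : Fin k → Bool) (x : Fin k → Fin q) : Fin k → Fin q :=
  fun i => if s i = true then Fin.rev (x i) else x i

theorem flip_flip (s : Fin k → Bool) (x : Fin k → Fin q) : flip s (flip s x) = x := by
  funext i
  unfold flip
  by_cases h : s i = true
  · simp [h]
  · simp [h]

theorem flip_update (s : Fin k → Bool) (z : Fin k → Fin q) (i : Fin k) (t : Fin q) :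
    flip s (Function.update (flip s z) i t) =
      Function.update z i (if s i = true then Fin.rev t else t) := by
  funext j
  by_cases hj : j = i
  · subst hj
    simp [flip]
  · rw [Function.update_of_ne hj]
    have h2 := congrFun (flip_flip s z) j
    rw [← h2]
    unfold flip
    rw [Function.update_of_ne hj]

/-- The admissible values at `z` for the reveal order `s`. -/
def L (s : Fin k → Bool) (f : (Fin k → Fin q) → Fin q) (z : Fin k → Fin q) : Finset (Fin q) :=
  univ.filter (fun v => ∀ i, ∀ t, (if s i = true then z i < t else t < z i) →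
    f (Function.update z i t) ≠ v)

/-- The admissible values at `z` other than the true one. -/
def D (s : Fin k → Bool) (f : (Fin k → Fin q) → Fin q) (z : Fin k → Fin q) : Finset (Fin q) :=
  (L s f z).erase (f z)

/-- The list of admissible values for the lexicographic order. -/
def lst (x : Lex (Fin k → Fin q)) (g : Lex (Fin k → Fin q) → Fin q) : Finset (Fin q) :=
  univ.filter (fun v => ∀ i, ∀ t, t < (ofLex x) i →
    g (toLex (Function.update (ofLex x) i t)) ≠ v)

theorem lst_congr (x : Lex (Fin k → Fin q)) (g g' : Lex (Fin k → Fin q) → Fin q)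
    (h : ∀ y < x, g y = g' y) : lst x g = lst x g' := by
  unfold lst
  apply Finset.filter_congr
  intro v _
  have key : ∀ i t, t < (ofLex x) i → toLex (Function.update (ofLex x) i t) < x := by
    intro i t ht
    exact (Pi.toLex_update_lt_self_iff).2 ht
  constructor
  · intro hh i t ht
    rw [← h _ (key i t ht)]
    exact hh i t ht
  · intro hh i t ht
    rw [h _ (key i t ht)]
    exact hh i t ht

theorem lst_flip (s : Fin k → Bool) (f : (Fin k → Fin q) → Fin q) (z : Fin k → Fin q) :
    lst (toLex (flip s z)) (fun y => f (flip s (ofLex y))) = L s f z := by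
  unfold lst L
  apply Finset.filter_congr
  intro v _
  simp only [ofLex_toLex, flip_update]
  constructor
  · intro h i t ht
    have := h i (if s i = true then Fin.rev t else t)
    by_cases hs : s i = true
    · simp only [hs, if_true, Fin.rev_rev] at this ht ⊢
      apply this
      simp only [flip, hs, if_true]
      exact Fin.rev_lt_rev.2 ht
    · simp only [hs, if_false, Bool.false_eq_true] at this ht ⊢
      apply this
      simp only [flip, hs, if_false, Bool.false_eq_true]
      exact ht
  · intro h i t ht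
    apply h
    by_cases hs : s i = true
    · simp only [hs, if_true] at ht ⊢
      simp only [flip, hs, if_true] at ht
      have := Fin.rev_lt_rev.2 ht
      simpa using this
    · simp only [hs, if_false, Bool.false_eq_true] at ht ⊢
      simpa only [flip, hs, if_false, Bool.false_eq_true] using ht

theorem mem_L (s : Fin k → Bool) (f : (Fin k → Fin q) → Fin q) (hf : IsLatin f)
    (z : Fin k → Fin q) : f z ∈ L s f z := by
  unfold L
  simp only [Finset.mem_filter, Finset.mem_univ, true_and]
  intro i t ht h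
  have h2 : t = z i := by
    apply hf z i
    simp only [Function.update_eq_self]
    exact h
  subst h2
  by_cases hs : s i = true
  · simp [hs] at ht
  · simp [hs] at ht

/-- For one reveal order. -/
theorem kraft_flip [Nonempty (Fin q)] (s : Fin k → Bool) (F : Finset ((Fin k → Fin q) → Fin q))
    (hF : ∀ f ∈ F, IsLatin f) :
    ∑ f ∈ F, ∏ z, (((L s f z).card : ℕ) : ℝ)⁻¹ ≤ 1 := by
  classical
  let Φ : ((Fin k → Fin q) → Fin q) → (Lex (Fin k → Fin q) → Fin q) :=
    fun f y => f (flip s (ofLex y))
  have hΦ : Function.Injective Φ := by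
    intro f f' h
    funext z
    have := congrFun h (toLex (flip s z))
    simpa [Φ, flip_flip] using this
  have h1 := Kraft.kraft (X := Lex (Fin k → Fin q)) (Q := Fin q) lst lst_congr (F.image Φ) (by
    intro g hg x
    obtain ⟨f, hf, rfl⟩ := Finset.mem_image.1 hg
    have h2 := lst_flip s f (flip s (ofLex x))
    rw [flip_flip, toLex_ofLex] at h2
    rw [h2]
    exact mem_L s f (hF f hf) _)
  rw [Finset.sum_image (fun f _ f' _ h => hΦ h)] at h1
  refine le_trans (le_of_eq ?_) h1
  apply Finset.sum_congr rfl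
  intro f _
  let e : (Fin k → Fin q) ≃ Lex (Fin k → Fin q) :=
    { toFun := fun z => toLex (flip s z)
      invFun := fun y => flip s (ofLex y)
      left_inv := fun z => by simp [flip_flip]
      right_inv := fun y => by simp [flip_flip] }
  apply Fintype.prod_equiv e
  intro z
  rw [← lst_flip s f z]
  rfl

/-- Every pair `(z, v)` with `v ≠ f z` is charged for at most one reveal order. -/
theorem D_unique (f : (Fin k → Fin q) → Fin q) (hf : IsLatin f) (z : Fin k → Fin q) (v : Fin q)
    (s s' : Fin k → Bool) (h : v ∈ D s f z) (h' : v ∈ D s' f z) : s = s' := by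
  funext i
  unfold D at h h'
  obtain ⟨hv, h⟩ := Finset.mem_erase.1 h
  obtain ⟨-, h'⟩ := Finset.mem_erase.1 h'
  unfold L at h h'
  simp only [Finset.mem_filter, Finset.mem_univ, true_and] at h h'
  obtain ⟨t, ht⟩ := (Finite.injective_iff_surjective.1 (hf z i)) v
  have htz : t ≠ z i := by
    rintro rfl
    apply hv
    simp only [Function.update_eq_self] at ht
    exact ht.symm
  have g : ∀ s'' : Fin k → Bool, (∀ (i : Fin k) (t : Fin q),
      (if s'' i = true then z i < t else t < z i) → f (Function.update z i t) ≠ v) →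
      (s'' i = true ↔ t < z i) := by
    intro s'' hs
    have h1 := hs i t
    have h2 : ¬ (if s'' i = true then z i < t else t < z i) := fun h3 => h1 h3 ht
    by_cases hb : s'' i = true
    · simp only [hb, if_true, not_lt] at h2
      simp only [hb, true_iff]
      exact lt_of_le_of_ne h2 htz
    · simp only [hb, if_false, not_lt, Bool.false_eq_true] at h2
      simp only [hb, false_iff, not_lt, Bool.false_eq_true]
      exact h2
  have h3 := (g s h).trans (g s' h').symm
  exact Bool.eq_iff_iff.2 h3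

theorem sum_card_D (f : (Fin k → Fin q) → Fin q) (hf : IsLatin f) (z : Fin k → Fin q) :
    ∑ s : Fin k → Bool, (D s f z).card ≤ q - 1 := by
  classical
  have h1 : (Finset.univ.biUnion (fun s : Fin k → Bool => D s f z)).card =
      ∑ s : Fin k → Bool, (D s f z).card := by
    apply Finset.card_biUnion
    intro s _ s' _ hss
    rw [Function.onFun, Finset.disjoint_left]
    intro v hv hv'
    exact hss (D_unique f hf z v s s' hv hv')
  rw [← h1]
  have h2 : (Finset.univ.biUnion (fun s : Fin k → Bool => D s f z)) ⊆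
      (Finset.univ : Finset (Fin q)).erase (f z) := by
    intro v hv
    obtain ⟨s, -, hs⟩ := Finset.mem_biUnion.1 hv
    unfold D at hs
    exact Finset.mem_erase.2 ⟨(Finset.mem_erase.1 hs).1, Finset.mem_univ _⟩
  refine (Finset.card_le_card h2).trans ?_
  rw [Finset.card_erase_of_mem (Finset.mem_univ _), Finset.card_univ, Fintype.card_fin]

theorem card_L (s : Fin k → Bool) (f : (Fin k → Fin q) → Fin q) (hf : IsLatin f)
    (z : Fin k → Fin q) : (L s f z).card ≤ 2 ^ (D s f z).card := by
  have h1 : (L s f z).card = (D s f z).card + 1 := by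
    unfold D
    rw [Finset.card_erase_add_one (mem_L s f hf z)]
  rw [h1]
  exact Nat.lt_two_pow_self

theorem card_L_pos (s : Fin k → Bool) (f : (Fin k → Fin q) → Fin q) (hf : IsLatin f)
    (z : Fin k → Fin q) : 0 < (L s f z).card :=
  Finset.card_pos.2 ⟨_, mem_L s f hf z⟩

/-- The real form of the bound. -/
theorem card_le_rpow (hq : 1 ≤ q) (F : Finset ((Fin k → Fin q) → Fin q))
    (hF : ∀ f ∈ F, IsLatin f) :
    (F.card : ℝ) ≤ (2 : ℝ) ^ (((q : ℝ) - 1) * ((q : ℝ) / 2) ^ k) := by
  classical
  haveI : Nonempty (Fin q) := ⟨⟨0, hq⟩⟩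
  -- the exponents
  let a : (Fin k → Bool) → ((Fin k → Fin q) → Fin q) → ℕ := fun s f => ∑ z, (D s f z).card
  have ha : ∀ f ∈ F, ∑ s, (a s f : ℝ) ≤ ((q : ℝ) - 1) * (q : ℝ) ^ k := by
    intro f hf
    have h1 : ∑ s, a s f ≤ (q - 1) * q ^ k := by
      simp only [a]
      rw [Finset.sum_comm]
      calc ∑ z : Fin k → Fin q, ∑ s : Fin k → Bool, (D s f z).card
          ≤ ∑ _z : Fin k → Fin q, (q - 1) :=
            Finset.sum_le_sum (fun z _ => sum_card_D f (hF f hf) z)
        _ = (q - 1) * q ^ k := by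
            rw [Finset.sum_const, Finset.card_univ, Fintype.card_fun, Fintype.card_fin,
              Fintype.card_fin, smul_eq_mul, mul_comm]
    have h2 : ((∑ s, a s f : ℕ) : ℝ) ≤ (((q - 1) * q ^ k : ℕ) : ℝ) := by exact_mod_cast h1
    rw [Nat.cast_mul, Nat.cast_sub hq, Nat.cast_pow, Nat.cast_sum] at h2
    simpa using h2
  -- each reveal order
  have hs : ∀ s : Fin k → Bool, ∑ f ∈ F, (2 : ℝ) ^ (-(a s f : ℝ)) ≤ 1 := by
    intro s
    refine le_trans (Finset.sum_le_sum ?_) (kraft_flip s F hF)
    intro f hf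
    have h1 : (2 : ℝ) ^ (-(a s f : ℝ)) = ∏ z, ((2 : ℝ) ^ (D s f z).card)⁻¹ := by
      rw [Real.rpow_neg (by norm_num), Real.rpow_natCast, Finset.prod_inv_distrib,
        Finset.prod_pow_eq_pow_sum]
    rw [h1]
    apply Finset.prod_le_prod
    · intro z _
      positivity
    · intro z _
      apply inv_anti₀
      · exact_mod_cast card_L_pos s f (hF f hf) z
      · exact_mod_cast card_L s f (hF f hf) z
  -- convexity
  have hconv : ∀ f ∈ F, (2 : ℝ) ^ (-(((q : ℝ) - 1) * ((q : ℝ) / 2) ^ k)) ≤
      ∑ s : Fin k → Bool, ((2 : ℝ) ^ k)⁻¹ * (2 : ℝ) ^ (-(a s f : ℝ)) := by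
    intro f hf
    have hcard : ((Finset.univ : Finset (Fin k → Bool)).card : ℝ) = 2 ^ k := by
      rw [Finset.card_univ, Fintype.card_fun, Fintype.card_fin, Fintype.card_bool]
      push_cast
      rfl
    have h1 := convexOn_exp.map_sum_le (t := (Finset.univ : Finset (Fin k → Bool)))
      (w := fun _ => ((2 : ℝ) ^ k)⁻¹) (p := fun s => Real.log 2 * (-(a s f : ℝ)))
      (fun _ _ => by positivity)
      (by
        rw [Finset.sum_const, nsmul_eq_mul, hcard]
        exact mul_inv_cancel₀ (by positivity))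
      (fun _ _ => Set.mem_univ _)
    have h2 : ∀ s, Real.exp (Real.log 2 * (-(a s f : ℝ))) = (2 : ℝ) ^ (-(a s f : ℝ)) := by
      intro s
      rw [Real.rpow_def_of_pos (by norm_num)]
    simp only [smul_eq_mul, h2] at h1
    refine le_trans ?_ h1
    rw [Real.rpow_def_of_pos (by norm_num : (0 : ℝ) < 2)]
    apply Real.exp_le_exp.2
    rw [← Finset.mul_sum, ← Finset.mul_sum, Finset.sum_neg_distrib]
    have h3 := ha f hf
    have hl : 0 ≤ Real.log 2 := Real.log_nonneg (by norm_num)
    have h4 : ((2 : ℝ) ^ k)⁻¹ * ∑ s, (a s f : ℝ) ≤ ((q : ℝ) - 1) * ((q : ℝ) / 2) ^ k := by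
      rw [div_pow, inv_mul_le_iff₀ (by positivity)]
      refine h3.trans (le_of_eq ?_)
      field_simp
    calc Real.log 2 * -(((q : ℝ) - 1) * ((q : ℝ) / 2) ^ k)
        ≤ Real.log 2 * -(((2 : ℝ) ^ k)⁻¹ * ∑ s, (a s f : ℝ)) := by
          apply mul_le_mul_of_nonneg_left _ hl
          linarith
      _ = _ := by ring
  have hsum : (F.card : ℝ) * (2 : ℝ) ^ (-(((q : ℝ) - 1) * ((q : ℝ) / 2) ^ k)) ≤ 1 := by
    calc (F.card : ℝ) * (2 : ℝ) ^ (-(((q : ℝ) - 1) * ((q : ℝ) / 2) ^ k))
        = ∑ _f ∈ F, (2 : ℝ) ^ (-(((q : ℝ) - 1) * ((q : ℝ) / 2) ^ k)) := by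
          rw [Finset.sum_const, nsmul_eq_mul]
      _ ≤ ∑ f ∈ F, ∑ s : Fin k → Bool, ((2 : ℝ) ^ k)⁻¹ * (2 : ℝ) ^ (-(a s f : ℝ)) :=
          Finset.sum_le_sum hconv
      _ = ∑ s : Fin k → Bool, ((2 : ℝ) ^ k)⁻¹ * ∑ f ∈ F, (2 : ℝ) ^ (-(a s f : ℝ)) := by
          rw [Finset.sum_comm]
          apply Finset.sum_congr rfl
          intro s _
          rw [Finset.mul_sum]
      _ ≤ ∑ _s : Fin k → Bool, ((2 : ℝ) ^ k)⁻¹ * 1 := by
          apply Finset.sum_le_sum
          intro s _
          apply mul_le_mul_of_nonneg_left (hs s)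
          positivity
      _ = 1 := by
          rw [Finset.sum_const, Finset.card_univ, Fintype.card_fun, Fintype.card_fin,
            Fintype.card_bool, nsmul_eq_mul, mul_one]
          push_cast
          exact mul_inv_cancel₀ (by positivity)
  rw [Real.rpow_neg (by norm_num)] at hsum
  have hpos : (0 : ℝ) < (2 : ℝ) ^ (((q : ℝ) - 1) * ((q : ℝ) / 2) ^ k) := by positivity
  rw [← div_eq_mul_inv, div_le_one hpos] at hsum
  exact hsum

/-- The integral form of the bound. -/
theorem card_pow_le (hq : 1 ≤ q) (F : Finset ((Fin k → Fin q) → Fin q))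
    (hF : ∀ f ∈ F, IsLatin f) :
    F.card ^ (2 ^ k) ≤ 2 ^ ((q - 1) * q ^ k) := by
  have h1 := card_le_rpow hq F hF
  have h2 : ((F.card : ℝ)) ^ (2 ^ k) ≤
      ((2 : ℝ) ^ (((q : ℝ) - 1) * ((q : ℝ) / 2) ^ k)) ^ (2 ^ k) :=
    pow_le_pow_left₀ (by positivity) h1 _
  have h3 : ((2 : ℝ) ^ (((q : ℝ) - 1) * ((q : ℝ) / 2) ^ k)) ^ (2 ^ k) =
      ((2 ^ ((q - 1) * q ^ k) : ℕ) : ℝ) := by
    rw [← Real.rpow_natCast ((2 : ℝ) ^ (((q : ℝ) - 1) * ((q : ℝ) / 2) ^ k)),
      ← Real.rpow_mul (by norm_num)]
    have h4 : ((q : ℝ) - 1) * ((q : ℝ) / 2) ^ k * ((2 ^ k : ℕ) : ℝ) =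
        (((q - 1) * q ^ k : ℕ) : ℝ) := by
      rw [Nat.cast_mul, Nat.cast_sub hq, Nat.cast_pow, Nat.cast_pow, div_pow]
      push_cast
      field_simp
    rw [h4, Real.rpow_natCast]
    push_cast
    rfl
  rw [h3] at h2
  exact_mod_cast h2

end Pool.Agent.TH439.Upper
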