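import Mathlib
import Pool.Agent.TH439.Upper

/-!
# MDS codes of minimum distance 2 and Latin hypercubes
-/

set_option autoImplicit false

namespace Pool.Agent.TH439.Codes

open Finset Pool.Agent.TH439.Upper

/-- `C` is an MDS code of length `n` and minimum distance `2` over the alphabet `Fin q`: it has
`q ^ (n - 1)` words and any two distinct words differ in at least two places. -/
def IsMDS2 (q n : ℕ) (C : Finset (Fin n → Fin q)) : Prop :=
  C.card = q ^ (n - 1) ∧ ∀ x ∈ C, ∀ y ∈ C, x ≠ y → 2 ≤ hammingDist x y

/-- The number of MDS codes of length `n` and minimum distance `2` over an alphabet of size `q`. -/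
noncomputable def N (q n : ℕ) : ℕ := Nat.card {C : Finset (Fin n → Fin q) // IsMDS2 q n C}

variable {k q : ℕ}

theorem two_le_dist {n : ℕ} (x y : Fin n → Fin q) :
    2 ≤ hammingDist x y ↔ ∃ i j, i ≠ j ∧ x i ≠ y i ∧ x j ≠ y j := by
  unfold hammingDist
  rw [show (2 ≤ (univ.filter (fun i => x i ≠ y i)).card) =
    (1 < (univ.filter (fun i => x i ≠ y i)).card) from rfl, Finset.one_lt_card]
  constructor
  · rintro ⟨i, hi, j, hj, hij⟩
    simp only [Finset.mem_filter, Finset.mem_univ, true_and] at hi hj
    exact ⟨i, j, hij, hi, hj⟩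
  · rintro ⟨i, j, hij, hi, hj⟩
    exact ⟨i, by simpa using hi, j, by simpa using hj, hij⟩

/-- The graph of a function of `k` arguments, as a code of length `k + 1`. -/
def graph (f : (Fin k → Fin q) → Fin q) : Finset (Fin (k + 1) → Fin q) :=
  univ.image (fun x : Fin k → Fin q => (Fin.snoc (α := fun _ => Fin q) x (f x)))

theorem mem_graph (f : (Fin k → Fin q) → Fin q) (w : Fin (k + 1) → Fin q) :
    w ∈ graph f ↔ w (Fin.last k) = f (Fin.init w) := by
  unfold graph
  simp only [Finset.mem_image, Finset.mem_univ, true_and]
  constructor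
  · rintro ⟨x, rfl⟩
    simp
  · intro h
    refine ⟨Fin.init w, ?_⟩
    rw [← h]
    exact Fin.snoc_init_self (α := fun _ => Fin q) w

theorem graph_injective : Function.Injective (graph (k := k) (q := q)) := by
  intro f f' h
  funext x
  have h1 : (Fin.snoc (α := fun _ => Fin q) x (f x)) ∈ graph f := by
    rw [mem_graph]; simp
  rw [h, mem_graph] at h1
  simpa using h1

theorem card_graph (f : (Fin k → Fin q) → Fin q) : (graph f).card = q ^ k := by
  unfold graph
  rw [Finset.card_image_of_injective]
  · rw [Finset.card_univ, Fintype.card_fun, Fintype.card_fin, Fintype.card_fin]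
  · intro x x' h
    have := congrArg (fun w : Fin (k + 1) → Fin q => (Fin.init (α := fun _ => Fin q) w)) h
    simpa using this

theorem graph_isMDS2 (f : (Fin k → Fin q) → Fin q) (hf : IsLatin f) :
    IsMDS2 q (k + 1) (graph f) := by
  refine ⟨by rw [card_graph, Nat.add_sub_cancel], ?_⟩
  intro x hx y hy hxy
  rw [mem_graph] at hx hy
  rw [two_le_dist]
  -- the arguments differ
  have h1 : Fin.init (α := fun _ => Fin q) x ≠ Fin.init (α := fun _ => Fin q) y := by
    intro h
    apply hxy
    rw [← Fin.snoc_init_self (α := fun _ => Fin q) x, ← Fin.snoc_init_self (α := fun _ => Fin q) y,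
      hx, hy, h]
  obtain ⟨i, hi⟩ := Function.ne_iff.1 h1
  by_cases h2 : ∃ j, j ≠ i ∧ Fin.init (α := fun _ => Fin q) x j ≠ Fin.init (α := fun _ => Fin q) y j
  · obtain ⟨j, hji, hj⟩ := h2
    exact ⟨i.castSucc, j.castSucc, fun h => hji (Fin.castSucc_injective k h).symm, hi, hj⟩
  · push Not at h2
    refine ⟨i.castSucc, Fin.last k, (Fin.castSucc_lt_last i).ne, hi, ?_⟩
    intro h3
    rw [hx, hy] at h3
    have h4 : Fin.init (α := fun _ => Fin q) y =
        Function.update (Fin.init (α := fun _ => Fin q) x) i
          (Fin.init (α := fun _ => Fin q) y i) := by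
      funext j
      by_cases hj : j = i
      · subst hj; simp
      · rw [Function.update_of_ne hj]; exact (h2 j hj).symm
    have h5 : Fin.init (α := fun _ => Fin q) x =
        Function.update (Fin.init (α := fun _ => Fin q) x) i
          (Fin.init (α := fun _ => Fin q) x i) := by
      simp
    rw [h4] at h3
    nth_rewrite 1 [h5] at h3
    exact hi (hf _ i h3)

theorem exists_graph (C : Finset (Fin (k + 1) → Fin q)) (hC : IsMDS2 q (k + 1) C) :
    ∃ f : (Fin k → Fin q) → Fin q, IsLatin f ∧ graph f = C := by
  classical
  obtain ⟨hcard, hdist⟩ := hC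
  rw [Nat.add_sub_cancel] at hcard
  have hinj : Set.InjOn (fun w : Fin (k + 1) → Fin q => (Fin.init (α := fun _ => Fin q) w)) C := by
    intro w hw w' hw' h
    by_contra hne
    obtain ⟨i, j, hij, hi, hj⟩ := (two_le_dist _ _).1 (hdist w hw w' hw' hne)
    have key : ∀ i, w i ≠ w' i → i = Fin.last k := by
      intro i hi
      rcases Fin.eq_castSucc_or_eq_last i with ⟨i', rfl⟩ | h1
      · exact absurd (congrFun h i') hi
      · exact h1
    exact hij ((key i hi).trans (key j hj).symm)
  have himg : C.image (fun w : Fin (k + 1) → Fin q => (Fin.init (α := fun _ => Fin q) w)) =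
      Finset.univ := by
    apply Finset.eq_univ_of_card
    rw [Finset.card_image_of_injOn hinj, hcard, Fintype.card_fun, Fintype.card_fin,
      Fintype.card_fin]
  have hex : ∀ x : Fin k → Fin q, ∃ w ∈ C, Fin.init (α := fun _ => Fin q) w = x := by
    intro x
    have := Finset.mem_univ x
    rw [← himg, Finset.mem_image] at this
    exact this
  choose g hgC hg using hex
  refine ⟨fun x => g x (Fin.last k), ?_, ?_⟩
  · intro x i a b hab
    by_contra hne
    have h1 : g (Function.update x i a) ≠ g (Function.update x i b) := by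
      intro h
      have h2 := congrArg (fun w : Fin (k + 1) → Fin q => (Fin.init (α := fun _ => Fin q) w)) h
      simp only [hg] at h2
      have h3 := congrFun h2 i
      simp only [Function.update_self] at h3
      exact hne h3
    obtain ⟨j, j', hjj, hj, hj'⟩ := (two_le_dist _ _).1 (hdist _ (hgC _) _ (hgC _) h1)
    have key : ∀ j, g (Function.update x i a) j ≠ g (Function.update x i b) j →
        j = i.castSucc := by
      intro j hj
      rcases Fin.eq_castSucc_or_eq_last j with ⟨j', rfl⟩ | h2
      · by_contra hji
        apply hj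
        have e1 : ∀ y : Fin k → Fin q, g y j'.castSucc = y j' := fun y => congrFun (hg y) j'
        rw [e1, e1]
        have : j' ≠ i := fun h => hji (by rw [h])
        rw [Function.update_of_ne this, Function.update_of_ne this]
      · subst h2
        exact absurd hab hj
    exact hjj ((key j hj).trans (key j' hj').symm)
  · apply Finset.eq_of_subset_of_card_le
    · intro w hw
      rw [mem_graph] at hw
      have : w = g (Fin.init (α := fun _ => Fin q) w) := by
        rw [← Fin.snoc_init_self (α := fun _ => Fin q) w,
          ← Fin.snoc_init_self (α := fun _ => Fin q)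
            (g (Fin.init (α := fun _ => Fin q) (Fin.snoc (α := fun _ => Fin q)
              (Fin.init (α := fun _ => Fin q) w) (w (Fin.last k)))))]
        rw [hg]
        simp only [Fin.init_snoc]
        rw [hw]
      rw [this]
      exact hgC _
    · rw [card_graph, hcard]

/-- MDS codes of minimum distance `2` and length `k + 1` are counted by Latin hypercubes of
dimension `k`. -/
theorem N_eq : N q (k + 1) = Nat.card {f : (Fin k → Fin q) → Fin q // IsLatin f} := by
  unfold N
  symm
  apply Nat.card_congr
  refine Equiv.ofBijective (fun f => ⟨graph f.1, graph_isMDS2 f.1 f.2⟩) ⟨?_, ?_⟩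
  · intro f f' h
    apply Subtype.ext
    exact graph_injective (congrArg Subtype.val h)
  · rintro ⟨C, hC⟩
    obtain ⟨f, hf, rfl⟩ := exists_graph C hC
    exact ⟨⟨f, hf⟩, rfl⟩

end Pool.Agent.TH439.Codes
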