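import Mathlib
import Pool.Agent.TH439.Codes

/-!
# The number of Latin hypercubes of even order: the lower bound
-/

set_option autoImplicit false

namespace Pool.Agent.TH439.Lower

open Finset Pool.Agent.TH439.Upper Pool.Agent.TH439.Codes

variable {k : ℕ}

theorem sum_update {G : Type*} [AddCommGroup G] (u : Fin k → G) (i : Fin k) (a : G) :
    ∑ j, Function.update u i a j = a + ∑ j ∈ (Finset.univ.erase i), u j := by
  rw [← Finset.add_sum_erase _ _ (Finset.mem_univ i), Function.update_self]
  congr 1
  apply Finset.sum_congr rfl
  intro j hj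
  rw [Function.update_of_ne (Finset.ne_of_mem_erase hj)]

/-- The switched hypercube. -/
noncomputable def sw {q m : ℕ} (e : ZMod 2 × ZMod m ≃ Fin q) (g : (Fin k → ZMod m) → ZMod 2)
    (x : Fin k → Fin q) : Fin q :=
  e (∑ i, (e.symm (x i)).1 + g (fun i => (e.symm (x i)).2), ∑ i, (e.symm (x i)).2)

theorem sw_isLatin {q m : ℕ} (e : ZMod 2 × ZMod m ≃ Fin q) (g : (Fin k → ZMod m) → ZMod 2) :
    IsLatin (sw e g) := by
  intro x i a b hab
  have hab' : sw e g (Function.update x i a) = sw e g (Function.update x i b) := hab
  unfold sw at hab'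
  have h := e.injective hab'
  obtain ⟨h1, h2⟩ := Prod.mk.inj h
  have e1 : ∀ c, (fun j => (e.symm (Function.update x i c j)).1) =
      Function.update (fun j => (e.symm (x j)).1) i (e.symm c).1 := by
    intro c
    funext j
    by_cases hj : j = i
    · subst hj; simp
    · simp [Function.update_of_ne hj]
  have e2 : ∀ c, (fun j => (e.symm (Function.update x i c j)).2) =
      Function.update (fun j => (e.symm (x j)).2) i (e.symm c).2 := by
    intro c
    funext j
    by_cases hj : j = i
    · subst hj; simp
    · simp [Function.update_of_ne hj]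
  have h2' : (e.symm a).2 = (e.symm b).2 := by
    have h3 := h2
    rw [show (∑ j, (e.symm (Function.update x i a j)).2) =
        ∑ j, Function.update (fun j => (e.symm (x j)).2) i (e.symm a).2 j from by rw [← e2 a],
      show (∑ j, (e.symm (Function.update x i b j)).2) =
        ∑ j, Function.update (fun j => (e.symm (x j)).2) i (e.symm b).2 j from by rw [← e2 b],
      sum_update, sum_update] at h3
    exact add_right_cancel h3
  have hg : (fun j => (e.symm (Function.update x i a j)).2) =
      (fun j => (e.symm (Function.update x i b j)).2) := by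
    rw [e2, e2, h2']
  rw [hg] at h1
  have h1' : (e.symm a).1 = (e.symm b).1 := by
    have h3 := add_right_cancel h1
    rw [show (∑ j, (e.symm (Function.update x i a j)).1) =
        ∑ j, Function.update (fun j => (e.symm (x j)).1) i (e.symm a).1 j from by rw [← e1 a],
      show (∑ j, (e.symm (Function.update x i b j)).1) =
        ∑ j, Function.update (fun j => (e.symm (x j)).1) i (e.symm b).1 j from by rw [← e1 b],
      sum_update, sum_update] at h3
    exact add_right_cancel h3
  exact e.symm.injective (Prod.ext h1' h2')

theorem sw_injective {q m : ℕ} (e : ZMod 2 × ZMod m ≃ Fin q) :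
    Function.Injective (sw (k := k) e) := by
  intro g g' h
  funext b
  have h1 := congrFun h (fun i => e (0, b i))
  unfold sw at h1
  have h2 := e.injective h1
  have h3 := (Prod.mk.inj h2).1
  simpa using h3

/-- For even `q` there are at least `2 ^ ((q / 2) ^ k)` Latin hypercubes of dimension `k`. -/
theorem le_card {m : ℕ} (hm : 1 ≤ m) :
    2 ^ (m ^ k) ≤ Nat.card {f : (Fin k → Fin (2 * m)) → Fin (2 * m) // IsLatin f} := by
  classical
  haveI : NeZero m := ⟨by omega⟩
  have hc : Fintype.card (ZMod 2 × ZMod m) = Fintype.card (Fin (2 * m)) := by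
    rw [Fintype.card_prod, ZMod.card, ZMod.card, Fintype.card_fin]
  let e : ZMod 2 × ZMod m ≃ Fin (2 * m) := Fintype.equivOfCardEq hc
  have h1 : Nat.card ((Fin k → ZMod m) → ZMod 2) = 2 ^ (m ^ k) := by
    rw [Nat.card_eq_fintype_card, Fintype.card_fun, Fintype.card_fun, ZMod.card, ZMod.card,
      Fintype.card_fin]
  rw [← h1]
  apply Nat.card_le_card_of_injective
    (fun g => (⟨sw e g, sw_isLatin e g⟩ : {f : (Fin k → Fin (2 * m)) → Fin (2 * m) // IsLatin f}))
  intro g g' h
  exact sw_injective e (congrArg Subtype.val h)

end Pool.Agent.TH439.Lower
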