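import Mathlib

/-!
Group theory for the reduction of the local-global problem for zero-cycles of degree one to
varieties with a point over a cyclic extension of prime degree.
-/

namespace Pool.Agent.TH439.CP

open Subgroup

/-- If `U ≤ W` has index prime to `p` (modulo a normal subgroup `N ≤ U` of finite index), there is
a subgroup `P` of index prime to `p` with `P ⊓ W ≤ U`. -/
theorem sylow_step {G : Type*} [Group G] (N U W : Subgroup G) [N.Normal] [N.FiniteIndex]
    (hNU : N ≤ U) (hUW : U ≤ W) (p : ℕ) [hp : Fact p.Prime] (h : ¬ p ∣ U.relIndex W) :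
    ∃ P : Subgroup G, N ≤ P ∧ ¬ p ∣ P.index ∧ P ⊓ W ≤ U := by
  classical
  let φ : G →* G ⧸ N := QuotientGroup.mk' N
  have hφ : Function.Surjective φ := QuotientGroup.mk'_surjective N
  have hker : φ.ker = N := QuotientGroup.ker_mk' N
  set Ub : Subgroup (G ⧸ N) := U.map φ with hUb
  set Wb : Subgroup (G ⧸ N) := W.map φ with hWb
  have hUWb : Ub ≤ Wb := Subgroup.map_mono hUW
  have hrel : ¬ p ∣ Ub.relIndex Wb := by
    have h1 : Ub.relIndex Wb = U.relIndex W := by
      rw [hUb, hWb, Subgroup.relIndex_map_map, hker, sup_eq_left.2 hNU,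
        sup_eq_left.2 (hNU.trans hUW)]
    rwa [h1]
  obtain ⟨S⟩ : Nonempty (Sylow p ↥Ub) := inferInstance
  let Q : Subgroup (G ⧸ N) := (S : Subgroup ↥Ub).map Ub.subtype
  have hQ : IsPGroup p ↥Q := S.isPGroup'.map _
  obtain ⟨P, hP⟩ := hQ.exists_le_sylow
  have hQU : Q ≤ Ub := by
    rintro x ⟨y, -, rfl⟩
    exact y.2
  have hle : Q ≤ (P : Subgroup (G ⧸ N)) ⊓ Wb := le_inf hP (hQU.trans hUWb)
  have hpg : IsPGroup p ↥((P : Subgroup (G ⧸ N)) ⊓ Wb) := P.isPGroup'.to_le inf_le_left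
  obtain ⟨m, hm⟩ := IsPGroup.iff_card.1 hpg
  have hdvd : p ^ m ∣ Nat.card ↥Ub := by
    have h1 : p ^ m ∣ Nat.card ↥Wb := hm ▸ Subgroup.card_dvd_of_le inf_le_right
    have h2 : Ub.relIndex Wb * Nat.card ↥Ub = Nat.card ↥Wb := by
      have := Subgroup.card_mul_index (Ub.subgroupOf Wb)
      rw [Nat.card_congr (Subgroup.subgroupOfEquivOfLe hUWb).toEquiv] at this
      rw [mul_comm]; exact this
    rw [← h2] at h1
    exact (Nat.Coprime.dvd_of_dvd_mul_left
      (((Nat.Prime.coprime_iff_not_dvd hp.1).2 hrel).pow_left m) h1)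
  have hQc : Nat.card ↥Q = p ^ (Nat.card ↥Ub).factorization p := by
    have h1 : Nat.card ↥Q = Nat.card ↥(S : Subgroup ↥Ub) :=
      Nat.card_congr ((S : Subgroup ↥Ub).equivMapOfInjective Ub.subtype
        (Subgroup.subtype_injective _)).toEquiv.symm
    rw [h1]; exact S.card_eq_multiplicity
  have hcard : Nat.card ↥((P : Subgroup (G ⧸ N)) ⊓ Wb) ≤ Nat.card ↥Q := by
    rw [hm, hQc]
    exact Nat.pow_le_pow_right hp.1.pos
      ((hp.1.pow_dvd_iff_le_factorization Nat.card_pos.ne').1 hdvd)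
  have heq : Q = (P : Subgroup (G ⧸ N)) ⊓ Wb := Subgroup.eq_of_le_of_card_ge hle hcard
  refine ⟨(P : Subgroup (G ⧸ N)).comap φ, ?_, ?_, ?_⟩
  · intro x hx
    have : φ x = 1 := by
      have : x ∈ φ.ker := by rw [hker]; exact hx
      exact this
    rw [Subgroup.mem_comap, this]; exact one_mem _
  · rw [Subgroup.index_comap_of_surjective _ hφ]
    exact P.not_dvd_index
  · rintro x ⟨hx1, hx2⟩
    have h1 : φ x ∈ Q := by
      rw [heq]; exact ⟨hx1, Subgroup.mem_map_of_mem _ hx2⟩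
    obtain ⟨y, hy, hxy⟩ := hQU h1
    have h2 : y⁻¹ * x ∈ φ.ker := by
      rw [MonoidHom.mem_ker, map_mul, map_inv, hxy]; simp
    rw [hker] at h2
    have h3 := U.mul_mem hy (hNU h2)
    simpa using h3

/-- In a finite-index situation of `p`-power index there is a normal subgroup of index `p`. -/
theorem chain_step {G : Type*} [Group G] (V : Subgroup G) [V.Normal] (p a : ℕ)
    [hp : Fact p.Prime] (h : V.index = p ^ (a + 1)) :
    ∃ W : Subgroup G, V ≤ W ∧ W.Normal ∧ W.index = p ∧ V.relIndex W = p ^ a := by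
  classical
  have hfin : Finite (G ⧸ V) := by
    apply Nat.finite_of_card_ne_zero
    have : Nat.card (G ⧸ V) = V.index := rfl
    rw [this, h]; exact pow_ne_zero _ hp.1.ne_zero
  have hcard : Nat.card (G ⧸ V) = p ^ (a + 1) := h
  obtain ⟨K, hK⟩ := Sylow.exists_subgroup_card_pow_prime (G := G ⧸ V) p (n := a)
    (by rw [hcard]; exact pow_dvd_pow _ (Nat.le_succ a))
  have hKi : K.index = p := by
    have := K.card_mul_index
    rw [hcard, hK, pow_succ] at this
    exact Nat.eq_of_mul_eq_mul_left (pow_pos hp.1.pos a) this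
  have hKn : K.Normal := by
    apply Subgroup.normal_of_index_eq_minFac_card
    rw [hKi, hcard, hp.1.pow_minFac (Nat.succ_ne_zero a)]
  let φ : G →* G ⧸ V := QuotientGroup.mk' V
  have hφ : Function.Surjective φ := QuotientGroup.mk'_surjective V
  have hker : φ.ker = V := QuotientGroup.ker_mk' V
  have hle : V ≤ K.comap φ := by
    intro x hx
    have : φ x = 1 := by
      have : x ∈ φ.ker := by rw [hker]; exact hx
      exact this
    rw [Subgroup.mem_comap, this]; exact one_mem _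
  have hind : (K.comap φ).index = p := by
    rw [Subgroup.index_comap_of_surjective _ hφ, hKi]
  refine ⟨K.comap φ, hle, Subgroup.Normal.comap hKn φ, hind, ?_⟩
  have := Subgroup.relIndex_mul_index hle
  rw [hind, h, pow_succ] at this
  exact Nat.eq_of_mul_eq_mul_right hp.1.pos this


variable {Γ : Type*} [Group Γ]

/-- `p` divides the index of every subgroup `U ≤ H` of the family `O` with the property `P`. -/
def Bad (O : Set (Subgroup Γ)) (P : Subgroup Γ → Prop) (p : ℕ) (H : Subgroup Γ) : Prop :=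
  ∀ U ∈ O, U ≤ H → P U → p ∣ U.relIndex H

theorem Bad.of_le {O : Set (Subgroup Γ)} {P : Subgroup Γ → Prop} {p : ℕ} (hp : p.Prime)
    {H H' : Subgroup Γ} (hB : Bad O P p H) (hle : H' ≤ H) (hn : ¬ p ∣ H'.relIndex H) :
    Bad O P p H' := by
  intro U hU hUH hPU
  have h1 := hB U hU (hUH.trans hle) hPU
  rw [← Subgroup.relIndex_mul_relIndex U H' H hUH hle] at h1
  exact (hp.dvd_mul.1 h1).resolve_right hn

theorem sylow_in {O : Set (Subgroup Γ)} (up : ∀ U ∈ O, ∀ V, U ≤ V → V ∈ O)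
    (nrm : ∀ U ∈ O, ∃ N ∈ O, N ≤ U ∧ N.Normal ∧ N.FiniteIndex)
    (p : ℕ) [hp : Fact p.Prime] {H U W : Subgroup Γ} (hU : U ∈ O) (hUW : U ≤ W) (hWH : W ≤ H)
    (h : ¬ p ∣ U.relIndex W) :
    ∃ H' ∈ O, H' ≤ H ∧ ¬ p ∣ H'.relIndex H ∧ H' ⊓ W ≤ U := by
  obtain ⟨N, hN, hNU, hNn, hNf⟩ := nrm U hU
  have hNH : N ≤ H := hNU.trans (hUW.trans hWH)
  have hfi : (N.subgroupOf H).FiniteIndex := inferInstance
  have hnn : (N.subgroupOf H).Normal := inferInstance
  obtain ⟨Q, hQ1, hQ2, hQ3⟩ := sylow_step (N.subgroupOf H) (U.subgroupOf H) (W.subgroupOf H)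
    (Subgroup.comap_mono hNU) (Subgroup.comap_mono hUW) p
    (by rw [Subgroup.relIndex_subgroupOf hWH]; exact h)
  have hback : (Q.map H.subtype).subgroupOf H = Q :=
    Subgroup.comap_map_eq_self_of_injective (Subgroup.subtype_injective H) Q
  refine ⟨Q.map H.subtype, ?_, ?_, ?_, ?_⟩
  · apply up N hN
    intro x hx
    exact ⟨⟨x, hNH hx⟩, hQ1 (by simpa [Subgroup.mem_subgroupOf] using hx), rfl⟩
  · rintro x ⟨y, -, rfl⟩
    exact y.2
  · rw [Subgroup.relIndex, hback]; exact hQ2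
  · rintro x ⟨⟨y, hy, rfl⟩, hx2⟩
    have : y ∈ U.subgroupOf H := hQ3 ⟨hy, by simpa [Subgroup.mem_subgroupOf] using hx2⟩
    simpa [Subgroup.mem_subgroupOf] using this

/-- The conclusion: a subgroup `H' ≤ H` which is still bad, with a normal subgroup `K'` of index
`p` having the property `P`. -/
def Concl (O : Set (Subgroup Γ)) (P : Subgroup Γ → Prop) (p : ℕ) (H : Subgroup Γ) : Prop :=
  ∃ H' ∈ O, ∃ K' ∈ O, H' ≤ H ∧ K' ≤ H' ∧ Bad O P p H' ∧ (K'.subgroupOf H').Normal ∧
    K'.relIndex H' = p ∧ P K'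

theorem tower {O : Set (Subgroup Γ)} (up : ∀ U ∈ O, ∀ V, U ≤ V → V ∈ O)
    (nrm : ∀ U ∈ O, ∃ N ∈ O, N ≤ U ∧ N.Normal ∧ N.FiniteIndex)
    (inf : ∀ U ∈ O, ∀ V ∈ O, U ⊓ V ∈ O)
    {P : Subgroup Γ → Prop} (anti : ∀ U V, U ≤ V → P V → P U)
    (p : ℕ) [hp : Fact p.Prime] (a : ℕ) :
    ∀ H ∈ O, Bad O P p H → ∀ V ∈ O, V ≤ H → (V.subgroupOf H).Normal →
      V.relIndex H = p ^ a → P V → Concl O P p H := by
  induction a with
  | zero =>
    intro H hH hB V hV hVH hVn hind hPV
    have := hB V hV hVH hPV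
    rw [hind, pow_zero, Nat.dvd_one] at this
    exact absurd this hp.1.one_lt.ne'
  | succ a ih =>
    intro H hH hB V hV hVH hVn hind hPV
    obtain ⟨W0, hVW0, hW0n, hW0i, hVW0i⟩ := chain_step (V.subgroupOf H) p a hind
    -- move to subgroups of Γ
    set W : Subgroup Γ := W0.map H.subtype with hWdef
    have hback : W.subgroupOf H = W0 :=
      Subgroup.comap_map_eq_self_of_injective (Subgroup.subtype_injective H) W0
    have hWH : W ≤ H := by
      rintro x ⟨y, -, rfl⟩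
      exact y.2
    have hVW : V ≤ W := by
      intro x hx
      exact ⟨⟨x, hVH hx⟩, hVW0 (by simpa [Subgroup.mem_subgroupOf] using hx), rfl⟩
    have hWO : W ∈ O := up V hV W hVW
    have hWi : W.relIndex H = p := by rw [Subgroup.relIndex, hback]; exact hW0i
    have hVWi : V.relIndex W = p ^ a := by
      rw [← Subgroup.relIndex_subgroupOf hWH, hback]; exact hVW0i
    by_cases hBW : Bad O P p W
    · have hVn' : (V.subgroupOf W).Normal := by
        constructor
        intro n hn g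
        have h1 := hVn.conj_mem ⟨(n : Γ), hWH n.2⟩
          (by simpa [Subgroup.mem_subgroupOf] using hn) ⟨(g : Γ), hWH g.2⟩
        simpa [Subgroup.mem_subgroupOf] using h1
      obtain ⟨H', hH', K', hK', h1, h2, h3, h4, h5, h6⟩ :=
        ih W hWO hBW V hV hVW hVn' hVWi hPV
      exact ⟨H', hH', K', hK', h1.trans hWH, h2, h3, h4, h5, h6⟩
    · simp only [Bad, not_forall] at hBW
      obtain ⟨U, hU, hUW, hPU, hnd⟩ := hBW
      obtain ⟨H', hH', hH'H, hH'i, hH'U⟩ := sylow_in up nrm p hU hUW hWH hnd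
      have hB' : Bad O P p H' := hB.of_le hp.1 hH'H hH'i
      have hK : H' ⊓ W ∈ O := inf H' hH' W hWO
      have hPK : P (H' ⊓ W) := anti _ _ hH'U hPU
      have hd : p ∣ (H' ⊓ W).relIndex H' := hB' _ hK inf_le_left hPK
      have hne : W.relIndex H' ≠ 0 := by
        intro h0
        have := Subgroup.relIndex_eq_zero_of_le_right hH'H h0
        rw [hWi] at this
        exact hp.1.ne_zero this
      have hle : (H' ⊓ W).relIndex H' ≤ p := by
        rw [Subgroup.inf_relIndex_left, ← hWi]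
        exact Subgroup.relIndex_le_of_le_right hH'H (by rw [hWi]; exact hp.1.ne_zero)
      have hpos : 0 < (H' ⊓ W).relIndex H' := by
        rw [Subgroup.inf_relIndex_left]; exact Nat.pos_of_ne_zero hne
      have heq : (H' ⊓ W).relIndex H' = p := le_antisymm hle (Nat.le_of_dvd hpos hd)
      refine ⟨H', hH', H' ⊓ W, hK, hH'H, inf_le_left, hB', ?_, heq, hPK⟩
      have hWn : (W.subgroupOf H).Normal := by rw [hback]; exact hW0n
      constructor
      intro n hn g
      rw [Subgroup.mem_subgroupOf] at hn ⊢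
      refine ⟨(g * n * g⁻¹).2, ?_⟩
      have h1 := hWn.conj_mem ⟨(n : Γ), hH'H n.2⟩
        (by rw [Subgroup.mem_subgroupOf]; exact hn.2) ⟨(g : Γ), hH'H g.2⟩
      rw [Subgroup.mem_subgroupOf] at h1
      simpa using h1

theorem main_group {O : Set (Subgroup Γ)} (up : ∀ U ∈ O, ∀ V, U ≤ V → V ∈ O)
    (nrm : ∀ U ∈ O, ∃ N ∈ O, N ≤ U ∧ N.Normal ∧ N.FiniteIndex)
    (inf : ∀ U ∈ O, ∀ V ∈ O, U ⊓ V ∈ O)
    {P : Subgroup Γ → Prop} (anti : ∀ U V, U ≤ V → P V → P U)
    (p : ℕ) [hp : Fact p.Prime] {H U0 : Subgroup Γ} (hH : H ∈ O) (hB : Bad O P p H)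
    (hU0 : U0 ∈ O) (hPU0 : P U0) : Concl O P p H := by
  obtain ⟨N, hN, hNU, hNn, hNf⟩ := nrm (U0 ⊓ H) (inf U0 hU0 H hH)
  have hNH : N ≤ H := hNU.trans inf_le_right
  have hPN : P N := anti _ _ (hNU.trans inf_le_left) hPU0
  -- a Sylow subgroup of `H / N`
  have hnn : (N.subgroupOf H).Normal := inferInstance
  have hfi : (N.subgroupOf H).FiniteIndex := inferInstance
  obtain ⟨S⟩ : Nonempty (Sylow p (↥H ⧸ N.subgroupOf H)) := inferInstance
  let φ : ↥H →* ↥H ⧸ N.subgroupOf H := QuotientGroup.mk' _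
  have hφ : Function.Surjective φ := QuotientGroup.mk'_surjective _
  have hker : φ.ker = N.subgroupOf H := QuotientGroup.ker_mk' _
  let Q : Subgroup ↥H := (S : Subgroup _).comap φ
  have hNQ : N.subgroupOf H ≤ Q := by
    intro x hx
    have : φ x = 1 := by
      have : x ∈ φ.ker := by rw [hker]; exact hx
      exact this
    rw [Subgroup.mem_comap, this]; exact one_mem _
  have hQi : ¬ p ∣ Q.index := by
    rw [Subgroup.index_comap_of_surjective _ hφ]
    exact S.not_dvd_index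
  have hNQi : ∃ a, (N.subgroupOf H).relIndex Q = p ^ a := by
    obtain ⟨a, ha⟩ := IsPGroup.iff_card.1 S.isPGroup'
    refine ⟨a, ?_⟩
    have h1 : Q.map φ = (S : Subgroup _) := Subgroup.map_comap_eq_self_of_surjective hφ _
    have h2 := Subgroup.relIndex_ker (K := Q) φ
    rw [hker, h1] at h2
    rw [h2]; exact ha
  obtain ⟨a, ha⟩ := hNQi
  set H' : Subgroup Γ := Q.map H.subtype with hH'def
  have hback : H'.subgroupOf H = Q :=
    Subgroup.comap_map_eq_self_of_injective (Subgroup.subtype_injective H) Q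
  have hH'H : H' ≤ H := by
    rintro x ⟨y, -, rfl⟩
    exact y.2
  have hNH' : N ≤ H' := by
    intro x hx
    exact ⟨⟨x, hNH hx⟩, hNQ (by simpa [Subgroup.mem_subgroupOf] using hx), rfl⟩
  have hH'O : H' ∈ O := up N hN H' hNH'
  have hi : ¬ p ∣ H'.relIndex H := by rw [Subgroup.relIndex, hback]; exact hQi
  have hi2 : N.relIndex H' = p ^ a := by
    rw [← Subgroup.relIndex_subgroupOf hH'H, hback]; exact ha
  obtain ⟨H'', h1, K'', h2, h3, h4, h5, h6, h7, h8⟩ :=
    tower up nrm inf anti p a H' hH'O (hB.of_le hp.1 hH'H hi) N hN hNH' inferInstance hi2 hPN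
  exact ⟨H'', h1, K'', h2, h3.trans hH'H, h4, h5, h6, h7, h8⟩

end Pool.Agent.TH439.CP
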