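import Pool.Agent.TH439.CP1

/-!
Translation to finite extensions `F/k` inside a Galois extension `Ω/k` (the separable closure).
-/

namespace Pool.Agent.TH439.CP

open IntermediateField

variable {k Ω : Type*} [Field k] [Field Ω] [Algebra k Ω]

/-- subgroups of `Gal(Ω/k)` which contain `Gal(Ω/E)` for a finite extension `E/k` -/
def OpenSub (k Ω : Type*) [Field k] [Field Ω] [Algebra k Ω] : Set (Subgroup Gal(Ω/k)) :=
  {H | ∃ E : IntermediateField k Ω, FiniteDimensional k E ∧ E.fixingSubgroup ≤ H}

theorem openSub_up : ∀ U ∈ OpenSub k Ω, ∀ V, U ≤ V → V ∈ OpenSub k Ω := by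
  rintro U ⟨E, hE, hU⟩ V hV
  exact ⟨E, hE, hU.trans hV⟩

theorem openSub_inf : ∀ U ∈ OpenSub k Ω, ∀ V ∈ OpenSub k Ω, U ⊓ V ∈ OpenSub k Ω := by
  rintro U ⟨E, hE, hU⟩ V ⟨E', hE', hV⟩
  exact ⟨E ⊔ E', inferInstance, le_inf ((fixingSubgroup_le le_sup_left).trans hU)
    ((fixingSubgroup_le le_sup_right).trans hV)⟩

theorem openSub_nrm [IsGalois k Ω] :
    ∀ U ∈ OpenSub k Ω, ∃ N ∈ OpenSub k Ω, N ≤ U ∧ N.Normal ∧ N.FiniteIndex := by
  rintro U ⟨E, hE, hU⟩
  let E' := normalClosure k E Ω
  have hle : E ≤ E' := by simpa only [fieldRange_val] using E.val.fieldRange_le_normalClosure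
  have hfin : FiniteDimensional k E' := inferInstance
  refine ⟨E'.fixingSubgroup, ⟨E', hfin, le_rfl⟩, (fixingSubgroup_le hle).trans hU, ?_, ?_⟩
  · exact (InfiniteGalois.normal_iff_isGalois E').2 inferInstance
  · refine ⟨?_⟩
    rw [← finrank_eq_fixingSubgroup_index]
    exact Module.finrank_pos.ne'

theorem fixed_fixing [IsGalois k Ω] (F : IntermediateField k Ω) :
    fixedField F.fixingSubgroup = F := InfiniteGalois.fixedField_fixingSubgroup F

theorem fixing_fixed [IsGalois k Ω] {H : Subgroup Gal(Ω/k)} (hH : H ∈ OpenSub k Ω) :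
    (fixedField H).fixingSubgroup = H := by
  obtain ⟨E, hE, hEH⟩ := hH
  have hop : IsOpen (H : Set Gal(Ω/k)) :=
    Subgroup.isOpen_mono hEH (fixingSubgroup_isOpen E)
  exact InfiniteGalois.fixingSubgroup_fixedField ⟨H, Subgroup.isClosed_of_isOpen H hop⟩

theorem fixed_finite [IsGalois k Ω] {H : Subgroup Gal(Ω/k)} (hH : H ∈ OpenSub k Ω) :
    FiniteDimensional k (fixedField H) := by
  obtain ⟨E, hE, hEH⟩ := hH
  have hle : fixedField H ≤ E := by
    have h1 : fixedField H ≤ fixedField E.fixingSubgroup := fixedField_antitone hEH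
    rwa [fixed_fixing] at h1
  exact FiniteDimensional.of_injective (inclusion hle).toLinearMap (inclusion hle).injective

theorem fixing_mem {F : IntermediateField k Ω} (hF : FiniteDimensional k F) :
    F.fixingSubgroup ∈ OpenSub k Ω := ⟨F, hF, le_rfl⟩

theorem relfinrank_eq [IsGalois k Ω] {F E : IntermediateField k Ω}
    (hF : FiniteDimensional k F) (h : F ≤ E) :
    F.relfinrank E = E.fixingSubgroup.relIndex F.fixingSubgroup := by
  have h1 := finrank_bot_mul_relfinrank h
  have h2 := Subgroup.relIndex_mul_index (fixingSubgroup_le h)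
  rw [← finrank_eq_fixingSubgroup_index, ← finrank_eq_fixingSubgroup_index, ← h1, mul_comm] at h2
  exact (Nat.eq_of_mul_eq_mul_left Module.finrank_pos h2).symm

/-- `p` divides the degree over `F` of every finite extension `E` of `F` with `pt E`. -/
def BadField (pt : IntermediateField k Ω → Prop) (p : ℕ) (F : IntermediateField k Ω) : Prop :=
  ∀ E : IntermediateField k Ω, F ≤ E → FiniteDimensional k E → pt E → p ∣ F.relfinrank E

theorem badField_iff [IsGalois k Ω] (pt : IntermediateField k Ω → Prop) (p : ℕ)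
    {F : IntermediateField k Ω} (hF : FiniteDimensional k F) :
    BadField pt p F ↔ Bad (OpenSub k Ω) (fun H => pt (fixedField H)) p F.fixingSubgroup := by
  constructor
  · intro h U hU hle hpt
    have h1 : F ≤ fixedField U := (le_iff_le U F).2 hle
    have h2 := h _ h1 (fixed_finite hU) hpt
    rwa [relfinrank_eq hF h1, fixing_fixed hU] at h2
  · intro h E hFE hE hpt
    rw [relfinrank_eq hF hFE]
    refine h _ (fixing_mem hE) (fixingSubgroup_le hFE) ?_
    simpa only [fixed_fixing] using hpt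

theorem isGalois_of_normal [IsGalois k Ω] {F K : IntermediateField k Ω} (h : F ≤ K)
    (hn : (K.fixingSubgroup.subgroupOf F.fixingSubgroup).Normal) :
    IsGalois ↥F ↥(extendScalars h) := by
  rw [← InfiniteGalois.normal_iff_isGalois]
  constructor
  intro n hn' g
  rw [IntermediateField.mem_fixingSubgroup_iff] at hn' ⊢
  let n' : Gal(Ω/k) := n.restrictScalars k
  let g' : Gal(Ω/k) := g.restrictScalars k
  have hg' : g' ∈ F.fixingSubgroup := by
    rw [IntermediateField.mem_fixingSubgroup_iff]
    intro x hx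
    exact g.commutes ⟨x, hx⟩
  have hn0 : n' ∈ K.fixingSubgroup := by
    rw [IntermediateField.mem_fixingSubgroup_iff]
    intro x hx
    exact hn' x hx
  have hnF : n' ∈ F.fixingSubgroup := fixingSubgroup_le h hn0
  have h1 := hn.conj_mem ⟨n', hnF⟩ (by simpa [Subgroup.mem_subgroupOf] using hn0) ⟨g', hg'⟩
  rw [Subgroup.mem_subgroupOf] at h1
  intro x hx
  have h2 := (IntermediateField.mem_fixingSubgroup_iff _ _).1 h1 x hx
  exact h2

theorem normal_of_isGalois [IsGalois k Ω] {F K : IntermediateField k Ω} (h : F ≤ K)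
    (hG : IsGalois ↥F ↥(extendScalars h)) :
    (K.fixingSubgroup.subgroupOf F.fixingSubgroup).Normal := by
  rw [← InfiniteGalois.normal_iff_isGalois] at hG
  constructor
  intro n hn g
  rw [Subgroup.mem_subgroupOf, IntermediateField.mem_fixingSubgroup_iff] at hn ⊢
  let n' : Gal(Ω/↥F) := fixingSubgroupEquiv F n
  let g' : Gal(Ω/↥F) := fixingSubgroupEquiv F g
  have hn' : n' ∈ (extendScalars h).fixingSubgroup := by
    rw [IntermediateField.mem_fixingSubgroup_iff]
    intro x hx
    exact hn x hx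
  have h1 := hG.conj_mem n' hn' g'
  rw [IntermediateField.mem_fixingSubgroup_iff] at h1
  intro x hx
  exact h1 x hx

/-- Adjoining the `m`-th roots of unity, where `φ(m) < p`: an extension of degree prime to `p`. -/
theorem exists_mu [IsSepClosed Ω] (p m : ℕ) (hm : 0 < m) (hφ : m.totient < p)
    (hmk : (m : k) ≠ 0) (F : IntermediateField k Ω) (hF : FiniteDimensional k F) :
    ∃ E : IntermediateField k Ω, F ≤ E ∧ FiniteDimensional k E ∧ ¬ p ∣ F.relfinrank E ∧
      ∃ ζ ∈ E, IsPrimitiveRoot ζ m := by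
  have hne : NeZero (m : Ω) := ⟨by
    rw [← map_natCast (algebraMap k Ω)]
    exact fun h => hmk ((map_eq_zero _).1 h)⟩
  obtain ⟨ζ, hζ⟩ := HasEnoughRootsOfUnity.exists_primitiveRoot Ω m
  have hint : IsIntegral ↥F ζ := (hζ.isIntegral hm).tower_top
  let L : IntermediateField ↥F Ω := F⟮ζ⟯
  have hLfin : FiniteDimensional ↥F L := adjoin.finiteDimensional hint
  let E : IntermediateField k Ω := L.restrictScalars k
  have hFE : F ≤ E := by
    intro x hx
    exact L.algebraMap_mem ⟨x, hx⟩
  have hEfin : FiniteDimensional k E := by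
    have : FiniteDimensional k L := FiniteDimensional.trans k ↥F ↥L
    exact this
  refine ⟨E, hFE, hEfin, ?_, ζ, mem_adjoin_simple_self ↥F ζ, hζ⟩
  have h1 : F.relfinrank E = Module.finrank ↥F ↥L := by
    rw [relfinrank_eq_finrank_of_le hFE]
    rfl
  rw [h1, adjoin.finrank hint]
  have hpos : 0 < (minpoly ↥F ζ).natDegree := minpoly.natDegree_pos hint
  have hle : (minpoly ↥F ζ).natDegree ≤ m.totient := by
    have hc : Polynomial.aeval ζ (Polynomial.cyclotomic m ↥F) = 0 := by
      rw [Polynomial.aeval_def, Polynomial.eval₂_eq_eval_map, Polynomial.map_cyclotomic]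
      exact (Polynomial.isRoot_cyclotomic_iff).2 hζ
    have := Polynomial.natDegree_le_of_dvd (minpoly.dvd ↥F ζ hc)
      (Polynomial.cyclotomic_ne_zero m ↥F)
    rwa [Polynomial.natDegree_cyclotomic] at this
  intro hd
  have := Nat.le_of_dvd hpos hd
  omega

end Pool.Agent.TH439.CP
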