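import Pool.Agent.TH439.CP2

/-!
Brauer-Manin data of a smooth projective geometrically integral variety `X` over a global field
`k`, over all finite extensions `F` of `k` inside the separable closure `Ω`, and the reduction of
the local-global question for zero-cycles of degree one to varieties which are everywhere locally
soluble and have a point over a cyclic extension of prime degree.
-/

namespace Pool.Agent.TH439.CP

open IntermediateField

universe u v

/-- The places of the extensions `F` of `k` inside `Ω`. -/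
structure Places (k Ω : Type u) [Field k] [Field Ω] [Algebra k Ω] where
  /-- The set of places of `F`. -/
  Pl : IntermediateField k Ω → Type v
  /-- The place of `F` below a place of `E`. -/
  below : ∀ {F E : IntermediateField k Ω}, F ≤ E → Pl E → Pl F

/-- The points and zero-cycles of `X` over the completions `F_w`. -/
structure LocalCycles {k Ω : Type u} [Field k] [Field Ω] [Algebra k Ω]
    (P : Places.{u, v} k Ω) where
  /-- `Z F w` is the set of zero-cycles `Z_0(X_{F_w})`. -/
  Z : ∀ F, P.Pl F → Type v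
  /-- The degree of a zero-cycle over `F_w`. -/
  deg : ∀ F w, Z F w → ℤ
  /-- `Pt F w` is the set `X(F_w)`. -/
  Pt : ∀ F, P.Pl F → Type v
  /-- The zero-cycle of a local point, of degree 1. -/
  cyc : ∀ F w, Pt F w → Z F w
  deg_cyc : ∀ F w x, deg F w (cyc F w x) = 1
  /-- Base change of zero-cycles from `F_w` to `E_{w'}`, `w'` a place of `E` above `w`. -/
  res : ∀ {F E} (h : F ≤ E) (w' : P.Pl E), Z F (P.below h w') → Z E w'
  deg_res : ∀ {F E} (h : F ≤ E) w' z, deg E w' (res h w' z) = deg F (P.below h w') z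

/-- The Brauer groups `Br(X_F)` and the local pairings. -/
structure BrauerPairing {k Ω : Type u} [Field k] [Field Ω] [Algebra k Ω]
    {P : Places.{u, v} k Ω} (C : LocalCycles P) where
  /-- The Brauer group `Br(X_F)`. -/
  Br : IntermediateField k Ω → Type v
  /-- The local pairing `j_w(z, α) = inv_w ⟨z, α⟩`, with values in `ℚ/ℤ`. -/
  j : ∀ F w, C.Z F w → Br F → AddCircle (1 : ℚ)
  /-- For a family of local zero-cycles of degree 1 and `α ∈ Br(X_F)` almost all `j_w` vanish. -/
  j_finite : ∀ F : IntermediateField k Ω, FiniteDimensional k F → ∀ z : ∀ w, C.Z F w,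
    (∀ w, C.deg F w (z w) = 1) → ∀ α, {w | j F w (z w) α ≠ 0}.Finite
  /-- Corestriction `Br(X_E) → Br(X_F)`. -/
  cor : ∀ {F E : IntermediateField k Ω}, F ≤ E → Br E → Br F
  /-- Projection formula: `∑_{w' | w} j_{w'}(res z_w, β) = j_w(z_w, cor β)`. -/
  proj : ∀ {F E : IntermediateField k Ω} (h : F ≤ E), FiniteDimensional k E →
    ∀ (z : ∀ w, C.Z F w) (β : Br E) (w : P.Pl F),
      ∑ᶠ w' : {w' : P.Pl E // P.below h w' = w}, j E w'.1 (C.res h w'.1 (z (P.below h w'.1))) β
        = j F w (z w) (cor h β)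

/-- The arithmetic of a smooth, projective, geometrically integral variety `X` over a global field
`k`; `Ω` is a separable closure of `k` and `F`, `E` run over the extensions of `k` inside `Ω`. -/
structure BrauerManinData (k Ω : Type u) [Field k] [Field Ω] [Algebra k Ω] where
  /-- `pt F` means `X(F) ≠ ∅`. -/
  pt : IntermediateField k Ω → Prop
  pt_mono : ∀ {F E : IntermediateField k Ω}, F ≤ E → pt F → pt E
  /-- `X` has a closed point (with separable residue field). -/
  exists_pt : ∃ E : IntermediateField k Ω, FiniteDimensional k E ∧ pt E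
  /-- places -/
  P : Places.{u, v} k Ω
  /-- local points and zero-cycles -/
  C : LocalCycles P
  /-- Brauer groups and local pairings -/
  B : BrauerPairing C
  /-- Points over `F_w` are points over `E_{w'}`. -/
  Pt_mono : ∀ {F E : IntermediateField k Ω} (h : F ≤ E) (w' : P.Pl E),
    Nonempty (C.Pt F (P.below h w')) → Nonempty (C.Pt E w')
  /-- Lang-Weil and Hensel: `X(F_w) ≠ ∅` for almost all places `w`. -/
  Pt_finite : ∀ F : IntermediateField k Ω, FiniteDimensional k F →
    {w | ¬ Nonempty (C.Pt F w)}.Finite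
  /-- Krasner and weak approximation: if `X` has a zero-cycle of degree 1 over `F_w` for `w` in a
  finite set `S` (so, for a prime `p`, a closed point of degree prime to `p` over `F_w`), then
  there is an extension `E/F` of degree prime to `p` such that `X(E_{w'}) ≠ ∅` for all places
  `w'` of `E` above `S`. -/
  Pt_ext : ∀ F : IntermediateField k Ω, FiniteDimensional k F → ∀ p : ℕ, p.Prime →
    ∀ S : Set (P.Pl F), S.Finite → (∀ w ∈ S, ∃ z, C.deg F w z = 1) →
      ∃ (E : IntermediateField k Ω) (h : F ≤ E), FiniteDimensional k E ∧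
        ¬ p ∣ F.relfinrank E ∧ ∀ w' : P.Pl E, P.below h w' ∈ S → Nonempty (C.Pt E w')

variable {k Ω : Type u} [Field k] [Field Ω] [Algebra k Ω]

namespace BrauerManinData

variable (X : BrauerManinData.{u, v} k Ω)

/-- There is a family of local zero-cycles of degree 1 on `X_F` orthogonal to `Br(X_F)`. -/
def BMCycle (F : IntermediateField k Ω) : Prop :=
  ∃ z : ∀ w, X.C.Z F w, (∀ w, X.C.deg F w (z w) = 1) ∧
    ∀ α : X.B.Br F, ∑ᶠ w, X.B.j F w (z w) α = 0

/-- There is a family of local points on `X_F` orthogonal to `Br(X_F)`: the Brauer-Manin set of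
`X_F` is not empty. -/
def BMPoint (F : IntermediateField k Ω) : Prop :=
  ∃ x : ∀ w, X.C.Pt F w, ∀ α : X.B.Br F, ∑ᶠ w, X.B.j F w (X.C.cyc F w (x w)) α = 0

/-- Liang's trick (a theorem for rationally connected `X` over number fields): if `X_F` has an
orthogonal family of local zero-cycles of degree 1, then for every prime `p` there is an extension
`E/F` of degree prime to `p` such that the Brauer-Manin set of `X_E` is not empty. -/
def LiangProperty : Prop :=
  ∀ F : IntermediateField k Ω, FiniteDimensional k F → X.BMCycle F → ∀ p : ℕ, p.Prime →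
    ∃ E : IntermediateField k Ω, F ≤ E ∧ FiniteDimensional k E ∧ ¬ p ∣ F.relfinrank E ∧
      X.BMPoint E

/-- `p` divides the index of `X_F`: it divides the degree over `F` of every finite extension `E`
of `F` with `X(E) ≠ ∅`. -/
def DvdIndex (p : ℕ) (F : IntermediateField k Ω) : Prop :=
  ∀ E : IntermediateField k Ω, F ≤ E → FiniteDimensional k E → X.pt E → p ∣ F.relfinrank E

/-- `X_F` has index 1, i.e. a zero-cycle of degree 1: the degrees `[E : F]` of the finite
extensions `E` of `F` with `X(E) ≠ ∅` have no common divisor other than 1. -/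
def IndexOne (F : IntermediateField k Ω) : Prop :=
  ∀ d : ℕ, X.DvdIndex d F → d = 1

/-- `p` is a prime number, `F` contains a primitive `p`-th root of unity (if `p` is not the
characteristic) and, if `p` is odd, a primitive 4-th root of unity (so `F` has no real place), `X`
has points over all completions of `F` and over a cyclic extension `K/F` of degree `p`. -/
structure Special (p : ℕ) (F : IntermediateField k Ω) : Prop where
  prime : p.Prime
  mu : (p : k) ≠ 0 → ∃ ζ ∈ F, IsPrimitiveRoot ζ p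
  mu_four : p ≠ 2 → ((4 : ℕ) : k) ≠ 0 → ∃ ζ ∈ F, IsPrimitiveRoot ζ 4
  local_pt : ∀ w : X.P.Pl F, Nonempty (X.C.Pt F w)
  cyclic_pt : ∃ (K : IntermediateField k Ω) (h : F ≤ K), FiniteDimensional k K ∧
    IsGalois ↥F ↥(extendScalars h) ∧ F.relfinrank K = p ∧ X.pt K

/-- Restriction-corestriction: orthogonal families extend to finite extensions. -/
theorem bmCycle_mono {F E : IntermediateField k Ω} (h : F ≤ E) (hE : FiniteDimensional k E)
    (hF : X.BMCycle F) : X.BMCycle E := by
  classical
  obtain ⟨z, hz, ho⟩ := hF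
  have hdeg : ∀ w', X.C.deg E w' (X.C.res h w' (z (X.P.below h w'))) = 1 := by
    intro w'; rw [X.C.deg_res, hz]
  refine ⟨fun w' => X.C.res h w' (z (X.P.below h w')), hdeg, ?_⟩
  intro β
  set f : X.P.Pl E → AddCircle (1 : ℚ) :=
    fun w' => X.B.j E w' (X.C.res h w' (z (X.P.below h w'))) β with hf
  have hfs : {w' | f w' ≠ 0}.Finite := X.B.j_finite E hE _ hdeg β
  have hfs' : (Function.support f).Finite := hfs
  set g : X.P.Pl F → AddCircle (1 : ℚ) := fun w => X.B.j F w (z w) (X.B.cor h β) with hg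
  have hfg : ∀ w, ∑ᶠ w' : {w' : X.P.Pl E // X.P.below h w' = w}, f w'.1 = g w := by
    intro w; exact X.B.proj h hE z β w
  have hfib : ∀ w, ∑ᶠ w' : {w' : X.P.Pl E // X.P.below h w' = w}, f w'.1
      = ∑ w' ∈ hfs'.toFinset with X.P.below h w' = w, f w' := by
    intro w
    have h1 : ∑ᶠ w' : {w' : X.P.Pl E // X.P.below h w' = w}, f w'.1
        = ∑ᶠ w' ∈ {w' : X.P.Pl E | X.P.below h w' = w}, f w' :=
      finsum_subtype_eq_finsum_cond (fun w' => X.P.below h w' = w)
    rw [h1]
    apply finsum_mem_eq_sum_of_inter_support_eq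
    ext w'
    simp only [Set.mem_inter_iff, Set.mem_ofPred_eq, Function.mem_support, Finset.coe_filter,
      Set.Finite.mem_toFinset]
    tauto
  have hgs : Function.support g ⊆ ↑(hfs'.toFinset.image (X.P.below h)) := by
    intro w hw
    rw [Function.mem_support, ← hfg w, hfib w] at hw
    obtain ⟨w', hw', -⟩ := Finset.exists_ne_zero_of_sum_ne_zero hw
    rw [Finset.mem_filter] at hw'
    rw [Finset.mem_coe, Finset.mem_image]
    exact ⟨w', hw'.1, hw'.2⟩
  have h0 := ho (X.B.cor h β)
  change ∑ᶠ w, g w = 0 at h0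
  rw [finsum_eq_sum_of_support_subset g hgs] at h0
  change ∑ᶠ w', f w' = 0
  rw [finsum_eq_sum f hfs', ← Finset.sum_fiberwise_of_maps_to
    (fun w' hw' => Finset.mem_image_of_mem (X.P.below h) hw'), ← h0]
  apply Finset.sum_congr rfl
  intro w _
  rw [← hfg w, hfib w]

theorem DvdIndex.of_le [IsGalois k Ω] {X : BrauerManinData.{u, v} k Ω} {p : ℕ} (hp : p.Prime)
    {F E : IntermediateField k Ω} (h : F ≤ E) (hn : ¬ p ∣ F.relfinrank E)
    (hF : X.DvdIndex p F) : X.DvdIndex p E := by
  intro E' hE hfin hpt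
  have h1 := hF E' (h.trans hE) hfin hpt
  rw [← relfinrank_mul_relfinrank h hE] at h1
  exact (hp.dvd_mul.1 h1).resolve_left hn

/-- The main reduction: over a suitable finite extension `F'` of `F` the variety is special. -/
theorem exists_special [IsGalois k Ω] [IsSepClosed Ω] (F : IntermediateField k Ω)
    (hF : FiniteDimensional k F) (hBM : X.BMCycle F) (p : ℕ) (hp : p.Prime)
    (hd : X.DvdIndex p F) :
    ∃ F' : IntermediateField k Ω, F ≤ F' ∧ FiniteDimensional k F' ∧ X.BMCycle F' ∧
      X.Special p F' ∧ X.DvdIndex p F' := by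
  have hp' : Fact p.Prime := ⟨hp⟩
  -- local solubility
  obtain ⟨z, hz, -⟩ := id hBM
  obtain ⟨E₁, h₁, hfin₁, hn₁, hl₁⟩ := X.Pt_ext F hF p hp _ (X.Pt_finite F hF)
    (fun w _ => ⟨z w, hz w⟩)
  have hlE₁ : ∀ w', Nonempty (X.C.Pt E₁ w') := by
    intro w'
    by_cases hw : Nonempty (X.C.Pt F (X.P.below h₁ w'))
    · exact X.Pt_mono h₁ w' hw
    · exact hl₁ w' hw
  have hd₁ : X.DvdIndex p E₁ := DvdIndex.of_le hp h₁ hn₁ hd
  -- roots of unity
  have key : ∀ (E₁ : IntermediateField k Ω) (m : ℕ), FiniteDimensional k E₁ → 0 < m →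
      X.DvdIndex p E₁ → ∃ E₂ : IntermediateField k Ω, E₁ ≤ E₂ ∧
      FiniteDimensional k E₂ ∧ X.DvdIndex p E₂ ∧
        (m.totient < p → (m : k) ≠ 0 → ∃ ζ ∈ E₂, IsPrimitiveRoot ζ m) := by
    intro E₁ m hfin₁ hm hd₁
    by_cases hmk : m.totient < p ∧ (m : k) ≠ 0
    · obtain ⟨E₂, h₂, hfin₂, hn₂, hmu⟩ := exists_mu p m hm hmk.1 hmk.2 E₁ hfin₁
      exact ⟨E₂, h₂, hfin₂, DvdIndex.of_le hp h₂ hn₂ hd₁, fun _ _ => hmu⟩
    · exact ⟨E₁, le_rfl, hfin₁, hd₁, fun h h' => absurd ⟨h, h'⟩ hmk⟩
  have htp : p.totient < p := Nat.totient_lt p hp.one_lt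
  obtain ⟨E₁', h₁', hfin₁', hd₁', hmu₁⟩ := key E₁ p hfin₁ hp.pos hd₁
  obtain ⟨E₂, h₂', hfin₂, hd₂, hmu₂⟩ := key E₁' 4 hfin₁' (by norm_num) hd₁'
  have h₂ : E₁ ≤ E₂ := h₁'.trans h₂'
  -- the tower
  obtain ⟨E₀, hE₀, hpt₀⟩ := X.exists_pt
  have hbad := (badField_iff X.pt p hfin₂).1 hd₂
  have anti : ∀ U V : Subgroup Gal(Ω/k), U ≤ V → X.pt (fixedField V) → X.pt (fixedField U) :=
    fun U V hUV h => X.pt_mono (fixedField_antitone hUV) h
  obtain ⟨H', hH', K', hK', hH'le, hK'le, hB', hn', hi', hP'⟩ :=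
    main_group openSub_up openSub_nrm openSub_inf anti p (fixing_mem hfin₂) hbad
      (fixing_mem hE₀) (by simpa only [fixed_fixing] using hpt₀)
  set F' := fixedField H' with hF'def
  set K := fixedField K' with hKdef
  have hFF : F'.fixingSubgroup = H' := fixing_fixed hH'
  have hKK : K.fixingSubgroup = K' := fixing_fixed hK'
  have hfin' : FiniteDimensional k F' := fixed_finite hH'
  have hfinK : FiniteDimensional k K := fixed_finite hK'
  have h₃ : E₂ ≤ F' := (le_iff_le H' E₂).2 hH'le
  have hFK : F' ≤ K := fixedField_antitone hK'le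
  have hle : F ≤ F' := h₁.trans (h₂.trans h₃)
  refine ⟨F', hle, hfin', X.bmCycle_mono hle hfin' hBM,
    ⟨hp, ?_, ?_, ?_, K, hFK, hfinK, ?_, ?_, hP'⟩,
    (badField_iff X.pt p hfin').2 (by rw [hFF]; exact hB')⟩
  · intro hpk
    obtain ⟨ζ, hζ, hζ'⟩ := hmu₁ htp hpk
    exact ⟨ζ, h₃ (h₂' hζ), hζ'⟩
  · intro hp2 h4
    have h4t : (4 : ℕ).totient < p := by
      have h1 : (4 : ℕ).totient = 2 := by decide
      have h2 := hp.two_le
      omega
    obtain ⟨ζ, hζ, hζ'⟩ := hmu₂ h4t h4
    exact ⟨ζ, h₃ hζ, hζ'⟩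
  · intro w
    exact X.Pt_mono (h₂.trans h₃) w (hlE₁ _)
  · apply isGalois_of_normal
    rw [hFF, hKK]; exact hn'
  · rw [relfinrank_eq hfin' hFK, hFF, hKK]; exact hi'

/-- The special situation persists over extensions of degree prime to `p`. -/
theorem Special.of_coprime [IsGalois k Ω] {X : BrauerManinData.{u, v} k Ω} {p : ℕ}
    {F E : IntermediateField k Ω} (hF : FiniteDimensional k F) (hE : FiniteDimensional k E)
    (hS : X.Special p F) (h : F ≤ E) (hd : X.DvdIndex p E) : X.Special p E := by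
  obtain ⟨K, hFK, hK, hGal, hdeg, hpt⟩ := hS.cyclic_pt
  refine ⟨hS.prime, ?_, ?_, ?_, K ⊔ E, le_sup_right, inferInstance, ?_, ?_,
    X.pt_mono le_sup_left hpt⟩
  · intro hpk
    obtain ⟨ζ, hζ, hζ'⟩ := hS.mu hpk
    exact ⟨ζ, h hζ, hζ'⟩
  · intro hp2 h4
    obtain ⟨ζ, hζ, hζ'⟩ := hS.mu_four hp2 h4
    exact ⟨ζ, h hζ, hζ'⟩
  · intro w
    exact X.Pt_mono h w (hS.local_pt _)
  · apply isGalois_of_normal
    have hn := normal_of_isGalois hFK hGal
    have hsup : (K ⊔ E).fixingSubgroup = K.fixingSubgroup ⊓ E.fixingSubgroup :=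
      fixingSubgroup_sup
    constructor
    intro n hn' g
    rw [Subgroup.mem_subgroupOf, hsup] at hn' ⊢
    refine ⟨?_, (g * n * g⁻¹).2⟩
    have h1 := hn.conj_mem ⟨(n : Gal(Ω/k)), fixingSubgroup_le h n.2⟩
      (by rw [Subgroup.mem_subgroupOf]; exact hn'.1) ⟨(g : Gal(Ω/k)), fixingSubgroup_le h g.2⟩
    rw [Subgroup.mem_subgroupOf] at h1
    simpa using h1
  · have h1 : p ∣ E.relfinrank (K ⊔ E) :=
      hd _ le_sup_right inferInstance (X.pt_mono le_sup_left hpt)
    have hsup : (K ⊔ E).fixingSubgroup = K.fixingSubgroup ⊓ E.fixingSubgroup :=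
      fixingSubgroup_sup
    have h2 : E.relfinrank (K ⊔ E) = K.fixingSubgroup.relIndex E.fixingSubgroup := by
      rw [relfinrank_eq hE le_sup_right, hsup, Subgroup.inf_relIndex_right]
    have h3 : K.fixingSubgroup.relIndex F.fixingSubgroup = p := by
      rw [← relfinrank_eq hF hFK, hdeg]
    have h4 : K.fixingSubgroup.relIndex E.fixingSubgroup ≤ p := by
      rw [← h3]
      exact Subgroup.relIndex_le_of_le_right (fixingSubgroup_le h)
        (by rw [h3]; exact hS.prime.ne_zero)
    have h5 : K.fixingSubgroup.relIndex E.fixingSubgroup ≠ 0 := by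
      intro h0
      have := Subgroup.relIndex_eq_zero_of_le_right (fixingSubgroup_le h) h0
      rw [h3] at this
      exact hS.prime.ne_zero this
    rw [h2] at h1 ⊢
    exact le_antisymm h4 (Nat.le_of_dvd (Nat.pos_of_ne_zero h5) h1)

theorem exists_prime_of_not_indexOne {X : BrauerManinData.{u, v} k Ω}
    {F : IntermediateField k Ω} (h : ¬ X.IndexOne F) : ∃ p : ℕ, p.Prime ∧ X.DvdIndex p F := by
  simp only [IndexOne, not_forall] at h
  obtain ⟨d, hd, hd1⟩ := h
  obtain ⟨p, hp, hpd⟩ := Nat.exists_prime_and_dvd hd1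
  exact ⟨p, hp, fun E h1 h2 h3 => hpd.trans (hd E h1 h2 h3)⟩

/-- Q1 for `X` over all finite extensions `F` of `k`: if `X_F` has an orthogonal family of local
zero-cycles of degree 1, it has a zero-cycle of degree 1. -/
def Q1 : Prop :=
  ∀ F : IntermediateField k Ω, FiniteDimensional k F → X.BMCycle F → X.IndexOne F

/-- If `(F, p)` is special and `X_F` has an orthogonal family of local zero-cycles of degree 1,
then `p` does not divide the index of `X_F`. -/
def SpecialCycles : Prop :=
  ∀ (F : IntermediateField k Ω) (p : ℕ), FiniteDimensional k F → X.Special p F →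
    X.BMCycle F → ¬ X.DvdIndex p F

/-- If `(F, p)` is special and the Brauer-Manin set of `X_F` is not empty, then `p` does not divide
the index of `X_F`. -/
def SpecialPoints : Prop :=
  ∀ (F : IntermediateField k Ω) (p : ℕ), FiniteDimensional k F → X.Special p F →
    X.BMPoint F → ¬ X.DvdIndex p F

theorem result_cycles [IsGalois k Ω] [IsSepClosed Ω] : X.Q1 ↔ X.SpecialCycles := by
  constructor
  · intro h F p hF hS hB hd
    exact hS.prime.one_lt.ne' (h F hF hB p hd)
  · intro h F hF hB
    by_contra hn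
    obtain ⟨p, hp, hd⟩ := exists_prime_of_not_indexOne hn
    obtain ⟨F', -, hF', hB', hS', hd'⟩ := X.exists_special F hF hB p hp hd
    exact h F' p hF' hS' hB' hd'

theorem result_points [IsGalois k Ω] [IsSepClosed Ω] (hL : X.LiangProperty)
    (h : X.SpecialPoints) : X.Q1 := by
  intro F hF hB
  by_contra hn
  obtain ⟨p, hp, hd⟩ := exists_prime_of_not_indexOne hn
  obtain ⟨F', -, hF', hB', hS', hd'⟩ := X.exists_special F hF hB p hp hd
  obtain ⟨E, hE, hfin, hn', hpt⟩ := hL F' hF' hB' p hp
  have hdE : X.DvdIndex p E := DvdIndex.of_le hp hE hn' hd'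
  exact h E p hfin (hS'.of_coprime hF' hfin hE hdE) hpt hdE

end BrauerManinData

end Pool.Agent.TH439.CP
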