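import Pool.Agent.TH439.HCDefs
import Mathlib.Data.Rat.Defs
import Mathlib.Tactic.Module

/-!
# Chow groups of complex hypersurfaces: reduction to the case next to the middle
-/

universe u

namespace Pool.Agent.TH439.HC

variable {d n : ℕ} {T : Cycles.{u} d}

lemma Hyp.Smooth.atMostOneNode {X : Hyp d n} (h : X.Smooth) : X.AtMostOneNode :=
  ⟨fun x _ hx _ => absurd hx (h x), fun x hx => absurd hx (h x)⟩

/-- A cycle whose restrictions to the smooth hyperplane sections are multiples of the power of `h`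
is a multiple of the power of `h`, if this holds for all cycles of one codimension less on the
hyperplane sections with at most one node. -/
lemma detect (hT : T.IsChow) {X : Hyp d (n + 1)} {i : ℕ} (hn : 1 ≤ n) (hX : X.AtMostOneNode)
    (h2 : ∀ Y : Hyp d n, Y.AtMostOneNode → T.Trivial Y i) {a : T.A X (i + 1)}
    (ha : ∀ (Y : Hyp d n) (s : Sec X Y), Y.Smooth →
      ∃ c : ℚ, T.res s (i + 1) a = c • T.h Y (i + 1)) : ∃ c : ℚ, a = c • T.h X (i + 1) := by
  obtain ⟨c, hc⟩ := hT.pencil X i a hn hX ha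
  have hle : Submodule.span ℚ {z | ∃ (Y : Hyp d n) (s : Sec X Y) (b : T.A Y i),
      Y.AtMostOneNode ∧ z = T.push s i b} ≤ Submodule.span ℚ {T.h X (i + 1)} := by
    rw [Submodule.span_le]
    rintro z ⟨Y, s, b, hY, rfl⟩
    obtain ⟨c', rfl⟩ := h2 Y hY b
    rw [map_smul, hT.push_h]
    exact Submodule.smul_mem _ _ (Submodule.mem_span_singleton_self _)
  obtain ⟨c', hc'⟩ := Submodule.mem_span_singleton.1 (hle hc)
  refine ⟨c' + c, ?_⟩
  rw [add_smul, hc', sub_add_cancel]

variable (T) in
/-- The statement for the codimension `i`: for smooth hypersurfaces of dimension greater than `2 i`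
and for hypersurfaces with at most one node of dimension greater than `2 i + 1`. -/
def Good (i : ℕ) : Prop :=
  ∀ (n : ℕ) (X : Hyp d n), (X.Smooth ∧ 2 * i < n) ∨ (X.AtMostOneNode ∧ 2 * i + 1 < n) →
    T.Trivial X i

lemma good_zero (hT : T.IsChow) : Good T 0 := by
  intro n X h
  refine hT.irreducible X ?_
  rcases h with ⟨h, hn⟩ | ⟨h, hn⟩
  · exact Or.inl ⟨h, by omega⟩
  · exact Or.inr ⟨h, by omega⟩

lemma good_succ (hT : T.IsChow) {i : ℕ} (h0 : Good T i)
    (h1 : ∀ X : Hyp d (2 * (i + 1) + 1), X.Smooth → T.Trivial X (i + 1)) : Good T (i + 1) := by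
  intro n
  induction n using Nat.strong_induction_on with
  | _ n ih =>
    intro X hX
    by_cases hn : n = 2 * (i + 1) + 1
    · subst hn
      rcases hX with ⟨h, -⟩ | ⟨-, h⟩
      · exact h1 X h
      · omega
    · have hn' : 2 * (i + 1) + 1 < n := by
        rcases hX with ⟨-, h⟩ | ⟨-, h⟩ <;> omega
      have hX' : X.AtMostOneNode := by
        rcases hX with ⟨h, -⟩ | ⟨h, -⟩
        · exact h.atMostOneNode
        · exact h
      obtain ⟨m, rfl⟩ : ∃ m, n = m + 1 := ⟨n - 1, by omega⟩
      intro a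
      refine detect hT (by omega) hX' (fun Y hY => h0 m Y (Or.inr ⟨hY, by omega⟩)) ?_
      intro Y s hY
      exact ih m (by omega) Y (Or.inl ⟨hY, by omega⟩) _

lemma base_of_hom (hT : T.IsChow) {i : ℕ} (h0 : Good T i)
    (h1 : ∀ X : Hyp d (2 * (i + 1)), X.Smooth → T.Hom X (i + 1) = ⊥) :
    ∀ X : Hyp d (2 * (i + 1) + 1), X.Smooth → T.Trivial X (i + 1) := by
  intro X hX a
  obtain ⟨c, hc⟩ := hT.lefschetz X (i + 1) hX (by omega) a
  obtain ⟨c', hc'⟩ := detect hT (i := i) (by omega) hX.atMostOneNode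
    (fun Y hY => h0 _ Y (Or.inr ⟨hY, by omega⟩)) (a := a - c • T.h X (i + 1)) (by
      intro Y s hY
      have h2 := hT.res_hom s (i + 1) _ hX hY hc
      rw [h1 Y hY, Submodule.mem_bot] at h2
      exact ⟨0, by rw [h2, zero_smul]⟩)
  refine ⟨c' + c, ?_⟩
  rw [add_smul, ← hc', sub_add_cancel]

/-- The reduction to the odd dimensions `2 i + 1`. -/
theorem good_of_base (hT : T.IsChow) (I : ℕ)
    (h : ∀ i ≤ I, 2 ≤ i → ∀ X : Hyp d (2 * i + 1), X.Smooth → T.Trivial X i) :
    ∀ i ≤ I, Good T i := by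
  intro i
  induction i with
  | zero => exact fun _ => good_zero hT
  | succ i ih =>
    intro hi
    refine good_succ hT (ih (by omega)) ?_
    rcases Nat.eq_zero_or_pos i with rfl | hi0
    · exact fun X hX => hT.picard X hX
    · exact h (i + 1) hi (by omega)

/-- The reduction to the middle codimension on the hypersurfaces of even dimension. -/
theorem good_of_hom (hT : T.IsChow) (I : ℕ)
    (h : ∀ i ≤ I, 2 ≤ i → ∀ X : Hyp d (2 * i), X.Smooth → T.Hom X i = ⊥) :
    ∀ i ≤ I, Good T i := by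
  intro i
  induction i with
  | zero => exact fun _ => good_zero hT
  | succ i ih =>
    intro hi
    refine good_succ hT (ih (by omega)) ?_
    rcases Nat.eq_zero_or_pos i with rfl | hi0
    · exact fun X hX => hT.picard X hX
    · exact base_of_hom hT (ih (by omega)) (h (i + 1) hi (by omega))

end Pool.Agent.TH439.HC
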