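import Mathlib.Algebra.MvPolynomial.PDeriv
import Mathlib.Algebra.MvPolynomial.Monad
import Mathlib.RingTheory.MvPolynomial.Homogeneous
import Mathlib.LinearAlgebra.Matrix.Rank
import Mathlib.Analysis.Complex.Basic
import Mathlib.LinearAlgebra.Span.Basic

/-!
# Chow groups of complex hypersurfaces: definitions
-/

universe u

namespace Pool.Agent.TH439.HC

open MvPolynomial

/-- A hypersurface of degree `d` and dimension `n` in the complex projective space of dimension
`n + 1`, given by its equation. -/
structure Hyp (d n : ℕ) where
  /-- the equation -/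
  F : MvPolynomial (Fin (n + 2)) ℂ
  homogeneous : F.IsHomogeneous d
  ne_zero : F ≠ 0

variable {d n : ℕ}

/-- The vector `x ≠ 0` represents a singular point of the hypersurface. -/
def Hyp.IsSing (X : Hyp d n) (x : Fin (n + 2) → ℂ) : Prop :=
  x ≠ 0 ∧ eval x X.F = 0 ∧ ∀ j, eval x (pderiv j X.F) = 0

/-- The hypersurface is smooth. -/
def Hyp.Smooth (X : Hyp d n) : Prop := ∀ x, ¬ X.IsSing x

/-- The matrix of the second derivatives of the equation at `x`. -/
noncomputable def Hyp.hessian (X : Hyp d n) (x : Fin (n + 2) → ℂ) :
    Matrix (Fin (n + 2)) (Fin (n + 2)) ℂ :=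
  Matrix.of fun i j => eval x (pderiv i (pderiv j X.F))

/-- The hypersurface has at most one singular point, and it is an ordinary double point (for a
hypersurface of dimension `n` in the projective space of dimension `n + 1`: the matrix of the second
derivatives has rank `n + 1`). -/
def Hyp.AtMostOneNode (X : Hyp d n) : Prop :=
  (∀ x y, X.IsSing x → X.IsSing y → ∃ c : ℂ, y = c • x) ∧
    ∀ x, X.IsSing x → (X.hessian x).rank = n + 1

/-- A presentation of `Y` as a hyperplane section of `X`: an injective linear map whose composition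
with the equation of `X` is the equation of `Y`. -/
structure Sec (X : Hyp d (n + 1)) (Y : Hyp d n) where
  /-- the linear map -/
  M : Matrix (Fin (n + 3)) (Fin (n + 2)) ℂ
  injective : Function.Injective M.mulVec
  eq : Y.F = bind₁ (fun i => ∑ j, C (M i j) * MvPolynomial.X j) X.F

/-- The data of a theory of cycles with rational coefficients on the hypersurfaces of degree `d`:
the group `A X i` of cycles of codimension `i`, the class `h X i` of a linear section of codimension
`i`, the push-forward and the restriction (Gysin map) for hyperplane sections, and the subgroup of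
homologically trivial cycles. -/
structure Cycles (d : ℕ) where
  /-- cycles of codimension `i`, modulo rational equivalence, with rational coefficients -/
  A : ∀ {n : ℕ}, Hyp d n → ℕ → Type u
  [grp : ∀ {n : ℕ} (X : Hyp d n) (i : ℕ), AddCommGroup (A X i)]
  [mod : ∀ {n : ℕ} (X : Hyp d n) (i : ℕ), Module ℚ (A X i)]
  /-- the class of a linear section of codimension `i` -/
  h : ∀ {n : ℕ} (X : Hyp d n) (i : ℕ), A X i
  /-- push-forward -/
  push : ∀ {n : ℕ} {X : Hyp d (n + 1)} {Y : Hyp d n}, Sec X Y → ∀ i, A Y i →ₗ[ℚ] A X (i + 1)
  /-- restriction -/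
  res : ∀ {n : ℕ} {X : Hyp d (n + 1)} {Y : Hyp d n}, Sec X Y → ∀ i, A X i →ₗ[ℚ] A Y i
  /-- homologically trivial cycles -/
  Hom : ∀ {n : ℕ} (X : Hyp d n) (i : ℕ), Submodule ℚ (A X i)

attribute [instance] Cycles.grp Cycles.mod

variable (T : Cycles.{u} d)

/-- Every cycle class of codimension `i` on `X` is a rational multiple of `h ^ i`. -/
def Cycles.Trivial (X : Hyp d n) (i : ℕ) : Prop := ∀ a : T.A X i, ∃ c : ℚ, a = c • T.h X i

/-- The properties of the Chow groups with rational coefficients which are used. Those which are not
formal are: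

* `irreducible`: the hypersurface is irreducible, so that `A^0` is spanned by the fundamental class;
* `picard`: the theorem of Grothendieck and Lefschetz on the Picard group of smooth threefolds in
  the projective space of dimension four;
* `lefschetz`: the cohomology of degree `2 i < n` of a smooth hypersurface of dimension `n` is
  spanned by the class of `h ^ i`;
* `pencil`: let `X` have at most one node and let `a` be a cycle of positive codimension on `X` such
  that the restriction of `a` to each smooth hyperplane section `Y` is a multiple of the power of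
  `h`. Then `a` is the sum of a multiple of the power of `h` and of cycles on hyperplane sections
  with at most one node. (Take a Lefschetz pencil; after the subtraction of a multiple of the power
  of `h`, the restriction of `a` to the generic member of the pencil vanishes, because it vanishes
  for a very general member; now use the localization sequence for the blow-up of `X` along the base
  locus.) -/
structure Cycles.IsChow (T : Cycles.{u} d) : Prop where
  push_h : ∀ {n : ℕ} {X : Hyp d (n + 1)} {Y : Hyp d n} (s : Sec X Y) (i : ℕ),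
    T.push s i (T.h Y i) = T.h X (i + 1)
  res_h : ∀ {n : ℕ} {X : Hyp d (n + 1)} {Y : Hyp d n} (s : Sec X Y) (i : ℕ),
    T.res s i (T.h X i) = T.h Y i
  res_hom : ∀ {n : ℕ} {X : Hyp d (n + 1)} {Y : Hyp d n} (s : Sec X Y) (i : ℕ) (a : T.A X i),
    X.Smooth → Y.Smooth → a ∈ T.Hom X i → T.res s i a ∈ T.Hom Y i
  irreducible : ∀ {n : ℕ} (X : Hyp d n), (X.Smooth ∧ 1 ≤ n) ∨ (X.AtMostOneNode ∧ 2 ≤ n) →
    T.Trivial X 0
  picard : ∀ X : Hyp d 3, X.Smooth → T.Trivial X 1
  lefschetz : ∀ {n : ℕ} (X : Hyp d n) (i : ℕ), X.Smooth → 2 * i < n → ∀ a : T.A X i,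
    ∃ c : ℚ, a - c • T.h X i ∈ T.Hom X i
  pencil : ∀ {n : ℕ} (X : Hyp d (n + 1)) (i : ℕ) (a : T.A X (i + 1)), 1 ≤ n → X.AtMostOneNode →
    (∀ (Y : Hyp d n) (s : Sec X Y), Y.Smooth → ∃ c : ℚ, T.res s (i + 1) a = c • T.h Y (i + 1)) →
    ∃ c : ℚ, a - c • T.h X (i + 1) ∈ Submodule.span ℚ
      {z | ∃ (Y : Hyp d n) (s : Sec X Y) (b : T.A Y i), Y.AtMostOneNode ∧ z = T.push s i b}

end Pool.Agent.TH439.HC
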