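import Mathlib

/-! Alternating pencils over a field: a pencil `D + t E` of alternating matrices of size `2 g` with
`E` invertible has at most `g` singular members. -/

set_option autoImplicit false

namespace Pool.Agent.TH439.PI

open Module Matrix

section field

variable {F : Type*} [Field F] {ι : Type*} [Fintype ι] [DecidableEq ι]

omit [DecidableEq ι] in
/-- the form of an alternating matrix vanishes on the diagonal -/
lemma alt_self (N : Matrix ι ι F) (v : ι → F) : v ⬝ᵥ ((N - Nᵀ) *ᵥ v) = 0 := by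
  rw [Matrix.sub_mulVec, dotProduct_sub, Matrix.mulVec_transpose, dotProduct_comm v (v ᵥ* N),
    ← Matrix.dotProduct_mulVec, sub_self]

omit [DecidableEq ι] in
/-- skew symmetry -/
lemma skew (N : Matrix ι ι F) (v w : ι → F) :
    v ⬝ᵥ ((N - Nᵀ) *ᵥ w) = - (w ⬝ᵥ ((N - Nᵀ) *ᵥ v)) := by
  rw [Matrix.sub_mulVec, dotProduct_sub, Matrix.sub_mulVec, dotProduct_sub, Matrix.mulVec_transpose,
    Matrix.mulVec_transpose, dotProduct_comm v (w ᵥ* N), dotProduct_comm w (v ᵥ* N),
    ← Matrix.dotProduct_mulVec, ← Matrix.dotProduct_mulVec]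
  ring

/-- A set `S` of parameters `t` for which `M + t N` has singular alternating part has at most
`g` elements, if the alternating part of `N` is invertible of size `2 g`. -/
theorem card_singular (M N : Matrix ι ι F) (g : ℕ) (hι : Fintype.card ι = 2 * g)
    (hN : (N - Nᵀ).det ≠ 0) (S : Finset F)
    (hS : ∀ t ∈ S, ((M + t • N) - (M + t • N)ᵀ).det = 0) : S.card ≤ g := by
  set D := M - Mᵀ with hD
  set E := N - Nᵀ with hE
  have hDE : ∀ t : F, (M + t • N) - (M + t • N)ᵀ = D + t • E := by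
    intro t
    rw [hD, hE, Matrix.transpose_add, Matrix.transpose_smul, smul_sub]
    abel
  have h1 : ∀ t : S, ∃ v : ι → F, v ≠ 0 ∧ D *ᵥ v = -((t : F) • (E *ᵥ v)) := by
    intro t
    have h := hS t t.2
    rw [hDE] at h
    obtain ⟨v, hv, hv0⟩ := Matrix.exists_mulVec_eq_zero_iff.2 h
    refine ⟨v, hv, ?_⟩
    rw [Matrix.add_mulVec, Matrix.smul_mulVec] at hv0
    exact eq_neg_of_add_eq_zero_left hv0
  choose v hv0 hv using h1
  have hunit : IsUnit E.det := isUnit_iff_ne_zero.2 hN
  -- eigenvectors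
  have hli : LinearIndependent F v := by
    refine End.eigenvectors_linearIndependent' (Matrix.toLin' (E⁻¹ * D))
      (fun t : S => -(t : F)) (fun a b h => Subtype.ext (neg_injective h)) v (fun t => ?_)
    refine ⟨?_, hv0 t⟩
    rw [End.mem_eigenspace_iff, Matrix.toLin'_apply, ← Matrix.mulVec_mulVec, hv, Matrix.mulVec_neg,
      Matrix.mulVec_smul, Matrix.mulVec_mulVec, Matrix.nonsing_inv_mul _ hunit, Matrix.one_mulVec,
      neg_smul]
  -- isotropy
  have hiso : ∀ a b : S, v a ⬝ᵥ (E *ᵥ v b) = 0 := by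
    intro a b
    by_cases hab : a = b
    · subst hab
      exact alt_self N (v a)
    · have e1 : v a ⬝ᵥ (D *ᵥ v b) = -((b : F) * (v a ⬝ᵥ (E *ᵥ v b))) := by
        rw [hv, dotProduct_neg, dotProduct_smul, smul_eq_mul]
      have e2 : v a ⬝ᵥ (D *ᵥ v b) = -((a : F) * (v a ⬝ᵥ (E *ᵥ v b))) := by
        rw [skew M (v a) (v b), ← hD, hv, dotProduct_neg, dotProduct_smul, smul_eq_mul,
          skew N (v b) (v a), ← hE]
        ring
      have h3 : ((a : F) - b) * (v a ⬝ᵥ (E *ᵥ v b)) = 0 := by linear_combination e2 - e1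
      rcases mul_eq_zero.1 h3 with h | h
      · exact absurd (Subtype.ext (sub_eq_zero.1 h)) hab
      · exact h
  -- ranks
  let P : Matrix S ι F := Matrix.of v
  have hP : P.rank = S.card := by
    have h := LinearIndependent.rank_matrix (M := P) hli
    rw [h, Fintype.card_coe]
  have hPE : (P * E).rank = S.card := by rw [Matrix.rank_mul_eq_left_of_isUnit_det _ _ hunit, hP]
  have hz : (P * E) * Pᵀ = 0 := by
    ext a b
    rw [Matrix.mul_assoc, Matrix.mul_apply', Matrix.zero_apply]
    have : (fun j => (E * Pᵀ) j b) = E *ᵥ v b := by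
      ext j
      rw [Matrix.mul_apply']
      rfl
    rw [this]
    exact hiso a b
  have h5 := Matrix.rank_add_rank_le_card_of_mul_eq_zero hz
  rw [hPE, Matrix.rank_transpose, hP, hι] at h5
  omega

end field

/-- Existence of a good parameter: for `p > g` there is an integer `t` with
`det ((M + t N) - (M + t N)ᵀ)` prime to `p`. -/
theorem exists_param {ι : Type*} [Fintype ι] [DecidableEq ι] (p g : ℕ) (hp : p.Prime) (hg : g < p)
    (hι : Fintype.card ι = 2 * g) (M N : Matrix ι ι ℤ) (hN : ¬ (p : ℤ) ∣ (N - Nᵀ).det) :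
    ∃ t : ℤ, ¬ (p : ℤ) ∣ ((M + t • N) - (M + t • N)ᵀ).det := by
  have : Fact p.Prime := ⟨hp⟩
  by_contra hcon
  push Not at hcon
  let φ : ℤ →+* ZMod p := Int.castRingHom (ZMod p)
  have hdet : ∀ A : Matrix ι ι ℤ, (p : ℤ) ∣ A.det ↔ (φ.mapMatrix A).det = 0 := by
    intro A
    rw [← RingHom.map_det, ← ZMod.intCast_zmod_eq_zero_iff_dvd]
    rfl
  have hmap : ∀ (A : Matrix ι ι ℤ), φ.mapMatrix (A - Aᵀ) = φ.mapMatrix A - (φ.mapMatrix A)ᵀ := by
    intro A
    rw [map_sub]
    rfl
  have hN' : (φ.mapMatrix N - (φ.mapMatrix N)ᵀ).det ≠ 0 := by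
    rw [← hmap]
    exact fun h => hN ((hdet _).2 h)
  have h := card_singular (φ.mapMatrix M) (φ.mapMatrix N) g hι hN' Finset.univ (fun t _ => by
    have h1 := (hdet _).1 (hcon (t.val : ℤ))
    rw [hmap] at h1
    have h2 : φ.mapMatrix (M + ((t.val : ℤ)) • N) = φ.mapMatrix M + t • φ.mapMatrix N := by
      rw [map_add]
      congr 1
      ext i j
      have h3 : φ (t.val : ℤ) = t := by simp [φ]
      rw [RingHom.mapMatrix_apply, Matrix.map_apply, Matrix.smul_apply, Matrix.smul_apply,
        RingHom.mapMatrix_apply, Matrix.map_apply, smul_eq_mul, smul_eq_mul, map_mul, h3]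
    rwa [h2] at h1)
  rw [Finset.card_univ, ZMod.card] at h
  omega

end Pool.Agent.TH439.PI
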