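import Mathlib

/-! Zeros of quadratic forms (Chevalley-Warning) and idempotents of reduced finite algebras. -/

set_option autoImplicit false
set_option linter.all false

namespace Pool.Agent.TH439.PI

open Finset MvPolynomial

/-- Chevalley-Warning for quadratic forms given by bilinear forms on a vector space. -/
theorem cw_bilin {F : Type*} [Field F] [Fintype F] (p : ℕ) [CharP F p] {V : Type*} [AddCommGroup V]
    [Module F V] [FiniteDimensional F V] {J : Type*} [Fintype J] (B : J → V →ₗ[F] V →ₗ[F] F)
    (h : 2 * Fintype.card J < Module.finrank F V) : p ∣ Nat.card {v : V // ∀ j, B j v v = 0} := by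
  classical
  set d := Module.finrank F V with hd
  let b : Module.Basis (Fin d) F V := Module.finBasis F V
  let f : J → MvPolynomial (Fin d) F := fun j => ∑ k, ∑ l, C (B j (b k) (b l)) * (X k * X l)
  have hdeg : ∀ j, (f j).totalDegree ≤ 2 := by
    intro j
    refine totalDegree_finsetSum_le fun k _ => totalDegree_finsetSum_le fun l _ => ?_
    refine (totalDegree_mul _ _).trans ?_
    rw [totalDegree_C, zero_add]
    refine (totalDegree_mul _ _).trans ?_
    rw [totalDegree_X, totalDegree_X]
  have hev : ∀ j (x : Fin d → F), eval x (f j) = B j (b.equivFun.symm x) (b.equivFun.symm x) := by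
    intro j x
    rw [Module.Basis.equivFun_symm_apply, map_sum (eval x), map_sum (B j), LinearMap.sum_apply]
    refine Finset.sum_congr rfl fun k _ => ?_
    rw [map_sum (eval x), map_smul (B j), LinearMap.smul_apply, map_sum, Finset.smul_sum]
    refine Finset.sum_congr rfl fun l _ => ?_
    rw [map_smul, map_mul, map_mul, eval_C, eval_X, eval_X, smul_eq_mul, smul_eq_mul]
    ring
  have h1 : (∑ j : J, (f j).totalDegree) < Fintype.card (Fin d) := by
    rw [Fintype.card_fin]
    refine lt_of_le_of_lt ?_ h
    refine (Finset.sum_le_card_nsmul _ _ 2 fun j _ => hdeg j).trans ?_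
    rw [card_univ, smul_eq_mul, mul_comm]
  have h2 := char_dvd_card_solutions_of_sum_lt (K := F) p h1
  rw [← @Nat.card_eq_fintype_card _ (_)] at h2
  have h3 : Nat.card {v : V // ∀ j, B j v v = 0} =
      Nat.card {x : Fin d → F // ∀ j ∈ (univ : Finset J), eval x (f j) = 0} := by
    refine Nat.card_congr (b.equivFun.toEquiv.subtypeEquiv fun v => ?_)
    simp only [mem_univ, true_implies, hev]
    refine forall_congr' fun j => ?_
    have : b.equivFun.symm (b.equivFun.toEquiv v) = v := b.equivFun.symm_apply_apply v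
    rw [this]
  rw [h3]
  exact h2

/-- A reduced finite commutative ring is a product of fields: the idempotents. -/
theorem exists_idem (O : Type*) [CommRing O] [Finite O] [IsReduced O] :
    ∃ (n : ℕ) (e : Fin n → O), (∀ i, e i * e i = e i) ∧ (∀ i j, i ≠ j → e i * e j = 0) ∧
      ∑ i, e i = 1 ∧ (∀ i, e i ≠ 0) ∧ ∀ a : O, a ≠ 0 → ∃ i b, b * a = e i := by
  classical
  haveI : Finite (MaximalSpectrum O) := inferInstance
  have := Fintype.ofFinite (MaximalSpectrum O)
  let φ := IsArtinianRing.equivPi O
  let ψ : Fin (Fintype.card (MaximalSpectrum O)) ≃ MaximalSpectrum O := (Fintype.equivFin _).symm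
  refine ⟨Fintype.card (MaximalSpectrum O), fun i => φ.symm (Pi.single (ψ i) 1), ?_, ?_, ?_, ?_, ?_⟩
  · intro i
    rw [← map_mul, ← Pi.single_mul, one_mul]
  · intro i j hij
    rw [← map_mul]
    have : (Pi.single (ψ i) 1 : ∀ I : MaximalSpectrum O, O ⧸ I.asIdeal) * Pi.single (ψ j) 1 = 0 := by
      funext k
      by_cases hk : k = ψ i
      · have : k ≠ ψ j := fun h => hij (ψ.injective (hk.symm.trans h))
        rw [Pi.mul_apply, Pi.single_eq_of_ne this, mul_zero]; rfl
      · rw [Pi.mul_apply, Pi.single_eq_of_ne hk, zero_mul]; rfl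
    rw [this, map_zero]
  · rw [← map_sum, ψ.sum_comp (fun m => (Pi.single m 1 : ∀ I : MaximalSpectrum O, O ⧸ I.asIdeal))]
    have : ∑ m, (Pi.single m 1 : ∀ I : MaximalSpectrum O, O ⧸ I.asIdeal) = 1 :=
      Finset.univ_sum_single (1 : ∀ I : MaximalSpectrum O, O ⧸ I.asIdeal)
    rw [this, map_one]
  · intro i h
    have h1 := (map_eq_zero_iff _ φ.symm.injective).1 h
    have h2 := congrFun h1 (ψ i)
    rw [Pi.single_eq_same] at h2
    exact one_ne_zero h2
  · intro a ha
    have h1 : φ a ≠ 0 := (map_ne_zero_iff _ φ.injective).2 ha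
    obtain ⟨m, hm⟩ := Function.ne_iff.1 h1
    obtain ⟨c, hc⟩ := (Ideal.Quotient.maximal_ideal_iff_isField_quotient m.asIdeal).1 m.isMaximal |>.mul_inv_cancel hm
    refine ⟨ψ.symm m, φ.symm (Pi.single m c), ?_⟩
    apply φ.injective
    rw [map_mul, φ.apply_symm_apply, φ.apply_symm_apply, ψ.apply_symm_apply]
    funext k
    by_cases hk : k = m
    · subst hk
      rw [Pi.mul_apply, Pi.single_eq_same, Pi.single_eq_same, mul_comm]
      exact hc
    · rw [Pi.mul_apply, Pi.single_eq_of_ne hk, Pi.single_eq_of_ne hk, zero_mul]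

end Pool.Agent.TH439.PI
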