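import Pool.Agent.TH439.PI1
import Pool.Agent.TH439.PI9

/-! Alternating forms modulo the forms `E (x, a y)`, `a` in an algebra of half the dimension. -/

set_option autoImplicit false
set_option linter.all false

namespace Pool.Agent.TH439.PI

open Finset Matrix

section rm

variable {F : Type*} [Field F] {ι : Type*} [Fintype ι] [DecidableEq ι] {O : Type*} [CommRing O]
  [Algebra F O] (ρ : O →ₐ[F] Matrix ι ι F)

/-- `(w, u) ↦ w · D ρ(a) u` -/
def fm (D : Matrix ι ι F) (a : O) : (ι → F) →ₗ[F] (ι → F) →ₗ[F] F :=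
  LinearMap.mk₂ F (fun w u => w ⬝ᵥ (D *ᵥ (ρ a *ᵥ u)))
    (fun w w' u => add_dotProduct _ _ _) (fun c w u => by rw [smul_dotProduct])
    (fun w u u' => by rw [mulVec_add, mulVec_add, dotProduct_add])
    (fun c w u => by rw [mulVec_smul, mulVec_smul, dotProduct_smul])

lemma fm_apply (D : Matrix ι ι F) (a : O) (w u : ι → F) :
    fm ρ D a w u = w ⬝ᵥ (D *ᵥ (ρ a *ᵥ u)) := rfl

lemma fm_add (D : Matrix ι ι F) (a b : O) (w u : ι → F) :
    fm ρ D (a + b) w u = fm ρ D a w u + fm ρ D b w u := by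
  rw [fm_apply, map_add, add_mulVec, mulVec_add, dotProduct_add]; rfl

lemma fm_smul (D : Matrix ι ι F) (c : F) (a : O) (w u : ι → F) :
    fm ρ D (c • a) w u = c * fm ρ D a w u := by
  rw [fm_apply, map_smul, smul_mulVec, mulVec_smul, dotProduct_smul]; rfl

/-- the vectors fixed by `e` -/
def VS (e : O) : Submodule F (ι → F) where
  carrier := {w | ρ e *ᵥ w = w}
  add_mem' := by
    intro a b ha hb
    rw [Set.mem_setOf_eq] at *
    rw [mulVec_add, ha, hb]
  zero_mem' := mulVec_zero _
  smul_mem' := by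
    intro c a ha
    rw [Set.mem_setOf_eq] at *
    rw [mulVec_smul, ha]

lemma mem_VS {e : O} {w : ι → F} : w ∈ VS ρ e ↔ ρ e *ᵥ w = w := Iff.rfl

/-- the elements of `O` fixed by `e` -/
def OS (F : Type*) [Field F] {O : Type*} [CommRing O] [Algebra F O] (e : O) : Submodule F O where
  carrier := {a | e * a = a}
  add_mem' := by
    intro a b ha hb
    rw [Set.mem_setOf_eq] at *
    rw [mul_add, ha, hb]
  zero_mem' := mul_zero _
  smul_mem' := by
    intro c a ha
    rw [Set.mem_setOf_eq] at *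
    rw [mul_smul_comm, ha]

lemma mem_OS {e a : O} : a ∈ OS F e ↔ e * a = a := Iff.rfl

variable {ρ} {E : Matrix ι ι F} {N : O → Matrix ι ι F}

lemma adj (hN : ∀ a, N a - (N a)ᵀ = E * ρ a) (a : O) : (ρ a)ᵀ * E = E * ρ a := by
  have h1 : Eᵀ = -E := by
    have h := hN 1
    rw [map_one, mul_one] at h
    rw [← h, transpose_sub, transpose_transpose, neg_sub]
  have h2 : (E * ρ a)ᵀ = -(E * ρ a) := by
    rw [← hN a, transpose_sub, transpose_transpose, neg_sub]
  rw [transpose_mul, h1, Matrix.mul_neg] at h2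
  exact neg_injective h2

lemma iso (hN : ∀ a, N a - (N a)ᵀ = E * ρ a) (a : O) (v : ι → F) :
    v ⬝ᵥ (E *ᵥ (ρ a *ᵥ v)) = 0 := by
  rw [mulVec_mulVec, ← hN]
  exact alt_self _ _

lemma move (hN : ∀ a, N a - (N a)ᵀ = E * ρ a) (a b : O) (u v : ι → F) :
    (ρ a *ᵥ u) ⬝ᵥ (E *ᵥ (ρ b *ᵥ v)) = u ⬝ᵥ (E *ᵥ (ρ (a * b) *ᵥ v)) := by
  have h1 : (ρ a *ᵥ u) ⬝ᵥ (E *ᵥ (ρ b *ᵥ v)) = u ⬝ᵥ ((ρ a)ᵀ *ᵥ (E *ᵥ (ρ b *ᵥ v))) := by
    rw [dotProduct_transpose_mulVec, dotProduct_comm]
  have h2 : ∀ w, (ρ a)ᵀ *ᵥ (E *ᵥ w) = E *ᵥ (ρ a *ᵥ w) := fun w => by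
    rw [mulVec_mulVec, adj hN, mulVec_mulVec]
  have h3 : ρ a *ᵥ (ρ b *ᵥ v) = ρ (a * b) *ᵥ v := by rw [mulVec_mulVec, map_mul]
  rw [h1, h2, h3]

/-- the support of `v` is full if `a ↦ ρ(a) v` is injective -/
def Full (ρ : O →ₐ[F] Matrix ι ι F) (v : ι → F) : Prop := ∀ a : O, ρ a *ᵥ v = 0 → a = 0

/-- the pairing of `OS e` and `VS e` -/
def pr (ρ : O →ₐ[F] Matrix ι ι F) (E : Matrix ι ι F) (v : ι → F) (e : O) :
    OS F e →ₗ[F] VS ρ e →ₗ[F] F :=
  LinearMap.mk₂ F (fun a w => (w : ι → F) ⬝ᵥ (E *ᵥ (ρ (a : O) *ᵥ v)))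
    (fun a b w => by rw [Submodule.coe_add, map_add, add_mulVec, mulVec_add, dotProduct_add])
    (fun c a w => by rw [Submodule.coe_smul, map_smul, smul_mulVec, mulVec_smul, dotProduct_smul])
    (fun a w w' => by rw [Submodule.coe_add, add_dotProduct])
    (fun c a w => by rw [Submodule.coe_smul, smul_dotProduct])

lemma mulVec_E_inj (hE : E.det ≠ 0) {v : ι → F} (h : E *ᵥ v = 0) : v = 0 :=
  Matrix.eq_zero_of_mulVec_eq_zero hE h

lemma pr_inj (hN : ∀ a, N a - (N a)ᵀ = E * ρ a) (hE : E.det ≠ 0) {v : ι → F} (hv : Full ρ v)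
    {e : O} (he : e * e = e) : Function.Injective (pr ρ E v e) := by
  rw [← LinearMap.ker_eq_bot, LinearMap.ker_eq_bot']
  intro a ha
  have h1 : ∀ u : ι → F, u ⬝ᵥ (E *ᵥ (ρ (a : O) *ᵥ v)) = 0 := by
    intro u
    have h2 : ρ e *ᵥ u ∈ VS ρ e := by rw [mem_VS, mulVec_mulVec, ← map_mul, he]
    have h3 : (ρ e *ᵥ u) ⬝ᵥ (E *ᵥ (ρ (a : O) *ᵥ v)) = 0 := by
      have := congrArg (fun φ => φ ⟨_, h2⟩) ha
      exact this
    rw [move hN, mem_OS.1 a.2] at h3
    exact h3
  have h4 : E *ᵥ (ρ (a : O) *ᵥ v) = 0 := by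
    funext j
    have := h1 (Pi.single j 1)
    rw [single_dotProduct, one_mul] at this
    exact this
  exact Subtype.ext (hv _ (mulVec_E_inj hE h4))

lemma two_le [Finite O] (hN : ∀ a, N a - (N a)ᵀ = E * ρ a) (hE : E.det ≠ 0) {v : ι → F} (hv : Full ρ v)
    {e : O} (he : e * e = e) :
    2 * Module.finrank F (OS F e) ≤ Module.finrank F (VS ρ e) := by
  have : Module.Finite F O := Module.Finite.of_finite
  have h1 : Function.Surjective (pr ρ E v e).flip :=
    LinearMap.flip_surjective_iff₁.2 (pr_inj hN hE hv he)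
  have h2 := (pr ρ E v e).flip.finrank_range_add_finrank_ker
  rw [LinearMap.range_eq_top.2 h1, finrank_top, Subspace.dual_finrank_eq] at h2
  -- the kernel contains the image of `OS e`
  let φ : OS F e →ₗ[F] LinearMap.ker (pr ρ E v e).flip :=
    { toFun := fun b => ⟨⟨ρ (b : O) *ᵥ v, by
          rw [mem_VS, mulVec_mulVec, ← map_mul, mem_OS.1 b.2]⟩, by
          rw [LinearMap.mem_ker]
          ext a
          have h3 : (ρ (b : O) *ᵥ v) ⬝ᵥ (E *ᵥ (ρ (a : O) *ᵥ v)) = 0 := by
            rw [move hN, iso hN]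
          exact h3⟩
      map_add' := fun a b => by
        ext1; ext1
        simp only [Submodule.coe_add, map_add, add_mulVec]
      map_smul' := fun c a => by
        ext1; ext1
        simp only [Submodule.coe_smul, map_smul, smul_mulVec, RingHom.id_apply] }
  have h4 : Function.Injective φ := by
    rw [injective_iff_map_eq_zero]
    intro b hb
    have h5 : ρ (b : O) *ᵥ v = 0 :=
      congrArg (fun z : LinearMap.ker (pr ρ E v e).flip => ((z : VS ρ e) : ι → F)) hb
    exact Subtype.ext (hv _ h5)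
  have h6 := LinearMap.finrank_le_finrank_of_injective h4
  omega

/-- the solutions of the equations `v · D ρ(a) v = 0` -/
def IsSol (ρ : O →ₐ[F] Matrix ι ι F) (D : Matrix ι ι F) (v : ι → F) : Prop :=
  ∀ a : O, v ⬝ᵥ (D *ᵥ (ρ a *ᵥ v)) = 0

/-- the number of solutions fixed by an idempotent is divisible by `p` -/
lemma card_sol [Fintype F] [Finite O] (p : ℕ) [CharP F p] (M : Matrix ι ι F) {e : O} (he : e * e = e)
    (he0 : e ≠ 0) (h2 : 2 * Module.finrank F (OS F e) ≤ Module.finrank F (VS ρ e)) :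
    p ∣ Nat.card {v : ι → F // v ∈ VS ρ e ∧ IsSol ρ (M - Mᵀ) v} := by
  have : Module.Finite F O := Module.Finite.of_finite
  set D := M - Mᵀ with hD
  let e' : OS F e := ⟨e, he⟩
  have he' : e' ≠ 0 := fun h => he0 (congrArg Subtype.val h)
  obtain ⟨U, hU⟩ := Submodule.exists_isCompl (Submodule.span F {e'})
  have h3 := Submodule.finrank_add_eq_of_isCompl hU
  rw [finrank_span_singleton he'] at h3
  haveI : Module.Free F U := Module.Free.of_divisionRing F U
  let b := Module.finBasis F U
  let B : Fin (Module.finrank F U) → VS ρ e →ₗ[F] VS ρ e →ₗ[F] F := fun j =>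
    (fm ρ D ((b j : OS F e) : O)).domRestrict₁₂ (VS ρ e) (VS ρ e)
  have h4 := cw_bilin p B (by rw [Fintype.card_fin]; omega)
  have h5 : Nat.card {v : ι → F // v ∈ VS ρ e ∧ IsSol ρ D v} =
      Nat.card {v : VS ρ e // ∀ j, B j v v = 0} := by
    refine Nat.card_congr ?_
    refine (Equiv.subtypeSubtypeEquivSubtypeInter (fun v => v ∈ VS ρ e) (fun v => IsSol ρ D v)).symm.trans ?_
    refine Equiv.subtypeEquivRight fun v => ?_
    constructor
    · intro h j
      exact h _
    · intro h a
      -- reduction to `OS e`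
      let Z : Submodule F (OS F e) :=
        { carrier := {a | fm ρ D (a : O) (v : ι → F) (v : ι → F) = 0}
          add_mem' := by
            intro a b ha hb
            rw [Set.mem_setOf_eq] at *
            rw [Submodule.coe_add, fm_add, ha, hb, add_zero]
          zero_mem' := by
            rw [Set.mem_setOf_eq, fm_apply, Submodule.coe_zero, map_zero, zero_mulVec, mulVec_zero,
              dotProduct_zero]
          smul_mem' := by
            intro c a ha
            rw [Set.mem_setOf_eq] at *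
            rw [Submodule.coe_smul, fm_smul, ha, mul_zero] }
      have hZ1 : Submodule.span F {e'} ≤ Z := by
        rw [Submodule.span_le, Set.singleton_subset_iff]
        change (v : ι → F) ⬝ᵥ (D *ᵥ (ρ e *ᵥ v)) = 0
        rw [(mem_VS ρ).1 v.2]
        exact alt_self M v
      have hZ2 : U ≤ Z := by
        intro u hu
        have h6 := b.sum_repr ⟨u, hu⟩
        have h7 : u = ∑ j, b.repr ⟨u, hu⟩ j • (b j : OS F e) := by
          have := congrArg (fun z : U => (z : OS F e)) h6
          simp only [Submodule.coe_sum, Submodule.coe_smul] at this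
          exact this.symm
        rw [h7]
        exact Z.sum_mem fun j _ => Z.smul_mem _ (h j)
      have hZ : ∀ a : OS F e, a ∈ Z := by
        intro a
        have : (⊤ : Submodule F (OS F e)) ≤ Z := by
          rw [← hU.sup_eq_top]
          exact sup_le hZ1 hZ2
        exact this trivial
      have h8 := hZ ⟨e * a, by rw [mem_OS, ← mul_assoc, he]⟩
      have h9 : (v : ι → F) ⬝ᵥ (D *ᵥ (ρ (e * a) *ᵥ v)) = 0 := h8
      rw [mul_comm, map_mul, ← mulVec_mulVec, (mem_VS ρ).1 v.2] at h9
      exact h9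
  rw [h5]
  exact h4

/-- a solution of full support gives a degenerate form -/
lemma exists_of_full [Finite O] (hN : ∀ a, N a - (N a)ᵀ = E * ρ a) (hE : E.det ≠ 0)
    (hdim : Fintype.card ι = 2 * Module.finrank F O) (M : Matrix ι ι F) {v : ι → F}
    (hv : Full ρ v) (hs : IsSol ρ (M - Mᵀ) v) : ∃ a : O, (M - Mᵀ) *ᵥ v + E *ᵥ (ρ a *ᵥ v) = 0 := by
  have : Module.Finite F O := Module.Finite.of_finite
  let ψ : O →ₗ[F] (ι → F) →ₗ[F] F := LinearMap.mk₂ F (fun a w => w ⬝ᵥ (ρ a *ᵥ v))
    (fun a b w => by rw [map_add, add_mulVec, dotProduct_add])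
    (fun c a w => by rw [map_smul, smul_mulVec, dotProduct_smul])
    (fun a w w' => by rw [add_dotProduct])
    (fun c a w => by rw [smul_dotProduct])
  have hψ : Function.Injective ψ := by
    rw [injective_iff_map_eq_zero]
    intro a ha
    apply hv
    funext j
    have h1 : (Pi.single j 1 : ι → F) ⬝ᵥ (ρ a *ᵥ v) = 0 :=
      congrArg (fun φ : (ι → F) →ₗ[F] F => φ (Pi.single j 1)) ha
    rw [single_dotProduct, one_mul] at h1
    exact h1
  have h1 : Function.Surjective ψ.flip := LinearMap.flip_surjective_iff₁.2 hψ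
  have h2 := ψ.flip.finrank_range_add_finrank_ker
  rw [LinearMap.range_eq_top.2 h1, finrank_top, Subspace.dual_finrank_eq,
    Module.finrank_fintype_fun_eq_card, hdim] at h2
  have hmem : ∀ w : ι → F, w ∈ LinearMap.ker ψ.flip ↔ ∀ a : O, w ⬝ᵥ (ρ a *ᵥ v) = 0 := by
    intro w
    rw [LinearMap.mem_ker]
    constructor
    · intro h a
      exact congrArg (fun φ : O →ₗ[F] F => φ a) h
    · intro h
      ext a
      exact h a
  let χ : O →ₗ[F] LinearMap.ker ψ.flip :=
    { toFun := fun a => ⟨E *ᵥ (ρ a *ᵥ v), by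
          rw [hmem]
          intro b
          rw [dotProduct_comm, move hN, iso hN]⟩
      map_add' := fun a b => by
        ext1
        simp only [Submodule.coe_add, map_add, add_mulVec, mulVec_add]
      map_smul' := fun c a => by
        ext1
        simp only [Submodule.coe_smul, map_smul, smul_mulVec, mulVec_smul, RingHom.id_apply] }
  have hχ : Function.Injective χ := by
    rw [injective_iff_map_eq_zero]
    intro a ha
    have h3 : E *ᵥ (ρ a *ᵥ v) = 0 :=
      congrArg (fun z : LinearMap.ker ψ.flip => (z : ι → F)) ha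
    exact hv a (mulVec_E_inj hE h3)
  have h4 : Module.finrank F O = Module.finrank F (LinearMap.ker ψ.flip) := by omega
  have h5 := (LinearMap.injective_iff_surjective_of_finrank_eq_finrank h4).1 hχ
  have h6 : -((M - Mᵀ) *ᵥ v) ∈ LinearMap.ker ψ.flip := by
    rw [hmem]
    intro a
    rw [neg_dotProduct, dotProduct_comm, skew, hs a, neg_zero, neg_zero]
  obtain ⟨a, ha⟩ := h5 ⟨_, h6⟩
  have h7 : E *ᵥ (ρ a *ᵥ v) = -((M - Mᵀ) *ᵥ v) :=
    congrArg (fun z : LinearMap.ker ψ.flip => (z : ι → F)) ha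
  exact ⟨a, by rw [h7, add_neg_cancel]⟩

/-- existence of a solution of full support -/
theorem exists_full [Fintype F] [Finite O] [IsReduced O] (p : ℕ) [hp : Fact p.Prime] [CharP F p]
    (hρ : Function.Injective ρ) (hN : ∀ a, N a - (N a)ᵀ = E * ρ a) (hE : E.det ≠ 0)
    (M : Matrix ι ι F) : ∃ v : ι → F, Full ρ v ∧ IsSol ρ (M - Mᵀ) v := by
  classical
  obtain ⟨n, e, he, hee, he1, he0, hea⟩ := exists_idem O
  set D := M - Mᵀ with hD
  let eI : Finset (Fin n) → O := fun I => ∑ i ∈ I, e i
  have hmul : ∀ j I, e j * eI I = if j ∈ I then e j else 0 := by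
    intro j I
    simp only [eI, Finset.mul_sum]
    have : ∀ i ∈ I, e j * e i = if j = i then e j else 0 := by
      intro i _
      split_ifs with h
      · rw [← h, he]
      · exact hee j i h
    rw [Finset.sum_congr rfl this, Finset.sum_ite_eq]
  have hidem : ∀ I, eI I * eI I = eI I := by
    intro I
    have h1 : eI I * eI I = ∑ j ∈ I, e j * eI I := by
      simp only [eI]
      rw [Finset.sum_mul]
    rw [h1]
    refine Finset.sum_congr rfl fun j hj => ?_
    rw [hmul, if_pos hj]
  have hne : ∀ I : Finset (Fin n), I.Nonempty → eI I ≠ 0 := by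
    rintro I ⟨j, hj⟩ h
    have h1 := hmul j I
    rw [h, mul_zero, if_pos hj] at h1
    exact he0 j h1.symm
  -- supports
  let supp : (ι → F) → Finset (Fin n) := fun v => univ.filter fun i => ρ (e i) *ᵥ v ≠ 0
  have hsupp : ∀ v i, i ∈ supp v ↔ ρ (e i) *ᵥ v ≠ 0 := by
    intro v i
    simp only [supp, Finset.mem_filter, Finset.mem_univ, true_and]
  have hfull : ∀ v, supp v = univ → Full ρ v := by
    intro v hv a ha
    by_contra h0
    obtain ⟨i, b, hb⟩ := hea a h0
    have h1 : ρ (e i) *ᵥ v ≠ 0 := (hsupp v i).1 (by rw [hv]; exact mem_univ i)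
    apply h1
    rw [← hb, map_mul, ← mulVec_mulVec, ha, mulVec_zero]
  have hVS : ∀ v I, v ∈ VS ρ (eI I) ↔ supp v ⊆ I := by
    intro v I
    rw [mem_VS]
    constructor
    · intro h i hi
      by_contra hI
      apply (hsupp v i).1 hi
      rw [← h, mulVec_mulVec, ← map_mul, hmul, if_neg hI, map_zero, zero_mulVec]
    · intro h
      have h1 : v = ρ (∑ i, e i) *ᵥ v := by rw [he1, map_one, one_mulVec]
      conv_rhs => rw [h1]
      rw [map_sum, map_sum, Matrix.sum_mulVec, Matrix.sum_mulVec]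
      refine Finset.sum_subset (subset_univ _) fun i _ hi => ?_
      by_contra h2
      exact hi (h ((hsupp v i).2 h2))
  -- a vector of full support
  obtain ⟨v₀, hv₀⟩ : ∃ v, supp v = univ := by
    have h1 : ∀ i, ∃ u : ι → F, ρ (e i) *ᵥ u ≠ 0 := by
      intro i
      by_contra h
      push Not at h
      apply he0 i
      apply hρ
      rw [map_zero]
      exact Matrix.ext_iff_mulVec.2 fun v => by rw [h v, zero_mulVec]
    choose u hu using h1
    refine ⟨∑ i, ρ (e i) *ᵥ u i, ?_⟩
    ext j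
    rw [hsupp]
    have h2 : ρ (e j) *ᵥ ∑ i, ρ (e i) *ᵥ u i = ρ (e j) *ᵥ u j := by
      rw [Matrix.mulVec_sum, Finset.sum_eq_single j]
      · rw [mulVec_mulVec, ← map_mul, he]
      · intro i _ hij
        rw [mulVec_mulVec, ← map_mul, hee j i hij.symm, map_zero, zero_mulVec]
      · intro h; exact absurd (mem_univ j) h
    rw [h2]
    exact ⟨fun _ => mem_univ j, fun _ => hu j⟩
  -- counting
  let Sol : Finset (ι → F) := univ.filter fun v => IsSol ρ D v
  let s : Finset (Fin n) → ℕ := fun I => (Sol.filter fun v => supp v = I).card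
  have hsum : ∀ I, Nat.card {v : ι → F // v ∈ VS ρ (eI I) ∧ IsSol ρ D v} = ∑ J ∈ I.powerset, s J := by
    intro I
    rw [Nat.card_eq_fintype_card, Fintype.card_subtype]
    have h1 : (univ.filter fun v : ι → F => v ∈ VS ρ (eI I) ∧ IsSol ρ D v) =
        Sol.filter fun v => supp v ⊆ I := by
      ext v
      simp only [Sol, Finset.mem_filter, Finset.mem_univ, true_and, hVS]
      exact and_comm
    rw [h1, Finset.card_eq_sum_card_fiberwise (f := supp) (t := I.powerset) (fun v hv => by
      rw [Finset.mem_coe, Finset.mem_filter] at hv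
      rw [Finset.mem_coe, Finset.mem_powerset]
      exact hv.2)]
    refine Finset.sum_congr rfl fun J hJ => ?_
    rw [Finset.filter_filter]
    congr 1
    refine Finset.filter_congr fun v _ => ?_
    constructor
    · exact fun h => h.2
    · rintro rfl
      exact ⟨Finset.mem_powerset.1 hJ, rfl⟩
  have hdvd : ∀ I : Finset (Fin n), I.Nonempty → ∑ J ∈ I.powerset, (s J : ZMod p) = 0 := by
    intro I hI
    rw [← Nat.cast_sum, ← hsum I]
    exact (ZMod.natCast_eq_zero_iff _ p).2 (card_sol p M (hidem I) (hne I hI)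
      (two_le hN hE (hfull v₀ hv₀) (hidem I)))
  have hs0 : s ∅ = 1 := by
    have h1 : (Sol.filter fun v => supp v = ∅) = {0} := by
      ext v
      simp only [Sol, Finset.mem_filter, Finset.mem_univ, true_and, Finset.mem_singleton]
      constructor
      · rintro ⟨-, h⟩
        have h2 : v ∈ VS ρ (eI ∅) := (hVS v ∅).2 (by rw [h])
        rw [mem_VS] at h2
        rw [← h2]
        simp [eI]
      · rintro rfl
        refine ⟨fun a => by rw [zero_dotProduct], ?_⟩
        ext i
        rw [hsupp, mulVec_zero]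
        simp
    change (Sol.filter fun v => supp v = ∅).card = 1
    rw [h1, Finset.card_singleton]
  have hclaim : ∀ I : Finset (Fin n), (s I : ZMod p) = (-1) ^ I.card := by
    intro I
    induction I using Finset.strongInduction with
    | H I ih =>
      rcases Finset.eq_empty_or_nonempty I with rfl | hI
      · rw [hs0, Finset.card_empty, pow_zero, Nat.cast_one]
      · have h1 := hdvd I hI
        have h2 : ∑ J ∈ I.powerset, ((-1 : ZMod p)) ^ J.card = 0 := by
          have h3 := Finset.sum_powerset_neg_one_pow_card_of_nonempty hI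
          have h4 := congrArg (Int.cast : ℤ → ZMod p) h3
          push_cast at h4
          exact h4
        rw [← Finset.add_sum_erase _ _ (Finset.mem_powerset_self I)] at h1 h2
        have h3 : ∑ J ∈ I.powerset.erase I, (s J : ZMod p) =
            ∑ J ∈ I.powerset.erase I, (-1 : ZMod p) ^ J.card := by
          refine Finset.sum_congr rfl fun J hJ => ih J ?_
          rw [Finset.mem_erase, Finset.mem_powerset] at hJ
          exact Finset.ssubset_iff_subset_ne.2 ⟨hJ.2, hJ.1⟩
        rw [h3] at h1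
        linear_combination h1 - h2
  have hfin : s univ ≠ 0 := by
    intro h
    have h1 := hclaim univ
    rw [h, Nat.cast_zero] at h1
    have : IsUnit ((-1 : ZMod p) ^ (univ : Finset (Fin n)).card) := (isUnit_one.neg).pow _
    exact this.ne_zero h1.symm
  obtain ⟨v, hv⟩ := Finset.card_pos.1 (Nat.pos_of_ne_zero hfin)
  rw [Finset.mem_filter] at hv
  refine ⟨v, hfull v hv.2, ?_⟩
  exact (Finset.mem_filter.1 hv.1).2

/-- For every alternating form `D` there are `a` in `O` and a nonzero vector in the kernel of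
`D + E ρ(a)`. -/
theorem exists_kernel [Fintype F] [Finite O] [IsReduced O] (p : ℕ) [hp : Fact p.Prime] [CharP F p]
    (hρ : Function.Injective ρ) (hN : ∀ a, N a - (N a)ᵀ = E * ρ a) (hE : E.det ≠ 0)
    (hdim : Fintype.card ι = 2 * Module.finrank F O) (hpos : 0 < Module.finrank F O)
    (M : Matrix ι ι F) : ∃ v : ι → F, v ≠ 0 ∧ ∃ a : O, ((M + N a) - (M + N a)ᵀ) *ᵥ v = 0 := by
  obtain ⟨v, hv, hs⟩ := exists_full p hρ hN hE M
  obtain ⟨a, ha⟩ := exists_of_full hN hE hdim M hv hs
  have : Nontrivial O := Module.nontrivial_of_finrank_pos hpos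
  refine ⟨v, ?_, a, ?_⟩
  · rintro rfl
    exact one_ne_zero (hv 1 (mulVec_zero _))
  · have h : (M + N a) - (M + N a)ᵀ = (M - Mᵀ) + (N a - (N a)ᵀ) := by rw [transpose_add]; abel
    rw [h, hN, add_mulVec, ← mulVec_mulVec, ha]

end rm

end Pool.Agent.TH439.PI
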