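import Pool.Agent.TH439.PI8
import Pool.Agent.TH439.PI10

/-! Symbol length: blocks. -/

set_option autoImplicit false
set_option linter.all false

open scoped TensorProduct

noncomputable section

namespace Pool.Agent.TH439.PI

open Pool.Agent.Helper18.Br Pool.Agent.H552R3.SymBr Pool.Agent.H552R3.SymPred Pool.Agent.Helper346.Bra

universe u

variable {K : Type u} [Field K] {n : ℕ} {ζ : K}

/-- `α` is a product of `N` symbols -/
def SymLen (hn : 0 < n) (hζ : IsPrimitiveRoot ζ n) (α : BrauerGroup.{u, u} K) (N : ℕ) : Prop :=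
  ∃ s : List (BrauerGroup.{u, u} K), s.length = N ∧ (∀ γ ∈ s, ∃ a b : Kˣ, γ = symCl hn hζ a b) ∧
    s.prod = α

lemma SymLen.mul {hn : 0 < n} {hζ : IsPrimitiveRoot ζ n} {α β : BrauerGroup.{u, u} K} {N M : ℕ}
    (h : SymLen hn hζ α N) (h' : SymLen hn hζ β M) : SymLen hn hζ (α * β) (N + M) := by
  obtain ⟨s, hs, hs1, rfl⟩ := h
  obtain ⟨t, ht, ht1, rfl⟩ := h'
  refine ⟨s ++ t, by rw [List.length_append, hs, ht], ?_, by rw [List.prod_append]⟩
  intro γ hγ
  rcases List.mem_append.1 hγ with h | h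
  · exact hs1 γ h
  · exact ht1 γ h

lemma symLen_prod (hn : 0 < n) (hζ : IsPrimitiveRoot ζ n) {g : ℕ} (U W : Fin g → Kˣ) :
    SymLen hn hζ (∏ i, symCl hn hζ (U i) (W i)) g := by
  refine ⟨List.ofFn fun i => symCl hn hζ (U i) (W i), List.length_ofFn, ?_, List.prod_ofFn⟩
  intro γ hγ
  obtain ⟨i, rfl⟩ := (List.mem_ofFn' _ _).1 hγ
  exact ⟨_, _, rfl⟩

lemma SymLen.hasRep {hn : 0 < n} {hζ : IsPrimitiveRoot ζ n} {α : BrauerGroup.{u, u} K} {N : ℕ}
    (h : SymLen hn hζ α N) : HasRep α (n ^ N) := by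
  obtain ⟨s, hs, hs1, rfl⟩ := h
  subst hs
  induction s with
  | nil => exact one_hasRep
  | cons γ s ih =>
    obtain ⟨a, b, rfl⟩ := hs1 γ List.mem_cons_self
    rw [List.prod_cons, List.length_cons, pow_succ, mul_comm (n ^ s.length)]
    exact (hasRep_symCl hn hζ a b).mul (ih fun γ hγ => hs1 γ (List.mem_cons_of_mem _ hγ))

/-- one block -/
theorem block_len (hn : 0 < n) (hζ : IsPrimitiveRoot ζ n) {p e : ℕ} (hp : p.Prime)
    (hpe : n = p ^ e) (V : Subgroup (BrauerGroup.{u, u} K))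
    (H : Subgroup Kˣ) (h1 : (-1 : Kˣ) ∈ H) (hV : symSet hn hζ H ⊆ V) (N : ℕ)
    (hVN : ∀ β ∈ V, SymLen hn hζ β N) {g : ℕ} (hg : g < p) (x : Fin (2 * g) → Kˣ)
    (hx : BlockRel hn hζ V H p x) (α : BrauerGroup.{u, u} K)
    (hα : α ∈ V ⊔ Subgroup.closure (symSet hn hζ (H ⊔ Subgroup.closure (Set.range x)))) :
    SymLen hn hζ α (g + N) := by
  have : Fact p.Prime := ⟨hp⟩
  subst hpe
  have hs := sys hn hζ V H h1 hV
  let y : Fin (2 * g) → Additive Kˣ := fun l => Additive.ofMul (x l)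
  -- the subgroup of elements of the form `γ + E`
  let T' : Subgroup (BrauerGroup.{u, u} K) :=
    { carrier := {α | Additive.ofMul α ∈ T (sg hn hζ) V.toAddSubgroup H.toAddSubgroup y}
      mul_mem' := by
        intro a b ha hb
        exact (T (sg hn hζ) V.toAddSubgroup H.toAddSubgroup y).add_mem ha hb
      one_mem' := (T (sg hn hζ) V.toAddSubgroup H.toAddSubgroup y).zero_mem
      inv_mem' := by
        intro a ha
        exact (T (sg hn hζ) V.toAddSubgroup H.toAddSubgroup y).neg_mem ha }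
  let G' : Subgroup Kˣ :=
    { carrier := {a | Additive.ofMul a ∈ H.toAddSubgroup ⊔ AddSubgroup.closure (Set.range y)}
      mul_mem' := by
        intro a b ha hb
        exact (H.toAddSubgroup ⊔ AddSubgroup.closure (Set.range y)).add_mem ha hb
      one_mem' := (H.toAddSubgroup ⊔ AddSubgroup.closure (Set.range y)).zero_mem
      inv_mem' := by
        intro a ha
        exact (H.toAddSubgroup ⊔ AddSubgroup.closure (Set.range y)).neg_mem ha }
  have hG : H ⊔ Subgroup.closure (Set.range x) ≤ G' := by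
    refine sup_le (fun h hh => (le_sup_left (a := H.toAddSubgroup)
      (b := AddSubgroup.closure (Set.range y))) hh) ((Subgroup.closure_le _).2 ?_)
    rintro _ ⟨i, rfl⟩
    exact (le_sup_right (a := H.toAddSubgroup) (b := AddSubgroup.closure (Set.range y)))
      (AddSubgroup.subset_closure ⟨i, rfl⟩)
  have hle : V ⊔ Subgroup.closure (symSet hn hζ (H ⊔ Subgroup.closure (Set.range x))) ≤ T' := by
    refine sup_le (fun γ hγ => le_T hs y ((le_sup_left (a := V.toAddSubgroup)) hγ))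
      ((Subgroup.closure_le _).2 ?_)
    rintro _ ⟨a, ha, b, hb, rfl⟩
    exact s_mem_T hs (hG ha) (hG hb)
  have h2 := hle hα
  obtain ⟨U, W, γ, hγ, h3⟩ := length_le' hs hg (by rw [Fintype.card_fin]) y hx.rel h2
  have h4 : α = γ.toMul * ∏ i, symCl hn hζ (U i).toMul (W i).toMul := by
    exact (congrArg Additive.toMul h3).trans
      (congrArg (fun z : BrauerGroup.{u, u} K => γ.toMul * z) (toMul_sum _ _))
  rw [h4, add_comm]
  exact (hVN _ hγ).mul (symLen_prod hn hζ (fun i => (U i).toMul) (fun i => (W i).toMul))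

/-- several blocks -/
theorem blocks_len (hn : 0 < n) (hζ : IsPrimitiveRoot ζ n) {p e : ℕ} (hp : p.Prime)
    (hpe : n = p ^ e) (s : ℕ) : ∀ (V : Subgroup (BrauerGroup.{u, u} K))
    (H : Subgroup Kˣ) (_ : (-1 : Kˣ) ∈ H) (_ : symSet hn hζ H ⊆ V) (N : ℕ)
    (_ : ∀ β ∈ V, SymLen hn hζ β N) (g : Fin s → ℕ) (_ : ∀ i, g i < p)
    (x : ∀ i, Fin (2 * g i) → Kˣ)
    (_ : ∀ i, BlockRel hn hζ V H p (x i)) (α : BrauerGroup.{u, u} K)
    (_ : α ∈ V ⊔ Subgroup.closure (symSet hn hζ
      (H ⊔ Subgroup.closure (⋃ i, Set.range (x i))))), SymLen hn hζ α (N + ∑ i, g i) := by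
  induction s with
  | zero =>
    intro V H h1 hV N hVN g hg x hx α hα
    rw [Finset.univ_eq_empty, Finset.sum_empty, add_zero]
    apply hVN
    rw [Set.iUnion_of_empty, Subgroup.closure_empty, sup_bot_eq] at hα
    have h3 : V ⊔ Subgroup.closure (symSet hn hζ H) ≤ V :=
      sup_le le_rfl ((Subgroup.closure_le _).2 hV)
    exact h3 hα
  | succ s ih =>
    intro V H h1 hV N hVN g hg x hx α hα
    have h2 := ih (V ⊔ Subgroup.closure (symSet hn hζ (H ⊔ Subgroup.closure (Set.range (x 0)))))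
      (H ⊔ Subgroup.closure (Set.range (x 0))) (le_sup_left (a := H) h1)
      (fun c hc => le_sup_right (a := V) (Subgroup.subset_closure hc)) (g 0 + N)
      (fun β hβ => block_len hn hζ hp hpe V H h1 hV N hVN (hg 0) (x 0) (hx 0) β hβ)
      (fun i => g i.succ) (fun i => hg i.succ) (fun i => x i.succ)
      (fun i => (hx i.succ).mono le_sup_left le_sup_left) α ?_
    · rw [Fin.sum_univ_succ]
      have e : N + (g 0 + ∑ i : Fin s, g i.succ) = g 0 + N + ∑ i : Fin s, g i.succ := by ring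
      rw [e]
      exact h2
    · refine sup_le_sup le_sup_left (Subgroup.closure_mono (symSet_mono hn hζ ?_)) hα
      rw [sup_assoc, ← Subgroup.closure_union]
      refine sup_le_sup le_rfl (Subgroup.closure_mono ?_)
      refine Set.iUnion_subset fun i => ?_
      refine Fin.cases ?_ (fun j => ?_) i
      · exact Set.subset_union_left
      · exact (Set.subset_iUnion (fun j : Fin s => Set.range (x j.succ)) j).trans
          Set.subset_union_right

/-- the real multiplication block -/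
theorem rm_len {p : ℕ} [Fact p.Prime] (hn : 0 < p) {ζ : K} (hζ : IsPrimitiveRoot ζ p) (i : K)
    (hi : i ^ p = -1) {g : ℕ} (hg : 0 < g) (x : Fin (2 * g) → Kˣ) {O : Type*} [CommRing O]
    [IsReduced O] [Algebra (ZMod p) O] (hO : Module.finrank (ZMod p) O = g)
    (ρ : O →ₐ[ZMod p] Matrix (Fin (2 * g)) (Fin (2 * g)) (ZMod p)) (hρ : Function.Injective ρ)
    (E : Matrix (Fin (2 * g)) (Fin (2 * g)) (ZMod p)) (hE : E.det ≠ 0)
    (hrel : ∀ a : O, ∃ N : Matrix (Fin (2 * g)) (Fin (2 * g)) (ZMod p),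
      N - N.transpose = E * ρ a ∧ linHom (sx hn hζ x) (sx_tors hn hζ x) N = 0)
    (α : BrauerGroup.{u, u} K)
    (hα : α ∈ Subgroup.closure {γ | ∃ j k, γ = symCl hn hζ (x j) (x k)}) :
    SymLen hn hζ α (g - 1) := by
  haveI : Module.Finite (ZMod p) O := Module.finite_of_finrank_pos (by rw [hO]; exact hg)
  haveI : Finite O := Module.finite_of_finite (ZMod p)
  set f := linHom (sx hn hζ x) (sx_tors hn hζ x) with hf
  have hmem : Additive.ofMul α ∈ f.range := by
    rw [hf, linHom_range]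
    have h1 : AddSubgroup.closure {b | ∃ j k, b = sx hn hζ x j k} =
        (Subgroup.closure {γ | ∃ j k, γ = symCl hn hζ (x j) (x k)}).toAddSubgroup := by
      rw [Subgroup.toAddSubgroup_closure]
      rfl
    rw [h1]
    exact hα
  obtain ⟨M, hM⟩ := hmem
  choose N hN hN1 using hrel
  obtain ⟨v, hv, a, ha⟩ := exists_kernel (ι := Fin (2 * g)) (N := N) p hρ hN hE
    (by rw [Fintype.card_fin, hO]) (by rw [hO]; exact hg) M
  obtain ⟨U, W, h⟩ := few_symbols (sg_skew hn hζ) (sg_alt hn hζ i hi) (sg_tors hn hζ)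
    (fun l => Additive.ofMul (x l)) (Fintype.card_fin _) (M + N a) hv ha
  have h1 : Additive.ofMul α = ∑ l, sg hn hζ (U l) (W l) := by
    rw [← h, ← hM]
    have h2 := map_add f M (N a)
    rw [hN1 a, add_zero] at h2
    exact h2.symm
  have h4 : α = ∏ l, symCl hn hζ (U l).toMul (W l).toMul :=
    (congrArg Additive.toMul h1).trans (toMul_sum _ _)
  rw [h4]
  exact symLen_prod hn hζ _ _

/-- symbols with entries in a generated subgroup -/
lemma symSet_closure (hn : 0 < n) (hζ : IsPrimitiveRoot ζ n) (V : Subgroup (BrauerGroup.{u, u} K))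
    (S : Set Kˣ) (h : ∀ a ∈ S, ∀ b ∈ S, symCl hn hζ a b ∈ V) :
    symSet hn hζ (Subgroup.closure S) ⊆ V := by
  rintro _ ⟨a, ha, b, hb, rfl⟩
  have h1 : ∀ a ∈ S, ∀ b ∈ Subgroup.closure S, symCl hn hζ a b ∈ V := by
    intro a ha b hb
    induction hb using Subgroup.closure_induction with
    | mem b hb => exact h a ha b hb
    | one => rw [symCl_one_right]; exact V.one_mem
    | mul b c _ _ hb hc => rw [symCl_mul_right]; exact V.mul_mem hb hc
    | inv b _ hb =>
      have h2 : symCl hn hζ a b⁻¹ = (symCl hn hζ a b)⁻¹ := by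
        rw [eq_inv_iff_mul_eq_one, ← symCl_mul_right, inv_mul_cancel, symCl_one_right]
      rw [h2]; exact V.inv_mem hb
  induction ha using Subgroup.closure_induction with
  | mem a ha => exact h1 a ha b hb
  | one => rw [symCl_one_left]; exact V.one_mem
  | mul a c _ _ ha hc => rw [symCl_mul_left]; exact V.mul_mem ha hc
  | inv a _ ha =>
    have h2 : symCl hn hζ a⁻¹ b = (symCl hn hζ a b)⁻¹ := by
      rw [eq_inv_iff_mul_eq_one, ← symCl_mul_left, inv_mul_cancel, symCl_one_left]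
    rw [h2]; exact V.inv_mem ha

/-- symbols with `-1` vanish if `-1` is an `n`-th power -/
lemma symCl_neg_one (hn : 0 < n) (hζ : IsPrimitiveRoot ζ n) (i : K) (hi : i ^ n = -1) (a : Kˣ) :
    symCl hn hζ a (-1) = 1 := by
  have hi0 : i ≠ 0 := by
    rintro rfl
    rw [zero_pow hn.ne'] at hi
    exact one_ne_zero (neg_eq_zero.1 hi.symm)
  have h1 : (-1 : Kˣ) = (Units.mk0 i hi0) ^ n := by
    ext
    rw [Units.val_pow_eq_pow_val, Units.val_mk0, hi]
    simp
  have h3 : sg hn hζ (Additive.ofMul a) (Additive.ofMul ((Units.mk0 i hi0) ^ n)) = 0 := by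
    rw [ofMul_pow, map_nsmul]
    exact congrArg Additive.ofMul (symCl_pow hn hζ a _)
  rw [h1]
  exact h3

end Pool.Agent.TH439.PI
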