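import Pool.Agent.TH439.PI11

/-! Base blocks: real multiplication, and polarized blocks of two elements. -/

set_option autoImplicit false
set_option linter.all false

open scoped TensorProduct

noncomputable section

namespace Pool.Agent.TH439.PI

open Pool.Agent.Helper18.Br Pool.Agent.H552R3.SymBr Pool.Agent.H552R3.SymPred Pool.Agent.Helper346.Bra

universe u

variable {K : Type u} [Field K] {n : ℕ} {ζ : K}

lemma val_cast_smul {B : Type*} [AddCommGroup B] {p : ℕ} [Fact p.Prime] {s : B} (hs : p • s = 0)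
    (z : ℤ) : (z : ZMod p).val • s = z • s := by
  have h1 : (((z : ZMod p).val : ℤ)) = z % p := ZMod.val_intCast z
  rw [← natCast_zsmul, h1]
  conv_rhs => rw [← Int.emod_add_mul_ediv z p, add_smul, mul_comm (p : ℤ), mul_smul, natCast_zsmul,
    hs, smul_zero, add_zero]

/-- the real multiplication block, with integral relations -/
theorem rm_len' {p : ℕ} [Fact p.Prime] (hnp : n = p) (hn : 0 < n) (hζ : IsPrimitiveRoot ζ n) (i : K)
    (hi : i ^ n = -1) {g : ℕ} (hg : 0 < g) (x : Fin (2 * g) → Kˣ) {O : Type*} [CommRing O]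
    [IsReduced O] [Algebra (ZMod p) O] (hO : Module.finrank (ZMod p) O = g)
    (ρ : O →ₐ[ZMod p] Matrix (Fin (2 * g)) (Fin (2 * g)) (ZMod p)) (hρ : Function.Injective ρ)
    (E : Matrix (Fin (2 * g)) (Fin (2 * g)) (ZMod p)) (hE : E.det ≠ 0)
    (hrel : ∀ a : O, ∃ N : Matrix (Fin (2 * g)) (Fin (2 * g)) ℤ,
      (N - N.transpose).map (fun z : ℤ => (z : ZMod p)) = E * ρ a ∧
        ∏ j, ∏ k, symCl hn hζ (x j) (x k) ^ N j k = 1)
    (α : BrauerGroup.{u, u} K)
    (hα : α ∈ Subgroup.closure {γ | ∃ j k, γ = symCl hn hζ (x j) (x k)}) :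
    SymLen hn hζ α (g - 1) := by
  subst hnp
  refine rm_len hn hζ i hi hg x hO ρ hρ E hE (fun a => ?_) α hα
  obtain ⟨N, h1, h2⟩ := hrel a
  refine ⟨N.map (fun z : ℤ => (z : ZMod n)), ?_, ?_⟩
  · rw [← h1]
    ext j k
    simp only [Matrix.sub_apply, Matrix.map_apply, Matrix.transpose_apply, Int.cast_sub]
  · have h3 := congrArg Additive.ofMul h2
    rw [ofMul_prod] at h3
    have h4 : ∀ j, Additive.ofMul (∏ k, symCl hn hζ (x j) (x k) ^ N j k) =
        ∑ k, N j k • sx hn hζ x j k := by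
      intro j
      rw [ofMul_prod]
      exact Finset.sum_congr rfl fun k _ => by rw [ofMul_zpow]; rfl
    simp only [h4] at h3
    rw [linHom_apply]
    refine Eq.trans ?_ h3
    refine Finset.sum_congr rfl fun j _ => Finset.sum_congr rfl fun k _ => ?_
    rw [Matrix.map_apply, val_cast_smul (sx_tors hn hζ x j k)]

lemma symCl_self (hn : 0 < n) (hζ : IsPrimitiveRoot ζ n) (i : K) (hi : i ^ n = -1) (a : Kˣ) :
    symCl hn hζ a a = 1 := by
  rcases symCl_diag hn hζ a with h | h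
  · exact h
  · rw [h, symCl_neg_one hn hζ i hi]

/-- a polarized block of two elements -/
theorem pol_two {p e : ℕ} (hp : p.Prime) (hn : 0 < p ^ e) (hζ : IsPrimitiveRoot ζ (p ^ e)) (i : K)
    (hi : i ^ (p ^ e) = -1) {m : ℕ} (hm : m = 2) (x : Fin m → Kˣ) (N : Matrix (Fin m) (Fin m) ℤ)
    (hN : ¬ (p : ℤ) ∣ (N - N.transpose).det)
    (hrel : ∏ j, ∏ k, symCl hn hζ (x j) (x k) ^ N j k = 1) (j k : Fin m) :
    symCl hn hζ (x j) (x k) = 1 := by
  subst hm
  set c := symCl hn hζ (x 0) (x 1) with hc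
  have h10 : symCl hn hζ (x 1) (x 0) = c⁻¹ := symCl_anti hn hζ _ _
  have h1 : c ^ (N 0 1 - N 1 0) = 1 := by
    rw [Fin.prod_univ_two, Fin.prod_univ_two, Fin.prod_univ_two, symCl_self hn hζ i hi,
      symCl_self hn hζ i hi, one_zpow, one_zpow, one_mul, mul_one, h10, ← hc, inv_zpow,
      ← zpow_neg, ← zpow_add] at hrel
    rw [sub_eq_add_neg]
    exact hrel
  have h2 : ¬ (p : ℤ) ∣ (N 0 1 - N 1 0) := by
    intro h
    apply hN
    rw [Matrix.det_fin_two]
    simp only [Matrix.sub_apply, Matrix.transpose_apply, sub_self, zero_mul, zero_sub]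
    exact (dvd_neg.2 (h.mul_right _))
  have h3 : c ^ (p ^ e) = 1 := symCl_pow hn hζ _ _
  have h4 : IsCoprime ((p : ℤ) ^ e) (N 0 1 - N 1 0) :=
    ((Nat.prime_iff_prime_int.1 hp).coprime_iff_not_dvd.2 h2).pow_left
  obtain ⟨a, b, hab⟩ := h4
  have h5 : c = 1 := by
    have h6 : c ^ (a * (p : ℤ) ^ e + b * (N 0 1 - N 1 0)) = 1 := by
      rw [zpow_add, mul_comm a, mul_comm b, zpow_mul, zpow_mul, h1, one_zpow, mul_one]
      have h7 : c ^ ((p : ℤ) ^ e) = 1 := by
        have : ((p : ℤ) ^ e) = ((p ^ e : ℕ) : ℤ) := by push_cast; rfl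
        rw [this, zpow_natCast, h3]
      rw [h7, one_zpow]
    rwa [hab, zpow_one] at h6
  fin_cases j <;> fin_cases k
  · exact symCl_self hn hζ i hi _
  · exact h5
  · change symCl hn hζ (x 1) (x 0) = 1
    rw [h10, h5, inv_one]
  · exact symCl_self hn hζ i hi _

end Pool.Agent.TH439.PI
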