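import Pool.Agent.TH439.PI1

/-! Sums of symbols: completing squares for a nondegenerate alternating form. -/

set_option autoImplicit false

namespace Pool.Agent.TH439.PI

variable {X B : Type*} [AddCommGroup X] [AddCommGroup B]

/-- the formal properties of symbols: bilinear, skew, killed by `n`, with values in `V` on `H` -/
structure Sys (σ : X →+ X →+ B) (V : AddSubgroup B) (H : AddSubgroup X) (n : ℕ) : Prop where
  skew : ∀ a b, σ a b = -σ b a
  diag : ∀ a, ∃ h ∈ H, σ a a = σ a h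
  tors : ∀ a b, (n : ℤ) • σ a b = 0
  sub : ∀ a ∈ H, ∀ b ∈ H, σ a b ∈ V

section basic

variable (σ : X →+ X →+ B)

lemma s_add (a b c : X) : σ (a + b) c = σ a c + σ b c := by rw [map_add]; rfl

lemma s_sub (a b c : X) : σ (a - b) c = σ a c - σ b c := by rw [map_sub]; rfl

lemma s_smul (k : ℤ) (a c : X) : σ (k • a) c = k • σ a c := by rw [map_zsmul]; rfl

lemma s_sum {ι : Type*} (S : Finset ι) (f : ι → X) (c : X) :
    σ (∑ l ∈ S, f l) c = ∑ l ∈ S, σ (f l) c := by
  rw [map_sum, AddMonoidHom.finsetSum_apply]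

end basic

/-- the sum of symbols given by the coefficients `A` and the matrix `M` -/
def E (σ : X →+ X →+ B) {ι : Type*} (x : ι → X) (S : Finset ι) (A : ι → X) (M : ι → ι → ℤ) : B :=
  ∑ l ∈ S, σ (x l) (A l) + ∑ l ∈ S, ∑ m ∈ S, M l m • σ (x l) (x m)

/-- the alternating part of `M` is nondegenerate modulo `p` on `S` -/
def ND {ι : Type*} (p : ℕ) (S : Finset ι) (M : ι → ι → ℤ) : Prop :=
  ∀ v : ι → ZMod p, (∀ l ∈ S, ∑ m ∈ S, ((M l m - M m l : ℤ) : ZMod p) * v m = 0) →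
    ∀ m ∈ S, v m = 0

variable {σ : X →+ X →+ B} {V : AddSubgroup B} {H : AddSubgroup X} {n : ℕ}
  {ι : Type*} [DecidableEq ι]

lemma sum_split {C : Type*} [AddCommMonoid C] {S : Finset ι} {i j : ι} (hi : i ∈ S) (hj : j ∈ S)
    (hij : j ≠ i) (f : ι → C) :
    ∑ l ∈ S, f l = f i + (f j + ∑ l ∈ (S.erase i).erase j, f l) := by
  rw [Finset.add_sum_erase (S.erase i) f (Finset.mem_erase.2 ⟨hij, hj⟩),
    Finset.add_sum_erase S f hi]

lemma exists_pivot {p : ℕ} [Fact p.Prime] {S : Finset ι} {M : ι → ι → ℤ} (h : ND p S M)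
    {i : ι} (hi : i ∈ S) : ∃ j ∈ S, j ≠ i ∧ ¬ (p : ℤ) ∣ (M i j - M j i) := by
  by_contra hcon
  push Not at hcon
  have h1 : ∀ j ∈ S, ((M i j - M j i : ℤ) : ZMod p) = 0 := by
    intro j hj
    by_cases hji : j = i
    · subst hji; simp
    · exact (ZMod.intCast_zmod_eq_zero_iff_dvd _ p).2 (hcon j hj hji)
  have h2 := h (Pi.single i 1) (fun l hl => by
    rw [Finset.sum_eq_single i]
    · rw [Pi.single_eq_same, mul_one, ← neg_sub, Int.cast_neg, h1 l hl, neg_zero]
    · intro m _ hm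
      rw [Pi.single_eq_of_ne hm, mul_zero]
    · intro h'; exact absurd hi h') i hi
  rw [Pi.single_eq_same] at h2
  exact one_ne_zero h2

/-- the new matrix after the elimination of the indices `i, j` -/
def red (M : ι → ι → ℤ) (i j : ι) (u : ℤ) : ι → ι → ℤ :=
  fun l m => M l m - u * (M i l - M l i) * (M j m - M m j)

omit [DecidableEq ι] in
lemma red_sub (M : ι → ι → ℤ) (i j : ι) (u : ℤ) (l m : ι) : red M i j u l m - red M i j u m l =
    (M l m - M m l) - u * ((M i l - M l i) * (M j m - M m j) - (M i m - M m i) * (M j l - M l j)) := by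
  unfold red; ring

lemma nd_red {p : ℕ} {S : Finset ι} {M : ι → ι → ℤ} (h : ND p S M)
    {i j : ι} (hi : i ∈ S) (hj : j ∈ S) (hij : j ≠ i) {u : ℤ}
    (hu : (p : ℤ) ∣ (M i j - M j i) * u - 1) : ND p ((S.erase i).erase j) (red M i j u) := by
  set S' := (S.erase i).erase j with hS'
  intro v hv
  have hu' : ((M i j : ZMod p) - M j i) * u = 1 := by
    have h1 := (ZMod.intCast_zmod_eq_zero_iff_dvd _ p).2 hu
    push_cast at h1
    linear_combination h1
  have hiS : i ∉ S' := by simp [hS']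
  have hjS : j ∉ S' := by simp [hS']
  set r : ZMod p := ∑ m ∈ S', ((M i m : ZMod p) - M m i) * v m with hr
  set q : ZMod p := ∑ m ∈ S', ((M j m : ZMod p) - M m j) * v m with hq
  let w : ι → ZMod p := fun m => if m = i then u * q else if m = j then -(u * r) else v m
  have hwi : w i = u * q := by simp [w]
  have hwj : w j = -(u * r) := by simp [w, hij]
  have hwS : ∀ m ∈ S', w m = v m := by
    intro m hm
    have h1 : m ≠ i := fun h => hiS (h ▸ hm)
    have h2 : m ≠ j := fun h => hjS (h ▸ hm)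
    simp [w, h1, h2]
  have hsum : ∀ l, ∑ m ∈ S, ((M l m - M m l : ℤ) : ZMod p) * w m =
      ((M l i : ZMod p) - M i l) * (u * q) + (((M l j : ZMod p) - M j l) * (-(u * r)) +
        ∑ m ∈ S', ((M l m : ZMod p) - M m l) * v m) := by
    intro l
    rw [sum_split hi hj hij, hwi, hwj]
    push_cast
    congr 2
    exact Finset.sum_congr rfl fun m hm => by rw [hwS m hm]
  have hw := h w (fun l hl => by
    rw [hsum]
    by_cases hli : l = i
    · subst hli
      rw [← hr]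
      linear_combination -r * hu'
    by_cases hlj : l = j
    · subst hlj
      rw [← hq]
      linear_combination -q * hu'
    have hl' : l ∈ S' := by simp [hS', hli, hlj, hl]
    have h1 := hv l hl'
    have h2 : ∑ m ∈ S', ((red M i j u l m - red M i j u m l : ℤ) : ZMod p) * v m =
        ∑ m ∈ S', ((M l m : ZMod p) - M m l) * v m - u * (((M i l : ZMod p) - M l i) * q -
          ((M j l : ZMod p) - M l j) * r) := by
      rw [hr, hq, Finset.mul_sum, Finset.mul_sum, ← Finset.sum_sub_distrib, Finset.mul_sum,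
        ← Finset.sum_sub_distrib]
      refine Finset.sum_congr rfl fun m _ => ?_
      rw [red_sub]
      push_cast
      ring
    rw [h2] at h1
    linear_combination h1)
  intro m hm
  rw [← hwS m hm]
  exact hw m (Finset.mem_of_mem_erase (Finset.mem_of_mem_erase hm))

/-- first step: the terms with `i` and `j` are two symbols -/
lemma E_split (hs : Sys σ V H n) (x : ι → X) {S : Finset ι} {i j : ι} (hi : i ∈ S) (hj : j ∈ S)
    (hij : j ≠ i) (A : ι → X) (M : ι → ι → ℤ) {hi' hj' : X} (hhi : σ (x i) (x i) = σ (x i) hi')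
    (hhj : σ (x j) (x j) = σ (x j) hj') :
    E σ x S A M = σ (x i) (A i + M i i • hi' + (M i j - M j i) • x j +
        ∑ m ∈ (S.erase i).erase j, (M i m - M m i) • x m) +
      σ (x j) (A j + M j j • hj' + ∑ m ∈ (S.erase i).erase j, (M j m - M m j) • x m) +
      E σ x ((S.erase i).erase j) A M := by
  set S' := (S.erase i).erase j with hS'
  unfold E
  rw [sum_split hi hj hij (fun l => σ (x l) (A l)),
    sum_split hi hj hij (fun l => ∑ m ∈ S, M l m • σ (x l) (x m)),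
    sum_split hi hj hij (fun m => M i m • σ (x i) (x m)),
    sum_split hi hj hij (fun m => M j m • σ (x j) (x m))]
  have h1 : ∑ l ∈ S', ∑ m ∈ S, M l m • σ (x l) (x m) =
      ∑ l ∈ S', M l i • σ (x l) (x i) + (∑ l ∈ S', M l j • σ (x l) (x j) +
        ∑ l ∈ S', ∑ m ∈ S', M l m • σ (x l) (x m)) := by
    rw [← Finset.sum_add_distrib, ← Finset.sum_add_distrib]
    exact Finset.sum_congr rfl fun l _ => sum_split hi hj hij _
  rw [← hS', h1]
  have h2 : ∀ k, ∑ l ∈ S', M l k • σ (x l) (x k) = -∑ l ∈ S', M l k • σ (x k) (x l) := by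
    intro k
    rw [← Finset.sum_neg_distrib]
    refine Finset.sum_congr rfl fun l _ => ?_
    rw [hs.skew (x l) (x k), smul_neg]
  have h3 : ∀ k, σ (x k) (∑ m ∈ S', (M k m - M m k) • x m) =
      ∑ m ∈ S', M k m • σ (x k) (x m) - ∑ m ∈ S', M m k • σ (x k) (x m) := by
    intro k
    rw [map_sum, ← Finset.sum_sub_distrib]
    refine Finset.sum_congr rfl fun m _ => ?_
    rw [map_zsmul, sub_smul]
  rw [h2 i, h2 j, map_add, map_add, map_add, map_add, map_add, h3, h3, map_zsmul,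
    map_zsmul, map_zsmul, ← hhi, ← hhj, hs.skew (x j) (x i), sub_smul, smul_neg]
  abel

lemma smul_cancel (hs : Sys σ V H n) {d u : ℤ} (h : (n : ℤ) ∣ d * u - 1) (a b : X) :
    σ (d • a) (u • b) = σ a b := by
  obtain ⟨k, hk⟩ := h
  rw [s_smul, map_zsmul, smul_smul]
  have : d * u = k * n + 1 := by linarith
  rw [this, add_smul, one_smul, mul_smul, hs.tors, smul_zero, zero_add]

omit [DecidableEq ι] in
lemma pair_expand (x : ι → X) (S : Finset ι) (r q : ι → ℤ) (y ρ : X) :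
    σ (y + ∑ m ∈ S, r m • x m) (ρ + ∑ m ∈ S, q m • x m) =
      σ y ρ + ∑ m ∈ S, q m • σ y (x m) + ∑ l ∈ S, r l • σ (x l) ρ +
      ∑ l ∈ S, ∑ m ∈ S, (r l * q m) • σ (x l) (x m) := by
  rw [s_add, map_add, map_add, s_sum, s_sum, map_sum]
  have e1 : ∑ l ∈ S, σ (r l • x l) (∑ m ∈ S, q m • x m) =
      ∑ l ∈ S, ∑ m ∈ S, (r l * q m) • σ (x l) (x m) := by
    refine Finset.sum_congr rfl fun l _ => ?_
    rw [s_smul, map_sum, Finset.smul_sum]
    refine Finset.sum_congr rfl fun m _ => ?_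
    rw [map_zsmul, smul_smul]
  have e2 : ∑ l ∈ S, σ (r l • x l) ρ = ∑ l ∈ S, r l • σ (x l) ρ :=
    Finset.sum_congr rfl fun l _ => s_smul σ _ _ _
  have e3 : ∑ m ∈ S, σ y (q m • x m) = ∑ m ∈ S, q m • σ y (x m) :=
    Finset.sum_congr rfl fun m _ => map_zsmul _ _ _
  rw [e1, e2, e3]
  abel

/-- second step: elimination -/
lemma E_elim (hs : Sys σ V H n) (x : ι → X) {S : Finset ι} {i j : ι} (hi : i ∈ S) (hj : j ∈ S)
    (hij : j ≠ i) (A : ι → X) (hA : ∀ l, A l ∈ H) (M : ι → ι → ℤ) {u : ℤ}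
    (hu : (n : ℤ) ∣ (M i j - M j i) * u - 1) :
    ∃ (U W : X) (A' : ι → X) (γ : B), (∀ l, A' l ∈ H) ∧ γ ∈ V ∧
      E σ x S A M = σ U W + (γ + E σ x ((S.erase i).erase j) A' (red M i j u)) := by
  obtain ⟨hi', hiH, hhi⟩ := hs.diag (x i)
  obtain ⟨hj', hjH, hhj⟩ := hs.diag (x j)
  set S' := (S.erase i).erase j with hS'
  set y₀ : X := A i + M i i • hi' with hy₀
  set ρ₀ : X := A j + M j j • hj' with hρ₀
  have hy₀H : y₀ ∈ H := H.add_mem (hA i) (H.zsmul_mem hiH _)
  have hρ₀H : ρ₀ ∈ H := H.add_mem (hA j) (H.zsmul_mem hjH _)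
  set r : ι → ℤ := fun m => M i m - M m i with hr
  set q : ι → ℤ := fun m => M j m - M m j with hq
  set Y : X := y₀ + ∑ m ∈ S', r m • x m with hY
  set R : X := ρ₀ + ∑ m ∈ S', q m • x m with hR
  set d : ℤ := M i j - M j i with hd
  set W : X := y₀ + d • x j + ∑ m ∈ S', r m • x m with hW
  have h1 : E σ x S A M = σ (x i) W + σ (x j) R + E σ x S' A M :=
    E_split hs x hi hj hij A M hhi hhj
  have h2 : σ (x j) R = σ (d • x j) (u • R) := (smul_cancel hs hu _ _).symm
  have h3 : d • x j = W - Y := by rw [hW, hY]; abel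
  refine ⟨x i - u • R, W, fun m => A m + (u * q m) • y₀ - (u * r m) • ρ₀, -(u • σ y₀ ρ₀),
    fun l => H.sub_mem (H.add_mem (hA l) (H.zsmul_mem hy₀H _)) (H.zsmul_mem hρ₀H _),
    V.neg_mem (V.zsmul_mem (hs.sub _ hy₀H _ hρ₀H) _), ?_⟩
  have h4 : σ Y R = σ y₀ ρ₀ + ∑ m ∈ S', q m • σ y₀ (x m) + ∑ l ∈ S', r l • σ (x l) ρ₀ +
      ∑ l ∈ S', ∑ m ∈ S', (r l * q m) • σ (x l) (x m) := pair_expand x S' r q y₀ ρ₀
  have h5 : E σ x S' (fun m => A m + (u * q m) • y₀ - (u * r m) • ρ₀) (red M i j u) =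
      E σ x S' A M - (∑ m ∈ S', (u * q m) • σ y₀ (x m) + ∑ l ∈ S', (u * r l) • σ (x l) ρ₀ +
        ∑ l ∈ S', ∑ m ∈ S', (u * (r l * q m)) • σ (x l) (x m)) := by
    unfold E
    have e1 : ∀ l, σ (x l) (A l + (u * q l) • y₀ - (u * r l) • ρ₀) =
        σ (x l) (A l) - (u * q l) • σ y₀ (x l) - (u * r l) • σ (x l) ρ₀ := by
      intro l
      rw [map_sub, map_add, map_zsmul, map_zsmul, hs.skew (x l) y₀, smul_neg]
      abel
    have e2 : ∀ l m, red M i j u l m • σ (x l) (x m) =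
        M l m • σ (x l) (x m) - (u * (r l * q m)) • σ (x l) (x m) := by
      intro l m
      rw [← sub_smul]
      congr 1
      simp only [red, hr, hq]
      ring
    simp only [e1, e2, Finset.sum_sub_distrib]
    abel
  rw [h1, h2, h3, s_sub, h5, s_sub, s_smul, map_zsmul, map_zsmul, h4, smul_add, smul_add, smul_add,
    hs.skew W R, smul_neg]
  have e1 : ∑ m ∈ S', (u * q m) • σ y₀ (x m) = u • ∑ m ∈ S', q m • σ y₀ (x m) := by
    rw [Finset.smul_sum]; exact Finset.sum_congr rfl fun m _ => by rw [mul_smul]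
  have e2 : ∑ m ∈ S', (u * r m) • σ (x m) ρ₀ = u • ∑ m ∈ S', r m • σ (x m) ρ₀ := by
    rw [Finset.smul_sum]; exact Finset.sum_congr rfl fun m _ => by rw [mul_smul]
  have e3 : ∑ l ∈ S', ∑ m ∈ S', (u * (r l * q m)) • σ (x l) (x m) =
      u • ∑ l ∈ S', ∑ m ∈ S', (r l * q m) • σ (x l) (x m) := by
    rw [Finset.smul_sum]
    refine Finset.sum_congr rfl fun l _ => ?_
    rw [Finset.smul_sum]; exact Finset.sum_congr rfl fun m _ => by rw [mul_smul]
  rw [e1, e2, e3]
  abel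

lemma exists_inv {p : ℕ} (hp : p.Prime) (e : ℕ) {d : ℤ} (hd : ¬ (p : ℤ) ∣ d) :
    ∃ u : ℤ, ((p ^ e : ℕ) : ℤ) ∣ d * u - 1 ∧ (p : ℤ) ∣ d * u - 1 := by
  have h1 : IsCoprime (p : ℤ) d := (Nat.prime_iff_prime_int.1 hp).coprime_iff_not_dvd.2 hd
  have h2 : IsCoprime ((p : ℤ) ^ (e + 1)) d := h1.pow_left
  obtain ⟨a, b, hab⟩ := h2
  refine ⟨b, ?_, ?_⟩
  · refine ⟨-(a * p), ?_⟩
    push_cast
    linear_combination hab
  · refine ⟨-(a * p ^ e), ?_⟩
    linear_combination hab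

/-- A sum of symbols with nondegenerate form in `2 g` elements is a sum of `g` symbols and an
element of `V`. -/
theorem E_length {p : ℕ} [hp : Fact p.Prime] {e : ℕ} (hs : Sys σ V H (p ^ e)) (x : ι → X) :
    ∀ (g : ℕ) (S : Finset ι), S.card = 2 * g → ∀ A : ι → X, (∀ l, A l ∈ H) → ∀ M : ι → ι → ℤ,
      ND p S M → ∃ (U W : Fin g → X) (γ : B), γ ∈ V ∧ E σ x S A M = γ + ∑ i, σ (U i) (W i) := by
  intro g
  induction g with
  | zero =>
    intro S hS A hA M hM
    have : S = ∅ := Finset.card_eq_zero.1 (by omega)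
    subst this
    exact ⟨Fin.elim0, Fin.elim0, 0, V.zero_mem, by simp [E]⟩
  | succ g ih =>
    intro S hS A hA M hM
    obtain ⟨i, hi⟩ : S.Nonempty := Finset.card_pos.1 (by omega)
    obtain ⟨j, hj, hij, hd⟩ := exists_pivot hM hi
    obtain ⟨u, hu1, hu2⟩ := exists_inv hp.out e hd
    obtain ⟨U, W, A', γ, hA', hγ, h⟩ := E_elim hs x hi hj hij A hA M hu1
    have hc : ((S.erase i).erase j).card = 2 * g := by
      rw [Finset.card_erase_of_mem (Finset.mem_erase.2 ⟨hij, hj⟩), Finset.card_erase_of_mem hi]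
      omega
    obtain ⟨U', W', γ', hγ', h'⟩ := ih _ hc A' hA' (red M i j u) (nd_red hM hi hj hij hu2)
    refine ⟨Fin.cons U U', Fin.cons W W', γ + γ', V.add_mem hγ hγ', ?_⟩
    rw [h, h', Fin.sum_univ_succ]
    simp only [Fin.cons_zero, Fin.cons_succ]
    abel

end Pool.Agent.TH439.PI
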