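import Pool.Agent.TH439.PI2
import Pool.Agent.H552R3.SymPred

/-! The index bound for blocks of elements with a nondegenerate relation between their symbols. -/

set_option autoImplicit false
set_option linter.all false

noncomputable section

namespace Pool.Agent.TH439.PI

open Pool.Agent.Helper18.Br Pool.Agent.H552R3.SymBr Pool.Agent.H552R3.SymPred

section form

variable {X B : Type*} [AddCommGroup X] [AddCommGroup B] {σ : X →+ X →+ B} {V : AddSubgroup B}
  {H : AddSubgroup X} {n : ℕ} {ι : Type*} [Fintype ι] [DecidableEq ι]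

lemma E_add (x : ι → X) (S : Finset ι) (A A' : ι → X) (M M' : ι → ι → ℤ) :
    E σ x S (A + A') (M + M') = E σ x S A M + E σ x S A' M' := by
  unfold E
  simp only [Pi.add_apply, map_add, add_smul, Finset.sum_add_distrib]
  abel

lemma E_neg (x : ι → X) (S : Finset ι) (A : ι → X) (M : ι → ι → ℤ) :
    E σ x S (-A) (-M) = -E σ x S A M := by
  unfold E
  simp only [Pi.neg_apply, map_neg, neg_smul, Finset.sum_neg_distrib, neg_add]

/-- the elements `γ + E(A, M)` -/
def T (σ : X →+ X →+ B) (V : AddSubgroup B) (H : AddSubgroup X) (x : ι → X) : AddSubgroup B where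
  carrier := {b | ∃ A : ι → X, (∀ l, A l ∈ H) ∧ ∃ M : ι → ι → ℤ, ∃ γ ∈ V,
    b = γ + E σ x Finset.univ A M}
  add_mem' := by
    rintro _ _ ⟨A, hA, M, γ, hγ, rfl⟩ ⟨A', hA', M', γ', hγ', rfl⟩
    refine ⟨A + A', fun l => H.add_mem (hA l) (hA' l), M + M', γ + γ', V.add_mem hγ hγ', ?_⟩
    rw [E_add]; abel
  zero_mem' := ⟨0, fun l => H.zero_mem, 0, 0, V.zero_mem, by simp [E]⟩
  neg_mem' := by
    rintro _ ⟨A, hA, M, γ, hγ, rfl⟩
    refine ⟨-A, fun l => H.neg_mem (hA l), -M, -γ, V.neg_mem hγ, ?_⟩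
    rw [E_neg]; abel

lemma mem_gen {x : ι → X} {a : X} (ha : a ∈ H ⊔ AddSubgroup.closure (Set.range x)) :
    ∃ h ∈ H, ∃ r : ι → ℤ, a = h + ∑ l, r l • x l := by
  let G : AddSubgroup X :=
    { carrier := {a | ∃ h ∈ H, ∃ r : ι → ℤ, a = h + ∑ l, r l • x l}
      add_mem' := by
        rintro _ _ ⟨h, hh, r, rfl⟩ ⟨h', hh', r', rfl⟩
        refine ⟨h + h', H.add_mem hh hh', r + r', ?_⟩
        simp only [Pi.add_apply, add_smul, Finset.sum_add_distrib]
        abel
      zero_mem' := ⟨0, H.zero_mem, 0, by simp⟩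
      neg_mem' := by
        rintro _ ⟨h, hh, r, rfl⟩
        refine ⟨-h, H.neg_mem hh, -r, ?_⟩
        simp only [Pi.neg_apply, neg_smul, Finset.sum_neg_distrib]
        abel }
  have h1 : H ⊔ AddSubgroup.closure (Set.range x) ≤ G := by
    refine sup_le (fun h hh => ⟨h, hh, 0, by simp⟩) ((AddSubgroup.closure_le _).2 ?_)
    rintro _ ⟨i, rfl⟩
    refine ⟨0, H.zero_mem, Pi.single i 1, ?_⟩
    rw [Finset.sum_eq_single i]
    · simp
    · intro j _ hj
      rw [Pi.single_eq_of_ne hj, zero_smul]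
    · intro h; exact absurd (Finset.mem_univ i) h
  exact h1 ha

lemma s_mem_T (hs : Sys σ V H n) {x : ι → X} {a b : X}
    (ha : a ∈ H ⊔ AddSubgroup.closure (Set.range x)) (hb : b ∈ H ⊔ AddSubgroup.closure (Set.range x)) :
    σ a b ∈ T σ V H x := by
  obtain ⟨h, hh, r, rfl⟩ := mem_gen ha
  obtain ⟨k, hk, q, rfl⟩ := mem_gen hb
  refine ⟨fun l => r l • k - q l • h, fun l => H.sub_mem (H.zsmul_mem hk _) (H.zsmul_mem hh _),
    fun l m => r l * q m, σ h k, hs.sub _ hh _ hk, ?_⟩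
  rw [pair_expand]
  unfold E
  have e1 : ∀ l, σ (x l) (r l • k - q l • h) = r l • σ (x l) k + q l • σ h (x l) := by
    intro l
    rw [map_sub, map_zsmul, map_zsmul, hs.skew (x l) h, smul_neg]
    abel
  simp only [e1, Finset.sum_add_distrib]
  abel

lemma le_T (hs : Sys σ V H n) (x : ι → X) :
    V ⊔ AddSubgroup.closure {c | ∃ a ∈ H ⊔ AddSubgroup.closure (Set.range x),
      ∃ b ∈ H ⊔ AddSubgroup.closure (Set.range x), c = σ a b} ≤ T σ V H x := by
  refine sup_le (fun γ hγ => ⟨0, fun l => H.zero_mem, 0, γ, hγ, by simp [E]⟩)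
    ((AddSubgroup.closure_le _).2 ?_)
  rintro _ ⟨a, ha, b, hb, rfl⟩
  exact s_mem_T hs ha hb

/-- A nondegenerate relation between the symbols of the `x l`: a combination with matrix `N` is a
sum of symbols with entries in `H` and an element of `V`, and `det (N - Nᵀ)` is prime to `p`. -/
def Rel (σ : X →+ X →+ B) (V : AddSubgroup B) (H : AddSubgroup X) (p : ℕ) (x : ι → X) : Prop :=
  ∃ (N : Matrix ι ι ℤ) (a : ι → X) (v : B), ¬ (p : ℤ) ∣ (N - N.transpose).det ∧ (∀ l, a l ∈ H) ∧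
    v ∈ V ∧ ∑ l, ∑ m, N l m • σ (x l) (x m) = ∑ l, σ (x l) (a l) + v

lemma Rel.mono {p : ℕ} {x : ι → X} {V' : AddSubgroup B} {H' : AddSubgroup X} (h : Rel σ V H p x)
    (hV : V ≤ V') (hH : H ≤ H') : Rel σ V' H' p x := by
  obtain ⟨N, a, v, h1, h2, h3, h4⟩ := h
  exact ⟨N, a, v, h1, fun l => hH (h2 l), hV h3, h4⟩

lemma nd_of_det {p : ℕ} [Fact p.Prime] (M : Matrix ι ι ℤ)
    (h : ¬ (p : ℤ) ∣ (M - M.transpose).det) : ND p Finset.univ (fun l m => M l m) := by
  intro v hv m _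
  have h1 : ((Int.castRingHom (ZMod p)).mapMatrix (M - M.transpose)).det ≠ 0 := by
    rw [← RingHom.map_det]
    intro h0
    exact h ((ZMod.intCast_zmod_eq_zero_iff_dvd _ p).1 h0)
  have h2 : ((Int.castRingHom (ZMod p)).mapMatrix (M - M.transpose)).mulVec v = 0 := by
    funext l
    have h3 := hv l (Finset.mem_univ l)
    rw [Matrix.mulVec, dotProduct, Pi.zero_apply, ← h3]
    rfl
  have h3 := Matrix.eq_zero_of_mulVec_eq_zero h1 h2
  rw [h3]; rfl

/-- All elements of `T` are sums of `g` symbols and an element of `V`. -/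
theorem length_le' {p : ℕ} [hp : Fact p.Prime] {e g : ℕ} (hs : Sys σ V H (p ^ e)) (hg : g < p)
    (hι : Fintype.card ι = 2 * g) (x : ι → X) (hR : Rel σ V H p x) {b : B}
    (hb : b ∈ T σ V H x) :
    ∃ (U W : Fin g → X) (γ : B), γ ∈ V ∧ b = γ + ∑ i, σ (U i) (W i) := by
  obtain ⟨A, hA, M, γ, hγ, rfl⟩ := hb
  obtain ⟨N, a, v, h1, h2, h3, h4⟩ := hR
  obtain ⟨t, ht⟩ := exists_param p g hp.out hg hι (Matrix.of M) N h1
  have h5 : E σ x Finset.univ A M =
      -(t • v) + E σ x Finset.univ (A - t • a) (fun l m => (Matrix.of M + t • N) l m) := by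
    have e1 : E σ x Finset.univ (A - t • a) (fun l m => (Matrix.of M + t • N) l m) =
        E σ x Finset.univ A M + t • (∑ l, ∑ m, N l m • σ (x l) (x m) - ∑ l, σ (x l) (a l)) := by
      unfold E
      have e2 : ∀ l, σ (x l) ((A - t • a) l) = σ (x l) (A l) - t • σ (x l) (a l) := by
        intro l
        rw [Pi.sub_apply, Pi.smul_apply, map_sub, map_zsmul]
      have e3 : ∀ l m, (Matrix.of M + t • N) l m • σ (x l) (x m) =
          M l m • σ (x l) (x m) + t • (N l m • σ (x l) (x m)) := by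
        intro l m
        rw [Matrix.add_apply, Matrix.smul_apply, Matrix.of_apply, add_smul, smul_eq_mul, mul_smul]
      simp only [e2, e3, Finset.sum_sub_distrib, Finset.sum_add_distrib, smul_sub, Finset.smul_sum]
      abel
    rw [e1, h4]
    rw [add_sub_cancel_left]
    abel
  obtain ⟨U, W, γ', hγ', h6⟩ := E_length hs x g Finset.univ (by rw [Finset.card_univ, hι])
    (A - t • a) (fun l => H.sub_mem (hA l) (H.zsmul_mem (h2 l) _)) _ (nd_of_det _ ht)
  refine ⟨U, W, γ + -(t • v) + γ', V.add_mem (V.add_mem hγ (V.neg_mem (V.zsmul_mem h3 _))) hγ', ?_⟩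
  rw [h5, h6]
  abel

end form

end Pool.Agent.TH439.PI
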