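import Pool.Agent.TH439.PI3

/-! The index bound for blocks of elements with a nondegenerate relation between their symbols:
Brauer groups. -/

set_option autoImplicit false
set_option linter.all false

open scoped TensorProduct

noncomputable section

namespace Pool.Agent.TH439.PI

open Pool.Agent.Helper18.Br Pool.Agent.H552R3.SymBr Pool.Agent.H552R3.SymPred Pool.Agent.Helper346.Bra

universe u

variable {K : Type u} [Field K] {n : ℕ} {ζ : K}

/-- the symbol as a biadditive map -/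
def sg (hn : 0 < n) (hζ : IsPrimitiveRoot ζ n) :
    Additive Kˣ →+ Additive Kˣ →+ Additive (BrauerGroup.{u, u} K) :=
  AddMonoidHom.mk' (fun a => AddMonoidHom.mk' (fun b => Additive.ofMul (symCl hn hζ a.toMul b.toMul))
      (fun b c => by rw [toMul_add, symCl_mul_right, ofMul_mul]))
    (fun a b => by
      refine AddMonoidHom.ext fun c => ?_
      change Additive.ofMul (symCl hn hζ (a + b).toMul c.toMul) =
        Additive.ofMul (symCl hn hζ a.toMul c.toMul) + Additive.ofMul (symCl hn hζ b.toMul c.toMul)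
      rw [toMul_add, symCl_mul_left, ofMul_mul])

lemma sg_apply (hn : 0 < n) (hζ : IsPrimitiveRoot ζ n) (a b : Kˣ) :
    sg hn hζ (Additive.ofMul a) (Additive.ofMul b) = Additive.ofMul (symCl hn hζ a b) := rfl

/-- symbols are killed by `n` -/
lemma symCl_pow (hn : 0 < n) (hζ : IsPrimitiveRoot ζ n) (a b : Kˣ) : symCl hn hζ a b ^ n = 1 := by
  have h1 : symCl hn hζ a b ^ n = symCl hn hζ (a ^ n) b := (map_pow (symL hn hζ b) a n).symm
  rw [h1]
  have h2 : symCl hn hζ 1 b = symCl hn hζ (a ^ n) b := by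
    refine symCl_eq_of_gens hn hζ 1 b (a ^ n) b ((a : K) • gx K n ζ ((1 : Kˣ) : K) b)
      (gy K n ζ ((1 : Kˣ) : K) b) ?_ gy_pow ?_
    · rw [smul_pow, gx_pow, Units.val_one, map_one, Units.val_pow_eq_pow_val, Algebra.algebraMap_eq_smul_one]
    · rw [mul_smul_comm, gyx, smul_mul_assoc, Algebra.algebraMap_eq_smul_one, smul_mul_assoc, one_mul,
        smul_comm]
  rw [← h2, symCl_one_left]

lemma sys (hn : 0 < n) (hζ : IsPrimitiveRoot ζ n) (V : Subgroup (BrauerGroup.{u, u} K))
    (H : Subgroup Kˣ) (h1 : (-1 : Kˣ) ∈ H) (hV : symSet hn hζ H ⊆ V) :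
    Sys (sg hn hζ) V.toAddSubgroup H.toAddSubgroup n where
  skew a b := by
    change Additive.ofMul (symCl hn hζ a.toMul b.toMul) = -Additive.ofMul (symCl hn hζ b.toMul a.toMul)
    rw [symCl_anti, ofMul_inv]
  diag a := by
    rcases symCl_diag hn hζ a.toMul with h | h
    · refine ⟨0, AddSubgroup.zero_mem _, ?_⟩
      change Additive.ofMul (symCl hn hζ a.toMul a.toMul) = sg hn hζ a 0
      rw [h, map_zero]; rfl
    · exact ⟨Additive.ofMul (-1), h1, congrArg Additive.ofMul h⟩
  tors a b := by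
    rw [natCast_zsmul]
    exact congrArg Additive.ofMul (symCl_pow hn hζ a.toMul b.toMul)
  sub a ha b hb := hV ⟨a.toMul, ha, b.toMul, hb, rfl⟩

/-- products of symbols -/
lemma hasRep_prod (hn : 0 < n) (hζ : IsPrimitiveRoot ζ n) :
    ∀ (g N : ℕ) (U W : Fin g → Kˣ) (γ : BrauerGroup.{u, u} K), HasRep γ N →
      HasRep (γ * ∏ i, symCl hn hζ (U i) (W i)) (N * n ^ g) := by
  intro g
  induction g with
  | zero => intro N U W γ h; simpa using h
  | succ g ih =>
    intro N U W γ h
    rw [Fin.prod_univ_succ, ← mul_assoc, pow_succ, mul_comm (n ^ g) n, ← mul_assoc]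
    exact ih (N * n) (fun i => U i.succ) (fun i => W i.succ) _ (h.mul (hasRep_symCl hn hζ _ _))

/-- A nondegenerate relation between the symbols of the `x l`: a product with exponents `N` is a
product of symbols with one entry in `H` and an element of `V`, and `det (N - Nᵀ)` is prime to
`p`. -/
def BlockRel (hn : 0 < n) (hζ : IsPrimitiveRoot ζ n) (V : Subgroup (BrauerGroup.{u, u} K))
    (H : Subgroup Kˣ) (p : ℕ) {m : ℕ} (x : Fin m → Kˣ) : Prop :=
  ∃ (N : Matrix (Fin m) (Fin m) ℤ) (a : Fin m → Kˣ) (v : BrauerGroup.{u, u} K),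
    ¬ (p : ℤ) ∣ (N - N.transpose).det ∧ (∀ l, a l ∈ H) ∧ v ∈ V ∧
      ∏ l, ∏ k, symCl hn hζ (x l) (x k) ^ N l k = (∏ l, symCl hn hζ (x l) (a l)) * v

lemma BlockRel.mono {hn : 0 < n} {hζ : IsPrimitiveRoot ζ n} {V V' : Subgroup (BrauerGroup.{u, u} K)}
    {H H' : Subgroup Kˣ} {p m : ℕ} {x : Fin m → Kˣ} (h : BlockRel hn hζ V H p x) (hV : V ≤ V')
    (hH : H ≤ H') : BlockRel hn hζ V' H' p x := by
  obtain ⟨N, a, v, h1, h2, h3, h4⟩ := h
  exact ⟨N, a, v, h1, fun l => hH (h2 l), hV h3, h4⟩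

lemma BlockRel.rel {hn : 0 < n} {hζ : IsPrimitiveRoot ζ n} {V : Subgroup (BrauerGroup.{u, u} K)}
    {H : Subgroup Kˣ} {p m : ℕ} {x : Fin m → Kˣ} (h : BlockRel hn hζ V H p x) :
    Rel (sg hn hζ) V.toAddSubgroup H.toAddSubgroup p (fun l => Additive.ofMul (x l)) := by
  obtain ⟨N, a, v, h1, h2, h3, h4⟩ := h
  refine ⟨N, fun l => Additive.ofMul (a l), Additive.ofMul v, h1, h2, h3, ?_⟩
  have h5 := congrArg Additive.ofMul h4
  rw [ofMul_mul, ofMul_prod, ofMul_prod] at h5
  have h6 : ∀ l, Additive.ofMul (∏ k, symCl hn hζ (x l) (x k) ^ N l k) =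
      ∑ k, N l k • sg hn hζ (Additive.ofMul (x l)) (Additive.ofMul (x k)) := by
    intro l
    rw [ofMul_prod]
    exact Finset.sum_congr rfl fun k _ => by rw [ofMul_zpow, sg_apply]
  simp only [h6] at h5
  exact h5

/-- one block -/
theorem block_index (hn : 0 < n) (hζ : IsPrimitiveRoot ζ n) {p e : ℕ} (hp : p.Prime)
    (hpe : n = p ^ e) (V : Subgroup (BrauerGroup.{u, u} K))
    (H : Subgroup Kˣ) (h1 : (-1 : Kˣ) ∈ H) (hV : symSet hn hζ H ⊆ V) (N : ℕ) (hN : 0 < N)
    (hVN : ∀ β ∈ V, IndDvd β N) {g : ℕ} (hg : g < p) (x : Fin (2 * g) → Kˣ)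
    (hx : BlockRel hn hζ V H p x) (α : BrauerGroup.{u, u} K)
    (hα : α ∈ V ⊔ Subgroup.closure (symSet hn hζ (H ⊔ Subgroup.closure (Set.range x)))) :
    IndDvd α (n ^ g * N) := by
  have : Fact p.Prime := ⟨hp⟩
  subst hpe
  have hs := sys hn hζ V H h1 hV
  let y : Fin (2 * g) → Additive Kˣ := fun l => Additive.ofMul (x l)
  -- the subgroup of elements of the form `γ + E`
  let T' : Subgroup (BrauerGroup.{u, u} K) :=
    { carrier := {α | Additive.ofMul α ∈ T (sg hn hζ) V.toAddSubgroup H.toAddSubgroup y}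
      mul_mem' := by
        intro a b ha hb
        exact (T (sg hn hζ) V.toAddSubgroup H.toAddSubgroup y).add_mem ha hb
      one_mem' := (T (sg hn hζ) V.toAddSubgroup H.toAddSubgroup y).zero_mem
      inv_mem' := by
        intro a ha
        exact (T (sg hn hζ) V.toAddSubgroup H.toAddSubgroup y).neg_mem ha }
  let G' : Subgroup Kˣ :=
    { carrier := {a | Additive.ofMul a ∈ H.toAddSubgroup ⊔ AddSubgroup.closure (Set.range y)}
      mul_mem' := by
        intro a b ha hb
        exact (H.toAddSubgroup ⊔ AddSubgroup.closure (Set.range y)).add_mem ha hb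
      one_mem' := (H.toAddSubgroup ⊔ AddSubgroup.closure (Set.range y)).zero_mem
      inv_mem' := by
        intro a ha
        exact (H.toAddSubgroup ⊔ AddSubgroup.closure (Set.range y)).neg_mem ha }
  have hG : H ⊔ Subgroup.closure (Set.range x) ≤ G' := by
    refine sup_le (fun h hh => (le_sup_left (a := H.toAddSubgroup)
      (b := AddSubgroup.closure (Set.range y))) hh) ((Subgroup.closure_le _).2 ?_)
    rintro _ ⟨i, rfl⟩
    exact (le_sup_right (a := H.toAddSubgroup) (b := AddSubgroup.closure (Set.range y)))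
      (AddSubgroup.subset_closure ⟨i, rfl⟩)
  have hle : V ⊔ Subgroup.closure (symSet hn hζ (H ⊔ Subgroup.closure (Set.range x))) ≤ T' := by
    refine sup_le (fun γ hγ => le_T hs y ((le_sup_left (a := V.toAddSubgroup)) hγ))
      ((Subgroup.closure_le _).2 ?_)
    rintro _ ⟨a, ha, b, hb, rfl⟩
    exact s_mem_T hs (hG ha) (hG hb)
  have h2 := hle hα
  obtain ⟨U, W, γ, hγ, h3⟩ := length_le' hs hg (by rw [Fintype.card_fin]) y hx.rel h2
  have h4 : α = γ.toMul * ∏ i, symCl hn hζ (U i).toMul (W i).toMul := by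
    exact (congrArg Additive.toMul h3).trans
      (congrArg (fun z : BrauerGroup.{u, u} K => γ.toMul * z) (toMul_sum _ _))
  rw [h4, mul_comm _ N]
  exact (hasRep_prod hn hζ g N _ _ _ ((hVN _ hγ).hasRep hN)).indDvd

/-- several blocks -/
theorem blocks_index (hn : 0 < n) (hζ : IsPrimitiveRoot ζ n) {p e : ℕ} (hp : p.Prime)
    (hpe : n = p ^ e) (s : ℕ) : ∀ (V : Subgroup (BrauerGroup.{u, u} K))
    (H : Subgroup Kˣ) (_ : (-1 : Kˣ) ∈ H) (_ : symSet hn hζ H ⊆ V) (N : ℕ) (_ : 0 < N)
    (_ : ∀ β ∈ V, IndDvd β N) (g : Fin s → ℕ) (_ : ∀ i, g i < p) (x : ∀ i, Fin (2 * g i) → Kˣ)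
    (_ : ∀ i, BlockRel hn hζ V H p (x i)) (α : BrauerGroup.{u, u} K)
    (_ : α ∈ V ⊔ Subgroup.closure (symSet hn hζ
      (H ⊔ Subgroup.closure (⋃ i, Set.range (x i))))), IndDvd α (n ^ (∑ i, g i) * N) := by
  induction s with
  | zero =>
    intro V H h1 hV N hN hVN g hg x hx α hα
    rw [Finset.univ_eq_empty, Finset.sum_empty, pow_zero, one_mul]
    apply hVN
    rw [Set.iUnion_of_empty, Subgroup.closure_empty, sup_bot_eq] at hα
    have h3 : V ⊔ Subgroup.closure (symSet hn hζ H) ≤ V :=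
      sup_le le_rfl ((Subgroup.closure_le _).2 hV)
    exact h3 hα
  | succ s ih =>
    intro V H h1 hV N hN hVN g hg x hx α hα
    have h2 := ih (V ⊔ Subgroup.closure (symSet hn hζ (H ⊔ Subgroup.closure (Set.range (x 0)))))
      (H ⊔ Subgroup.closure (Set.range (x 0))) (le_sup_left (a := H) h1)
      (fun c hc => le_sup_right (a := V) (Subgroup.subset_closure hc)) (n ^ g 0 * N)
      (Nat.mul_pos (pow_pos hn _) hN)
      (fun β hβ => block_index hn hζ hp hpe V H h1 hV N hN hVN (hg 0) (x 0) (hx 0) β hβ)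
      (fun i => g i.succ) (fun i => hg i.succ) (fun i => x i.succ)
      (fun i => (hx i.succ).mono le_sup_left le_sup_left) α ?_
    · rw [Fin.sum_univ_succ, pow_add]
      have e : n ^ g 0 * n ^ (∑ i : Fin s, g i.succ) * N =
        n ^ (∑ i : Fin s, g i.succ) * (n ^ g 0 * N) := by ring
      rw [e]
      exact h2
    · refine sup_le_sup le_sup_left (Subgroup.closure_mono (symSet_mono hn hζ ?_)) hα
      rw [sup_assoc, ← Subgroup.closure_union]
      refine sup_le_sup le_rfl (Subgroup.closure_mono ?_)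
      refine Set.iUnion_subset fun i => ?_
      refine Fin.cases ?_ (fun j => ?_) i
      · exact Set.subset_union_left
      · exact (Set.subset_iUnion (fun j : Fin s => Set.range (x j.succ)) j).trans
          Set.subset_union_right

end Pool.Agent.TH439.PI
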