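import Pool.Agent.H552R3.SymPred

/-! Index bounds for sums of subgroups of Brauer groups. -/

set_option autoImplicit false
set_option linter.all false

open scoped TensorProduct

noncomputable section

namespace Pool.Agent.TH439.PI

open Pool.Agent.Helper18.Br Pool.Agent.H552R3.SymBr Pool.Agent.H552R3.SymPred Pool.Agent.Helper346.Bra

universe u

variable {K : Type u} [Field K] {n : ℕ} {ζ : K}

lemma sup_index {V W : Subgroup (BrauerGroup.{u, u} K)} {N M : ℕ} (hN : 0 < N) (hM : 0 < M)
    (hV : ∀ β ∈ V, IndDvd β N) (hW : ∀ β ∈ W, IndDvd β M) :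
    ∀ β ∈ V ⊔ W, IndDvd β (N * M) := by
  intro β hβ
  obtain ⟨v, hv, w, hw, rfl⟩ := Subgroup.mem_sup.1 hβ
  exact (((hV v hv).hasRep hN).mul ((hW w hw).hasRep hM)).indDvd

lemma indDvd_one : IndDvd (1 : BrauerGroup.{u, u} K) 1 := by
  apply HasRep.indDvd
  exact ⟨K, inferInstance, inferInstance, inferInstance, inferInstance, inferInstance, rfl, by
    rw [Module.finrank_self, one_pow]⟩

lemma iSup_index (m : ℕ) : ∀ (W : Fin m → Subgroup (BrauerGroup.{u, u} K)) (M : Fin m → ℕ)
    (_ : ∀ j, 0 < M j) (_ : ∀ j, ∀ β ∈ W j, IndDvd β (M j)), ∀ β ∈ ⨆ j, W j, IndDvd β (∏ j, M j) := by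
  induction m with
  | zero =>
    intro W M hM hW β hβ
    rw [iSup_of_empty, Subgroup.mem_bot] at hβ
    subst hβ
    rw [Finset.univ_eq_empty, Finset.prod_empty]
    exact indDvd_one
  | succ m ih =>
    intro W M hM hW β hβ
    have h1 : (⨆ j, W j) ≤ W 0 ⊔ ⨆ j : Fin m, W j.succ := by
      refine iSup_le fun j => ?_
      refine Fin.cases le_sup_left (fun j => ?_) j
      exact (le_iSup (fun j : Fin m => W j.succ) j).trans le_sup_right
    rw [Fin.prod_univ_succ]
    exact sup_index (hM 0) (Finset.prod_pos fun j _ => hM j.succ) (hW 0)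
      (ih (fun j => W j.succ) (fun j => M j.succ) (fun j => hM j.succ) (fun j => hW j.succ)) β (h1 hβ)

end Pool.Agent.TH439.PI
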