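import Pool.Agent.TH439.PI3

/-! Sums of symbols with a degenerate alternating form. -/

set_option autoImplicit false
set_option linter.all false

noncomputable section

namespace Pool.Agent.TH439.PI

variable {X B : Type*} [AddCommGroup X] [AddCommGroup B] {σ : X →+ X →+ B}
  {ι : Type*} [DecidableEq ι]

/-- the converse of `nd_red` -/
lemma nd_of_red {p : ℕ} {S : Finset ι} {M : ι → ι → ℤ}
    {i j : ι} (hi : i ∈ S) (hj : j ∈ S) (hij : j ≠ i) {u : ℤ}
    (hu : (p : ℤ) ∣ (M i j - M j i) * u - 1) (h : ND p ((S.erase i).erase j) (red M i j u)) :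
    ND p S M := by
  set S' := (S.erase i).erase j with hS'
  intro v hv
  have hu' : ((M i j : ZMod p) - M j i) * u = 1 := by
    have h1 := (ZMod.intCast_zmod_eq_zero_iff_dvd _ p).2 hu
    push_cast at h1
    linear_combination h1
  set r : ZMod p := ∑ m ∈ S', ((M i m : ZMod p) - M m i) * v m with hr
  set q : ZMod p := ∑ m ∈ S', ((M j m : ZMod p) - M m j) * v m with hq
  have hsum : ∀ l ∈ S, ((M l i : ZMod p) - M i l) * v i + (((M l j : ZMod p) - M j l) * v j +
        ∑ m ∈ S', ((M l m : ZMod p) - M m l) * v m) = 0 := by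
    intro l hl
    have h1 := hv l hl
    rw [sum_split hi hj hij] at h1
    push_cast at h1
    exact h1
  have hvj : v j = -(u * r) := by
    have h1 := hsum i hi
    rw [← hr] at h1
    linear_combination (u : ZMod p) * h1 - v j * hu'
  have hvi : v i = u * q := by
    have h1 := hsum j hj
    rw [← hq] at h1
    linear_combination -(u : ZMod p) * h1 - v i * hu'
  have hv' := h v (fun l hl => by
    have h1 := hsum l (Finset.mem_of_mem_erase (Finset.mem_of_mem_erase hl))
    rw [hvi, hvj] at h1
    have h2 : ∑ m ∈ S', ((red M i j u l m - red M i j u m l : ℤ) : ZMod p) * v m =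
        ∑ m ∈ S', ((M l m : ZMod p) - M m l) * v m - u * (((M i l : ZMod p) - M l i) * q -
          ((M j l : ZMod p) - M l j) * r) := by
      rw [hr, hq, Finset.mul_sum, Finset.mul_sum, ← Finset.sum_sub_distrib, Finset.mul_sum,
        ← Finset.sum_sub_distrib]
      refine Finset.sum_congr rfl fun m _ => ?_
      rw [red_sub]
      push_cast
      ring
    rw [h2]
    linear_combination h1)
  have hr0 : r = 0 := by
    rw [hr]
    exact Finset.sum_eq_zero fun m hm => by rw [hv' m hm, mul_zero]
  have hq0 : q = 0 := by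
    rw [hq]
    exact Finset.sum_eq_zero fun m hm => by rw [hv' m hm, mul_zero]
  intro m hm
  by_cases hmi : m = i
  · rw [hmi, hvi, hq0, mul_zero]
  by_cases hmj : m = j
  · rw [hmj, hvj, hr0, mul_zero, neg_zero]
  exact hv' m (by simp [hS', hmi, hmj, hm])

/-- if the alternating part vanishes modulo `p`, the sum of symbols is zero -/
lemma E_zero {p : ℕ} (hskew : ∀ a b, σ a b = -σ b a) (halt : ∀ a, σ a a = 0)
    (htors : ∀ a b, (p : ℤ) • σ a b = 0) (x : ι → X) :
    ∀ (S : Finset ι) (M : ι → ι → ℤ), (∀ i ∈ S, ∀ j ∈ S, (p : ℤ) ∣ M i j - M j i) →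
      ∑ l ∈ S, ∑ m ∈ S, M l m • σ (x l) (x m) = 0 := by
  intro S
  induction S using Finset.induction_on with
  | empty => intro M hM; simp
  | insert i S hi ih =>
    intro M hM
    rw [Finset.sum_insert hi, Finset.sum_insert hi, halt, smul_zero, zero_add]
    have h1 : ∀ l ∈ S, ∑ m ∈ insert i S, M l m • σ (x l) (x m) =
        M l i • σ (x l) (x i) + ∑ m ∈ S, M l m • σ (x l) (x m) := fun l _ =>
      Finset.sum_insert hi
    rw [Finset.sum_congr rfl h1, Finset.sum_add_distrib, ih M (fun a ha b hb =>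
      hM a (Finset.mem_insert_of_mem ha) b (Finset.mem_insert_of_mem hb)), add_zero,
      ← Finset.sum_add_distrib]
    refine Finset.sum_eq_zero fun m hm => ?_
    obtain ⟨k, hk⟩ := hM i (Finset.mem_insert_self _ _) m (Finset.mem_insert_of_mem hm)
    rw [hskew (x m) (x i), smul_neg, ← sub_eq_add_neg, ← sub_smul, hk, mul_comm, mul_smul, htors,
      smul_zero]

/-- A sum of symbols with degenerate form in `2 g` elements is a sum of `g - 1` symbols. -/
theorem E_length_degenerate {p : ℕ} [hp : Fact p.Prime] (hskew : ∀ a b, σ a b = -σ b a)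
    (halt : ∀ a, σ a a = 0) (htors : ∀ a b, (p : ℤ) • σ a b = 0) (x : ι → X) :
    ∀ (g : ℕ) (S : Finset ι), S.card = 2 * g → ∀ M : ι → ι → ℤ,
      ¬ ND p S M → ∃ (U W : Fin (g - 1) → X),
        ∑ l ∈ S, ∑ m ∈ S, M l m • σ (x l) (x m) = ∑ i, σ (U i) (W i) := by
  have hs : Sys σ (⊥ : AddSubgroup B) (⊥ : AddSubgroup X) (p ^ 1) :=
    { skew := hskew
      diag := fun a => ⟨0, AddSubgroup.mem_bot.2 rfl, by rw [halt, map_zero]⟩
      tors := fun a b => by rw [pow_one]; exact htors a b
      sub := fun a ha b hb => by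
        rw [AddSubgroup.mem_bot] at ha
        rw [ha, map_zero, AddMonoidHom.zero_apply]
        exact AddSubgroup.mem_bot.2 rfl }
  have hE : ∀ (S : Finset ι) (A : ι → X) (M : ι → ι → ℤ), (∀ l, A l ∈ (⊥ : AddSubgroup X)) →
      E σ x S A M = ∑ l ∈ S, ∑ m ∈ S, M l m • σ (x l) (x m) := by
    intro S A M hA
    unfold E
    rw [Finset.sum_eq_zero (fun l _ => by rw [AddSubgroup.mem_bot.1 (hA l), map_zero]), zero_add]
  intro g
  induction g with
  | zero =>
    intro S hS M hM
    exfalso
    apply hM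
    have : S = ∅ := Finset.card_eq_zero.1 (by omega)
    subst this
    intro v _ m hm
    simp at hm
  | succ g ih =>
    intro S hS M hM
    by_cases hz : ∀ i ∈ S, ∀ j ∈ S, (p : ℤ) ∣ M i j - M j i
    · refine ⟨0, 0, ?_⟩
      rw [E_zero hskew halt htors x S M hz]
      simp
    · push Not at hz
      obtain ⟨i, hi, j, hj, hd⟩ := hz
      have hij : j ≠ i := by
        rintro rfl
        exact hd (by simp)
      obtain ⟨u, hu1, hu2⟩ := exists_inv hp.out 1 hd
      obtain ⟨U, W, A', γ, hA', hγ, h⟩ := E_elim hs x hi hj hij 0 (fun _ => AddSubgroup.mem_bot.2 rfl)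
        M hu1
      have hc : ((S.erase i).erase j).card = 2 * g := by
        rw [Finset.card_erase_of_mem (Finset.mem_erase.2 ⟨hij, hj⟩), Finset.card_erase_of_mem hi]
        omega
      have hM' : ¬ ND p ((S.erase i).erase j) (red M i j u) := fun h' =>
        hM (nd_of_red hi hj hij hu2 h')
      obtain ⟨U', W', h'⟩ := ih _ hc (red M i j u) hM'
      have hg : 0 < g := by
        rcases Nat.eq_zero_or_pos g with h0 | h0
        · exfalso
          apply hM'
          have : (S.erase i).erase j = ∅ := Finset.card_eq_zero.1 (by omega)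
          rw [this]
          intro v _ m hm
          simp at hm
        · exact h0
      obtain ⟨k, rfl⟩ : ∃ k, g = k + 1 := ⟨g - 1, by omega⟩
      refine ⟨(Fin.cons U U' : Fin (k + 1) → X), (Fin.cons W W' : Fin (k + 1) → X), ?_⟩
      rw [← hE S 0 M (fun _ => AddSubgroup.mem_bot.2 rfl), h, hE _ A' _ hA', h',
        AddSubgroup.mem_bot.1 hγ, zero_add]
      change _ = ∑ i : Fin (k + 1), σ ((Fin.cons U U' : Fin (k + 1) → X) i)
        ((Fin.cons W W' : Fin (k + 1) → X) i)
      rw [Fin.sum_univ_succ]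
      simp only [Fin.cons_zero, Fin.cons_succ]
      rfl

end Pool.Agent.TH439.PI
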