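import Pool.Agent.TH439.PI1

/-! Counting the matrices `M` such that `M + N` has a degenerate alternating part for some `N` in a
given set: the second moment method. -/


set_option autoImplicit false

namespace Pool.Agent.TH439.PI

open Matrix Finset

section count

variable {F : Type*} [Field F] [Fintype F] [DecidableEq F] {ι : Type*} [Fintype ι] [DecidableEq ι]

omit [Fintype F] [DecidableEq F] [DecidableEq ι] in
lemma vmv_mulVec (z u v : ι → F) : vecMulVec z u *ᵥ v = (u ⬝ᵥ v) • z := by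
  ext i
  simp only [mulVec, dotProduct, vecMulVec_apply, Pi.smul_apply, smul_eq_mul, Finset.sum_mul]
  exact Finset.sum_congr rfl fun j _ => by ring

omit [Fintype F] [DecidableEq F] [DecidableEq ι] in
lemma alt_add_vmv (M : Matrix ι ι F) (z u v : ι → F) :
    ((M + vecMulVec z u) - (M + vecMulVec z u)ᵀ) *ᵥ v =
      (M - Mᵀ) *ᵥ v + (u ⬝ᵥ v) • z - (z ⬝ᵥ v) • u := by
  have h : (vecMulVec z u)ᵀ = vecMulVec u z := by
    ext i j
    simp [vecMulVec_apply, mul_comm]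
  have h2 : (M + vecMulVec z u) - (M + vecMulVec z u)ᵀ = (M - Mᵀ) + vecMulVec z u - vecMulVec u z := by
    rw [transpose_add, h]; abel
  rw [h2, sub_mulVec, add_mulVec, vmv_mulVec, vmv_mulVec]

omit [Fintype F] [DecidableEq F] in
lemma exists_dual {v : ι → F} (hv : v ≠ 0) : ∃ u : ι → F, u ⬝ᵥ v = 1 := by
  obtain ⟨i, hi⟩ := Function.ne_iff.1 hv
  refine ⟨Pi.single i (v i)⁻¹, ?_⟩
  rw [single_dotProduct, inv_mul_cancel₀ hi]

/-- vectors orthogonal to `v` -/
def perp (v : ι → F) : Finset (ι → F) := univ.filter fun z => v ⬝ᵥ z = 0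

lemma mem_perp {v z : ι → F} : z ∈ perp v ↔ v ⬝ᵥ z = 0 := by simp [perp]

lemma card_perp {v : ι → F} (hv : v ≠ 0) :
    (perp v).card * Fintype.card F = Fintype.card F ^ Fintype.card ι := by
  obtain ⟨u, hu⟩ := exists_dual hv
  have h : ((perp v) ×ˢ (univ : Finset F)).card = (univ : Finset (ι → F)).card := by
    refine Finset.card_nbij' (fun a => a.1 + a.2 • u) (fun z => (z - (v ⬝ᵥ z) • u, v ⬝ᵥ z))
      (fun _ _ => by simp) (fun z _ => ?_) (fun a ha => ?_) (fun z _ => ?_)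
    · simp only [coe_product, Set.mem_prod, mem_coe, mem_perp, mem_univ, and_true]
      rw [dotProduct_sub, dotProduct_smul, dotProduct_comm v u, hu]
      simp
    · simp only [coe_product, Set.mem_prod, mem_coe, mem_perp] at ha
      ext1
      · simp only [dotProduct_add, dotProduct_smul, ha.1, dotProduct_comm v u, hu]
        simp
      · simp only [dotProduct_add, dotProduct_smul, ha.1, dotProduct_comm v u, hu]
        simp
    · simp
  rw [card_product, card_univ, card_univ, Fintype.card_fun] at h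
  exact h

/-- the matrices `M` with `(M - Mᵀ) v = w` -/
def fib (v w : ι → F) : Finset (Matrix ι ι F) := univ.filter fun M => (M - Mᵀ) *ᵥ v = w

lemma mem_fib {v w : ι → F} {M : Matrix ι ι F} : M ∈ fib v w ↔ (M - Mᵀ) *ᵥ v = w := by
  simp [fib]

lemma card_fib {v w : ι → F} (hv : v ≠ 0) (hw : v ⬝ᵥ w = 0) :
    (fib v w).card * (perp v).card = Fintype.card (Matrix ι ι F) := by
  obtain ⟨u, hu⟩ := exists_dual hv
  rw [← card_univ, ← card_product]
  refine Finset.card_nbij' (fun a => a.1 + vecMulVec (a.2 - w) u)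
    (fun M => (M - vecMulVec ((M - Mᵀ) *ᵥ v - w) u, (M - Mᵀ) *ᵥ v))
    (fun _ _ => by simp) (fun M _ => ?_) (fun a ha => ?_) (fun z _ => ?_)
  · simp only [coe_product, Set.mem_prod, mem_coe, mem_perp, mem_fib]
    refine ⟨?_, alt_self M v⟩
    have h := alt_add_vmv M (-((M - Mᵀ) *ᵥ v - w)) u v
    rw [neg_vecMulVec, ← sub_eq_add_neg] at h
    rw [h, hu, neg_dotProduct, sub_dotProduct, dotProduct_comm _ v, alt_self, dotProduct_comm w v, hw]
    simp
  · simp only [coe_product, Set.mem_prod, mem_coe, mem_perp, mem_fib] at ha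
    have h := alt_add_vmv a.1 (a.2 - w) u v
    rw [hu, ha.1, sub_dotProduct, dotProduct_comm _ v, ha.2, dotProduct_comm w v, hw] at h
    ext1
    · simp only [h]
      simp
    · simp only [h]
      simp
  · simp

/-- vectors orthogonal to `v` and `v'` -/
def perp2 (v v' : ι → F) : Finset (ι → F) := univ.filter fun z => v ⬝ᵥ z = 0 ∧ v' ⬝ᵥ z = 0

lemma mem_perp2 {v v' z : ι → F} : z ∈ perp2 v v' ↔ v ⬝ᵥ z = 0 ∧ v' ⬝ᵥ z = 0 := by simp [perp2]

lemma card_perp2 (v v' : ι → F) :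
    Fintype.card F ^ Fintype.card ι ≤ (perp2 v v').card * Fintype.card F ^ 2 := by
  have h := Finset.card_le_mul_card_image (f := fun z : ι → F => (v ⬝ᵥ z, v' ⬝ᵥ z)) univ
    (perp2 v v').card (fun a ha => by
      obtain ⟨z0, -, rfl⟩ := Finset.mem_image.1 ha
      refine Finset.card_le_card_of_injOn (fun z => z - z0) (fun z hz => ?_) (fun z _ z' _ h => ?_)
      · rw [mem_coe, mem_filter] at hz
        have h1 := congrArg Prod.fst hz.2
        have h2 := congrArg Prod.snd hz.2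
        simp only at h1 h2
        rw [mem_coe, mem_perp2, dotProduct_sub, dotProduct_sub, h1, h2, sub_self, sub_self]
        exact ⟨rfl, rfl⟩
      · exact sub_left_injective h)
  rw [card_univ, Fintype.card_fun] at h
  refine h.trans (Nat.mul_le_mul_left _ ?_)
  refine (Finset.card_le_univ _).trans ?_
  rw [Fintype.card_prod, sq]

omit [Fintype F] [DecidableEq F] in
lemma exists_dual2 {v v' : ι → F} (hv : v ≠ 0) (hv' : ∀ c : F, v' ≠ c • v) :
    ∃ u : ι → F, u ⬝ᵥ v = 0 ∧ u ⬝ᵥ v' = 1 := by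
  obtain ⟨w, hw⟩ := exists_dual hv
  have h1 : v' - (w ⬝ᵥ v') • v ≠ 0 := fun h => hv' _ (sub_eq_zero.1 h)
  obtain ⟨y, hy⟩ := exists_dual h1
  refine ⟨y - (y ⬝ᵥ v) • w, ?_, ?_⟩
  · rw [sub_dotProduct, smul_dotProduct, hw, smul_eq_mul, mul_one, sub_self]
  · rw [dotProduct_sub, dotProduct_smul, smul_eq_mul] at hy
    rw [sub_dotProduct, smul_dotProduct, smul_eq_mul, ← hy]
    ring

lemma card_fib2 {v v' w w' : ι → F} (hv : v ≠ 0) (hv' : ∀ c : F, v' ≠ c • v) :
    (fib v w ∩ fib v' w').card * ((perp v).card * (perp2 v v').card) ≤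
      Fintype.card (Matrix ι ι F) := by
  obtain ⟨u, hu⟩ := exists_dual hv
  obtain ⟨y, hy, hy'⟩ := exists_dual2 hv hv'
  rw [← card_univ, ← card_product, ← card_product]
  refine Finset.card_le_card_of_injOn (fun a => a.1 + vecMulVec a.2.1 u + vecMulVec a.2.2 y)
    (fun _ _ => by simp) ?_
  rintro ⟨M, z, z'⟩ ha ⟨M₂, z₂, z₂'⟩ hb h
  simp only [coe_product, Set.mem_prod, mem_coe, mem_inter, mem_perp, mem_perp2, mem_fib] at ha hb
  simp only at h
  have key : ∀ (M : Matrix ι ι F) (z z' : ι → F), (M - Mᵀ) *ᵥ v = w → v ⬝ᵥ z = 0 →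
      v ⬝ᵥ z' = 0 → ((M + vecMulVec z u + vecMulVec z' y) -
        (M + vecMulVec z u + vecMulVec z' y)ᵀ) *ᵥ v = w + z := by
    intro M z z' h1 h2 h3
    rw [alt_add_vmv, alt_add_vmv, h1, hu, hy, dotProduct_comm z v, h2, dotProduct_comm z' v, h3]
    simp
  have key' : ∀ (M : Matrix ι ι F) (z z' : ι → F), (M - Mᵀ) *ᵥ v' = w' → 
      v' ⬝ᵥ z' = 0 → ((M + vecMulVec z u + vecMulVec z' y) -
        (M + vecMulVec z u + vecMulVec z' y)ᵀ) *ᵥ v' = w' + (u ⬝ᵥ v') • z - (z ⬝ᵥ v') • u + z' := by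
    intro M z z' h1 h3
    rw [alt_add_vmv, alt_add_vmv, h1, hy', dotProduct_comm z' v', h3]
    simp
  have e1 := key M z z' ha.1.1 ha.2.1 ha.2.2.1
  have e2 := key M₂ z₂ z₂' hb.1.1 hb.2.1 hb.2.2.1
  rw [h, e2] at e1
  have hz : z = z₂ := (add_left_cancel e1).symm
  subst hz
  have e3 := key' M z z' ha.1.2 ha.2.2.2
  have e4 := key' M₂ z z₂' hb.1.2 hb.2.2.2
  rw [h, e4] at e3
  have hz' : z' = z₂' := (add_left_cancel e3).symm
  subst hz'
  have hM : M = M₂ := by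
    have := add_right_cancel (add_right_cancel h)
    exact this
  rw [hM]

/-- multiples of `v` -/
def mult (v : ι → F) : Finset (ι → F) := univ.filter fun z => ∃ c : F, z = c • v

lemma mem_mult {v z : ι → F} : z ∈ mult v ↔ ∃ c : F, z = c • v := by simp [mult]

lemma card_mult {v : ι → F} (hv : v ≠ 0) : (mult v).card = Fintype.card F := by
  rw [← card_univ]
  refine (Finset.card_nbij (fun c => c • v) (fun c _ => ?_) (fun c _ c' _ h => ?_) ?_).symm
  · exact mem_mult.2 ⟨c, rfl⟩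
  · exact smul_left_injective F hv h
  · intro z hz
    obtain ⟨c, rfl⟩ := mem_mult.1 hz
    exact ⟨c, by simp, rfl⟩

/-- the matrices `M` for which `M + N` has the vector `v` in the kernel of its alternating part -/
def Sv (v : ι → F) (N : Matrix ι ι F) : Finset (Matrix ι ι F) := fib v (-((N - Nᵀ) *ᵥ v))

lemma mem_Sv {v : ι → F} {N M : Matrix ι ι F} :
    M ∈ Sv v N ↔ ((M + N) - (M + N)ᵀ) *ᵥ v = 0 := by
  have h : (M + N) - (M + N)ᵀ = (M - Mᵀ) + (N - Nᵀ) := by rw [transpose_add]; abel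
  rw [Sv, mem_fib, h, add_mulVec, ← eq_neg_iff_add_eq_zero]

lemma card_Sv {v : ι → F} (hv : v ≠ 0) (N : Matrix ι ι F) :
    (Sv v N).card * (perp v).card = Fintype.card (Matrix ι ι F) :=
  card_fib hv (by rw [dotProduct_neg, alt_self, neg_zero])

variable {𝒱 : Finset (ι → F)} {v : ι → F}

lemma inter_le (hι : 2 ≤ Fintype.card ι) (hv : v ≠ 0) {v' : ι → F} (hv' : v' ∉ mult v)
    (N N' : Matrix ι ι F) : (Sv v N ∩ Sv v' N').card *
      ((perp v).card * Fintype.card F ^ (Fintype.card ι - 2)) ≤ Fintype.card (Matrix ι ι F) := by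
  have h1 : ∀ c : F, v' ≠ c • v := fun c h => hv' (mem_mult.2 ⟨c, h⟩)
  refine le_trans (Nat.mul_le_mul_left _ (Nat.mul_le_mul_left _ ?_)) (card_fib2 hv h1)
  have h2 := card_perp2 v v'
  have h3 : 0 < Fintype.card F := Fintype.card_pos
  have h4 : Fintype.card F ^ Fintype.card ι =
      Fintype.card F ^ (Fintype.card ι - 2) * Fintype.card F ^ 2 := by
    rw [← pow_add]; congr 1; omega
  rw [h4] at h2
  exact Nat.le_of_mul_le_mul_right h2 (pow_pos h3 2)

lemma sum_same (hι : 2 ≤ Fintype.card ι) (h𝒱 : ∀ v ∈ 𝒱, v ≠ 0) (hv : v ∈ 𝒱) (N : Matrix ι ι F) :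
    (∑ v' ∈ 𝒱, (Sv v N ∩ Sv v' N).card) *
        ((perp v).card * Fintype.card F ^ (Fintype.card ι - 2)) ≤
      Fintype.card (Matrix ι ι F) * ((Fintype.card F ^ Fintype.card ι - Fintype.card F) +
        Fintype.card F ^ (Fintype.card ι - 2) * (Fintype.card F - 1)) := by
  have hv0 := h𝒱 v hv
  rw [← Finset.sum_filter_add_sum_filter_not 𝒱 (fun v' => v' ∈ mult v), add_mul, add_comm, mul_add]
  refine add_le_add ?_ ?_
  · rw [Finset.sum_mul]
    refine (Finset.sum_le_card_nsmul _ _ _ (fun v' hv' => inter_le hι hv0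
      (Finset.mem_filter.1 hv').2 N N)).trans ?_
    rw [smul_eq_mul, mul_comm]
    refine Nat.mul_le_mul_left _ ?_
    have h1 : 𝒱.filter (fun v' => v' ∉ mult v) ⊆ univ \ mult v := by
      intro z hz
      rw [mem_sdiff]
      exact ⟨mem_univ _, (Finset.mem_filter.1 hz).2⟩
    refine (Finset.card_le_card h1).trans ?_
    rw [card_sdiff_of_subset (subset_univ _), card_mult hv0, card_univ, Fintype.card_fun]
  · have h2 : ∑ v' ∈ 𝒱.filter (fun v' => v' ∈ mult v), (Sv v N ∩ Sv v' N).card ≤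
        (Fintype.card F - 1) * (Sv v N).card := by
      refine (Finset.sum_le_card_nsmul _ _ _ (fun v' hv' =>
        Finset.card_le_card (Finset.inter_subset_left))).trans ?_
      rw [smul_eq_mul]
      refine Nat.mul_le_mul_right _ ?_
      have h1 : 𝒱.filter (fun v' => v' ∈ mult v) ⊆ (mult v).erase 0 := by
        intro z hz
        rw [mem_erase]
        exact ⟨h𝒱 z (Finset.mem_filter.1 hz).1, (Finset.mem_filter.1 hz).2⟩
      refine (Finset.card_le_card h1).trans ?_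
      rw [card_erase_of_mem (mem_mult.2 ⟨0, (zero_smul F v).symm⟩), card_mult hv0]
    refine (Nat.mul_le_mul_right _ h2).trans (le_of_eq ?_)
    rw [← card_Sv hv0 N]
    ring

lemma sum_diff (hι : 2 ≤ Fintype.card ι) (h𝒱 : ∀ v ∈ 𝒱, v ≠ 0) (hv : v ∈ 𝒱)
    (N N' : Matrix ι ι F) (hN : ((N - N') - (N - N')ᵀ) *ᵥ v ≠ 0) :
    (∑ v' ∈ 𝒱, (Sv v N ∩ Sv v' N').card) *
        ((perp v).card * Fintype.card F ^ (Fintype.card ι - 2)) ≤
      Fintype.card (Matrix ι ι F) * (Fintype.card F ^ (Fintype.card ι - 1) - Fintype.card F) := by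
  have hv0 := h𝒱 v hv
  set z := ((N - N') - (N - N')ᵀ) *ᵥ v with hz
  have h1 : ∀ v' ∈ 𝒱, v' ∉ perp z \ mult v → (Sv v N ∩ Sv v' N').card = 0 := by
    intro v' hv' hnot
    rw [card_eq_zero, ← Finset.not_nonempty_iff_eq_empty]
    rintro ⟨M, hM⟩
    rw [mem_inter, mem_Sv, mem_Sv] at hM
    obtain ⟨hM1, hM2⟩ := hM
    have hdec : ∀ N : Matrix ι ι F, ((M + N) - (M + N)ᵀ) = (M - Mᵀ) + (N - Nᵀ) := by
      intro N; rw [transpose_add]; abel
    rw [hdec, add_mulVec] at hM1 hM2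
    have hz' : z = (N - Nᵀ) *ᵥ v - (N' - N'ᵀ) *ᵥ v := by
      rw [hz, ← sub_mulVec]
      congr 1
      rw [transpose_sub]; abel
    apply hnot
    rw [mem_sdiff, mem_perp]
    constructor
    · -- orthogonality
      have e1 : v' ⬝ᵥ ((M - Mᵀ) *ᵥ v) + v' ⬝ᵥ ((N - Nᵀ) *ᵥ v) = 0 := by
        rw [← dotProduct_add, hM1, dotProduct_zero]
      have e2 : v ⬝ᵥ ((M - Mᵀ) *ᵥ v') + v ⬝ᵥ ((N' - N'ᵀ) *ᵥ v') = 0 := by
        rw [← dotProduct_add, hM2, dotProduct_zero]
      rw [skew M, skew N'] at e2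
      rw [hz', dotProduct_comm, dotProduct_sub]
      linear_combination e1 + e2
    · intro hm
      obtain ⟨c, rfl⟩ := mem_mult.1 hm
      have hc : c ≠ 0 := fun h => h𝒱 _ hv' (by rw [h, zero_smul])
      rw [mulVec_smul, mulVec_smul, ← smul_add, smul_eq_zero] at hM2
      have hM3 := hM2.resolve_left hc
      apply hN
      rw [hz', sub_eq_zero]
      exact add_left_cancel (hM1.trans hM3.symm)
  have hsub : mult v ⊆ perp z := by
    intro y hy
    obtain ⟨c, rfl⟩ := mem_mult.1 hy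
    rw [mem_perp, dotProduct_smul, dotProduct_comm, hz, alt_self, smul_zero]
  have hq : 0 < Fintype.card F := Fintype.card_pos
  have h2 : (perp z).card = Fintype.card F ^ (Fintype.card ι - 1) := by
    have h3 := card_perp hN
    have h4 : Fintype.card F ^ Fintype.card ι =
      Fintype.card F ^ (Fintype.card ι - 1) * Fintype.card F := by
      rw [← pow_succ]; congr 1; omega
    rw [h4] at h3
    exact Nat.eq_of_mul_eq_mul_right hq h3
  rw [Finset.sum_mul]
  have h5 : ∑ v' ∈ 𝒱, (Sv v N ∩ Sv v' N').card *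
        ((perp v).card * Fintype.card F ^ (Fintype.card ι - 2)) =
      ∑ v' ∈ 𝒱.filter (fun v' => v' ∈ perp z \ mult v), (Sv v N ∩ Sv v' N').card *
        ((perp v).card * Fintype.card F ^ (Fintype.card ι - 2)) := by
    rw [Finset.sum_filter]
    refine Finset.sum_congr rfl fun v' hv' => ?_
    split_ifs with h
    · rfl
    · rw [h1 v' hv' h, zero_mul]
  rw [h5]
  refine (Finset.sum_le_card_nsmul _ _ _ (fun v' hv' => inter_le hι hv0
    (mem_sdiff.1 (Finset.mem_filter.1 hv').2).2 N N')).trans ?_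
  rw [smul_eq_mul, mul_comm]
  refine Nat.mul_le_mul_left _ ?_
  have h6 : 𝒱.filter (fun v' => v' ∈ perp z \ mult v) ⊆ perp z \ mult v :=
    fun y hy => (Finset.mem_filter.1 hy).2
  refine (Finset.card_le_card h6).trans ?_
  rw [card_sdiff_of_subset hsub, card_mult hv0, h2]

/-- the bound in the second moment -/
def Qb (q n s : ℕ) : ℕ := (q ^ n - q) + q ^ (n - 2) * (q - 1) + (s - 1) * (q ^ (n - 1) - q)

variable {𝓝 : Finset (Matrix ι ι F)}

lemma sum_pairs (hι : 2 ≤ Fintype.card ι) (h𝒱 : ∀ v ∈ 𝒱, v ≠ 0)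
    (h𝓝 : ∀ N ∈ 𝓝, ∀ N' ∈ 𝓝, N ≠ N' → ∀ v ∈ 𝒱, ((N - N') - (N - N')ᵀ) *ᵥ v ≠ 0)
    {v : ι → F} {N : Matrix ι ι F} (hv : v ∈ 𝒱) (hN : N ∈ 𝓝) :
    (∑ b ∈ 𝒱 ×ˢ 𝓝, (Sv v N ∩ Sv b.1 b.2).card) *
        (Fintype.card F ^ (Fintype.card ι - 1) * Fintype.card F ^ (Fintype.card ι - 2)) ≤
      Fintype.card (Matrix ι ι F) * Qb (Fintype.card F) (Fintype.card ι) 𝓝.card := by
  have hq : 0 < Fintype.card F := Fintype.card_pos
  have hperp : (perp v).card = Fintype.card F ^ (Fintype.card ι - 1) := by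
    have h3 := card_perp (h𝒱 v hv)
    have h4 : Fintype.card F ^ Fintype.card ι =
      Fintype.card F ^ (Fintype.card ι - 1) * Fintype.card F := by
      rw [← pow_succ]; congr 1; omega
    rw [h4] at h3
    exact Nat.eq_of_mul_eq_mul_right hq h3
  rw [← hperp, Finset.sum_product_right, ← Finset.add_sum_erase 𝓝 _ hN, add_mul, Qb, mul_add]
  refine add_le_add (sum_same hι h𝒱 hv N) ?_
  rw [Finset.sum_mul]
  refine (Finset.sum_le_card_nsmul _ _ _ (fun N' hN' => sum_diff hι h𝒱 hv N N'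
    (h𝓝 N hN N' (mem_of_mem_erase hN') (ne_of_mem_erase hN').symm v hv))).trans ?_
  rw [smul_eq_mul, card_erase_of_mem hN]
  refine le_of_eq ?_
  ring

/-- The second moment bound. -/
theorem count_main (hι : 2 ≤ Fintype.card ι) (h𝒱 : ∀ v ∈ 𝒱, v ≠ 0)
    (h𝓝 : ∀ N ∈ 𝓝, ∀ N' ∈ 𝓝, N ≠ N' → ∀ v ∈ 𝒱, ((N - N') - (N - N')ᵀ) *ᵥ v ≠ 0) :
    𝒱.card * 𝓝.card * Fintype.card (Matrix ι ι F) ≤
      Fintype.card F * Qb (Fintype.card F) (Fintype.card ι) 𝓝.card *
        (univ.filter fun M : Matrix ι ι F => ∃ v ∈ 𝒱, ∃ N ∈ 𝓝, M ∈ Sv v N).card := by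
  set q := Fintype.card F with hqdef
  set n := Fintype.card ι with hndef
  set G := univ.filter fun M : Matrix ι ι F => ∃ v ∈ 𝒱, ∃ N ∈ 𝓝, M ∈ Sv v N with hG
  have hq : 0 < q := Fintype.card_pos
  let Y : Matrix ι ι F → ℕ := fun M => ∑ a ∈ 𝒱 ×ˢ 𝓝, if M ∈ Sv a.1 a.2 then 1 else 0
  have hperp : ∀ v ∈ 𝒱, (perp v).card = q ^ (n - 1) := by
    intro v hv
    have h3 := card_perp (h𝒱 v hv)
    have h4 : q ^ n = q ^ (n - 1) * q := by
      rw [← pow_succ]; congr 1; omega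
    rw [← hqdef, ← hndef, h4] at h3
    exact Nat.eq_of_mul_eq_mul_right hq h3
  -- first moment
  have hA : (∑ M, Y M) * q ^ (n - 1) = 𝒱.card * 𝓝.card * Fintype.card (Matrix ι ι F) := by
    have h1 : ∑ M, Y M = ∑ a ∈ 𝒱 ×ˢ 𝓝, (Sv a.1 a.2).card := by
      rw [Finset.sum_comm]
      refine Finset.sum_congr rfl fun a _ => ?_
      rw [Finset.sum_boole, Finset.filter_mem_eq_inter, univ_inter]
      rfl
    rw [h1, Finset.sum_mul]
    have h2 : ∀ a ∈ 𝒱 ×ˢ 𝓝, (Sv a.1 a.2).card * q ^ (n - 1) = Fintype.card (Matrix ι ι F) := by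
      intro a ha
      have ha1 := (mem_product.1 ha).1
      rw [← hperp a.1 ha1]
      exact card_Sv (h𝒱 _ ha1) a.2
    rw [Finset.sum_congr rfl h2, Finset.sum_const, smul_eq_mul, card_product]
  -- second moment
  have hB : (∑ M, Y M ^ 2) * (q ^ (n - 1) * q ^ (n - 2)) ≤
      𝒱.card * 𝓝.card * (Fintype.card (Matrix ι ι F) * Qb q n 𝓝.card) := by
    have h1 : ∑ M, Y M ^ 2 = ∑ a ∈ 𝒱 ×ˢ 𝓝, ∑ b ∈ 𝒱 ×ˢ 𝓝, (Sv a.1 a.2 ∩ Sv b.1 b.2).card := by
      have h2 : ∀ M, Y M ^ 2 = ∑ a ∈ 𝒱 ×ˢ 𝓝, ∑ b ∈ 𝒱 ×ˢ 𝓝,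
          if M ∈ Sv a.1 a.2 ∩ Sv b.1 b.2 then 1 else 0 := by
        intro M
        rw [sq, Finset.sum_mul_sum]
        refine Finset.sum_congr rfl fun a _ => Finset.sum_congr rfl fun b _ => ?_
        by_cases h3 : M ∈ Sv a.1 a.2 <;> by_cases h4 : M ∈ Sv b.1 b.2 <;> simp [h3, h4]
      simp only [h2]
      rw [Finset.sum_comm]
      refine Finset.sum_congr rfl fun a _ => ?_
      rw [Finset.sum_comm]
      refine Finset.sum_congr rfl fun b _ => ?_
      rw [Finset.sum_boole, Finset.filter_mem_eq_inter, univ_inter]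
      rfl
    rw [h1, Finset.sum_mul]
    refine (Finset.sum_le_card_nsmul _ _ _ (fun a ha => sum_pairs hι h𝒱 h𝓝
      (mem_product.1 ha).1 (mem_product.1 ha).2)).trans ?_
    rw [smul_eq_mul, card_product]
  -- Cauchy-Schwarz
  have hC : (∑ M, Y M) ^ 2 ≤ G.card * ∑ M, Y M ^ 2 := by
    have h1 : ∑ M, Y M = ∑ M ∈ G, Y M := by
      symm
      refine Finset.sum_subset (subset_univ _) fun M _ hM => ?_
      refine Finset.sum_eq_zero fun a ha => ?_
      rw [if_neg]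
      intro h
      exact hM (by rw [hG, mem_filter]; exact ⟨mem_univ _, a.1, (mem_product.1 ha).1, a.2,
        (mem_product.1 ha).2, h⟩)
    rw [h1]
    refine sq_sum_le_card_mul_sum_sq.trans (Nat.mul_le_mul_left _ ?_)
    exact Finset.sum_le_sum_of_subset (subset_univ _)
  set A := ∑ M, Y M with hAdef
  set B := ∑ M, Y M ^ 2 with hBdef
  set T := 𝒱.card * 𝓝.card * Fintype.card (Matrix ι ι F) with hT
  have hkq : q ^ (n - 1) = q ^ (n - 2) * q := by
    rw [← pow_succ]; congr 1; omega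
  rcases Nat.eq_zero_or_pos T with h0 | h0
  · rw [h0]; exact Nat.zero_le _
  refine Nat.le_of_mul_le_mul_left (c := T) ?_ h0
  calc T * T = A ^ 2 * (q ^ (n - 1)) ^ 2 := by rw [← hA]; ring
    _ ≤ (G.card * B) * (q ^ (n - 1)) ^ 2 := Nat.mul_le_mul_right _ hC
    _ = G.card * q * (B * (q ^ (n - 1) * q ^ (n - 2))) := by rw [hkq]; ring
    _ ≤ G.card * q * (𝒱.card * 𝓝.card * (Fintype.card (Matrix ι ι F) * Qb q n 𝓝.card)) :=
        Nat.mul_le_mul_left _ hB
    _ = T * (q * Qb q n 𝓝.card * G.card) := by rw [hT]; ring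

end count

end Pool.Agent.TH439.PI
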