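import Pool.Agent.TH439.PI4
import Pool.Agent.TH439.PI6
import Pool.Agent.TH439.PI7

/-! Classes with given coefficients; counting classes. -/

set_option autoImplicit false
set_option linter.all false

open scoped TensorProduct

noncomputable section

namespace Pool.Agent.TH439.PI

open Pool.Agent.Helper18.Br Pool.Agent.H552R3.SymBr Pool.Agent.H552R3.SymPred Pool.Agent.Helper346.Bra

section abs

variable {B : Type*} [AddCommGroup B] {p : ℕ} [Fact p.Prime] {ι : Type*} [Fintype ι]

lemma val_add_smul {s : B} (hs : p • s = 0) (a b : ZMod p) :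
    (a + b).val • s = a.val • s + b.val • s := by
  rw [ZMod.val_add, ← add_smul]
  conv_rhs => rw [← Nat.mod_add_div (a.val + b.val) p, add_smul, mul_comm, mul_smul, hs, smul_zero,
    add_zero]

/-- the combination of the `s j k` with coefficients `M` -/
def linHom (s : ι → ι → B) (hs : ∀ j k, p • s j k = 0) : Matrix ι ι (ZMod p) →+ B :=
  AddMonoidHom.mk' (fun M => ∑ j, ∑ k, (M j k).val • s j k) (fun M N => by
    simp only [← Finset.sum_add_distrib]
    refine Finset.sum_congr rfl fun j _ => Finset.sum_congr rfl fun k _ => ?_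
    rw [Matrix.add_apply, val_add_smul (hs j k)])

lemma linHom_apply (s : ι → ι → B) (hs : ∀ j k, p • s j k = 0) (M : Matrix ι ι (ZMod p)) :
    linHom s hs M = ∑ j, ∑ k, (M j k).val • s j k := rfl

lemma linHom_range [DecidableEq ι] (s : ι → ι → B) (hs : ∀ j k, p • s j k = 0) :
    (linHom s hs).range = AddSubgroup.closure {b | ∃ j k, b = s j k} := by
  refine le_antisymm ?_ ((AddSubgroup.closure_le _).2 ?_)
  · rintro _ ⟨M, rfl⟩
    rw [linHom_apply]
    refine AddSubgroup.sum_mem _ fun j _ => AddSubgroup.sum_mem _ fun k _ =>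
      AddSubgroup.nsmul_mem _ (AddSubgroup.subset_closure ?_) _
    exact ⟨j, k, rfl⟩
  · rintro _ ⟨j, k, rfl⟩
    refine ⟨Matrix.single j k 1, ?_⟩
    rw [linHom_apply, Finset.sum_eq_single j, Finset.sum_eq_single k]
    · have h1 : (1 : ZMod p).val = 1 := ZMod.val_one p
      rw [Matrix.single_apply_same, h1, one_smul]
    · intro l _ hl
      rw [Matrix.single_apply_of_col_ne _ _ hl.symm, ZMod.val_zero, zero_smul]
    · intro h; exact absurd (Finset.mem_univ k) h
    · intro l _ hl
      refine Finset.sum_eq_zero fun m _ => ?_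
      rw [Matrix.single_apply_of_row_ne hl.symm, ZMod.val_zero, zero_smul]
    · intro h; exact absurd (Finset.mem_univ j) h

open Classical in
/-- transfer of a counting inequality to the image of a homomorphism -/
lemma card_transfer {G : Type*} [AddCommGroup G] [Fintype G] (f : G →+ B) (P : B → Prop)
    {a b : ℕ} (h : a * Fintype.card G ≤ b * (Finset.univ.filter fun g => P (f g)).card) :
    a * Nat.card f.range ≤ b * Nat.card {y : B // y ∈ f.range ∧ P y} := by
  set κ := (Finset.univ.filter fun g => f g = 0).card with hκ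
  have hκ0 : 0 < κ := Finset.card_pos.2 ⟨0, by simp⟩
  have hfib : ∀ y ∈ Finset.univ.image f, (Finset.univ.filter fun g => f g = y).card = κ := by
    intro y hy
    obtain ⟨g, -, rfl⟩ := Finset.mem_image.1 hy
    exact AddMonoidHom.card_fiber_eq_of_mem_range f ⟨g, rfl⟩ ⟨0, map_zero f⟩
  have h1 : Fintype.card G = (Finset.univ.image f).card * κ := by
    rw [← Finset.card_univ, Finset.card_eq_sum_card_fiberwise (f := f) (t := Finset.univ.image f)
      (fun g _ => Finset.mem_coe.2 (Finset.mem_image_of_mem f (Finset.mem_univ g))),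
      Finset.sum_congr rfl hfib, Finset.sum_const, smul_eq_mul]
  have h2 : (Finset.univ.filter fun g => P (f g)).card = ((Finset.univ.image f).filter P).card * κ := by
    rw [Finset.card_eq_sum_card_fiberwise (f := f) (t := (Finset.univ.image f).filter P)
      (fun g hg => by
        rw [Finset.mem_coe, Finset.mem_filter] at hg ⊢
        exact ⟨Finset.mem_image_of_mem f (Finset.mem_univ g), hg.2⟩)]
    have h3 : ∀ y ∈ (Finset.univ.image f).filter P,
        ((Finset.univ.filter fun g => P (f g)).filter fun g => f g = y).card = κ := by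
      intro y hy
      rw [← hfib y (Finset.mem_filter.1 hy).1, Finset.filter_filter]
      congr 1
      refine Finset.filter_congr fun g _ => ?_
      constructor
      · exact fun h => h.2
      · rintro rfl
        exact ⟨(Finset.mem_filter.1 hy).2, rfl⟩
    rw [Finset.sum_congr rfl h3, Finset.sum_const, smul_eq_mul]
  have h3 : Nat.card f.range = (Finset.univ.image f).card := by
    rw [← Nat.card_eq_finsetCard]
    refine Nat.card_congr (Equiv.subtypeEquivRight fun y => ?_)
    simp [AddMonoidHom.mem_range]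
  have h4 : Nat.card {y : B // y ∈ f.range ∧ P y} = ((Finset.univ.image f).filter P).card := by
    rw [← Nat.card_eq_finsetCard]
    refine Nat.card_congr (Equiv.subtypeEquivRight fun y => ?_)
    simp [AddMonoidHom.mem_range]
  rw [h1, h2, ← mul_assoc, ← mul_assoc] at h
  rw [h3, h4]
  exact Nat.le_of_mul_le_mul_right h hκ0

variable {X : Type*} [AddCommGroup X] {σ : X →+ X →+ B} {m : ℕ}

/-- degenerate coefficients give few symbols -/
lemma few_symbols (hskew : ∀ a b, σ a b = -σ b a) (halt : ∀ a, σ a a = 0)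
    (htors : ∀ a b, p • σ a b = 0) [DecidableEq ι] (x : ι → X) {g : ℕ} (hι : Fintype.card ι = 2 * g)
    (M : Matrix ι ι (ZMod p)) {v : ι → ZMod p} (hv : v ≠ 0)
    (hM : (M - M.transpose).mulVec v = 0) :
    ∃ (U W : Fin (g - 1) → X), linHom (fun j k => σ (x j) (x k)) (fun j k => htors _ _) M =
      ∑ i, σ (U i) (W i) := by
  have hnd : ¬ ND p Finset.univ (fun j k => ((M j k).val : ℤ)) := by
    intro h
    apply hv
    funext j
    refine h v (fun l _ => ?_) j (Finset.mem_univ j)
    have h1 := congrFun hM l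
    rw [Matrix.mulVec, dotProduct, Pi.zero_apply] at h1
    rw [← h1]
    refine Finset.sum_congr rfl fun k _ => ?_
    rw [Matrix.sub_apply, Matrix.transpose_apply]
    push_cast
    rw [ZMod.natCast_zmod_val, ZMod.natCast_zmod_val]
  obtain ⟨U, W, h⟩ := E_length_degenerate hskew halt
    (fun a b => by rw [natCast_zsmul]; exact htors a b) x g Finset.univ (by rw [Finset.card_univ, hι])
    (fun j k => ((M j k).val : ℤ)) hnd
  refine ⟨U, W, ?_⟩
  rw [← h, linHom_apply]
  refine Finset.sum_congr rfl fun j _ => Finset.sum_congr rfl fun k _ => ?_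
  rw [natCast_zsmul]

end abs

universe u

variable {K : Type u} [Field K] {p : ℕ} {ζ : K}

lemma sg_alt (hn : 0 < p) (hζ : IsPrimitiveRoot ζ p) (i : K) (hi : i ^ p = -1) (a : Additive Kˣ) :
    sg hn hζ a a = 0 := by
  have hi0 : i ≠ 0 := by
    rintro rfl
    rw [zero_pow hn.ne'] at hi
    exact one_ne_zero (neg_eq_zero.1 hi.symm)
  rcases symCl_diag hn hζ a.toMul with h | h
  · exact congrArg Additive.ofMul h
  · have h1 : (-1 : Kˣ) = (Units.mk0 i hi0) ^ p := by
      ext
      rw [Units.val_pow_eq_pow_val, Units.val_mk0, hi]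
      simp
    have h2 : sg hn hζ a a = sg hn hζ a (Additive.ofMul (-1)) := congrArg Additive.ofMul h
    rw [h2, h1, ofMul_pow, map_nsmul]
    exact congrArg Additive.ofMul (symCl_pow hn hζ a.toMul _)

lemma sg_skew (hn : 0 < p) (hζ : IsPrimitiveRoot ζ p) (a b : Additive Kˣ) :
    sg hn hζ a b = -sg hn hζ b a := by
  change Additive.ofMul (symCl hn hζ a.toMul b.toMul) = -Additive.ofMul (symCl hn hζ b.toMul a.toMul)
  rw [symCl_anti, ofMul_inv]

lemma sg_tors (hn : 0 < p) (hζ : IsPrimitiveRoot ζ p) (a b : Additive Kˣ) :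
    p • sg hn hζ a b = 0 :=
  congrArg Additive.ofMul (symCl_pow hn hζ a.toMul b.toMul)

/-- the symbols of the `x j` -/
def sx {m : ℕ} (hn : 0 < p) (hζ : IsPrimitiveRoot ζ p) (x : Fin m → Kˣ) (j k : Fin m) :
    Additive (BrauerGroup.{u, u} K) := sg hn hζ (Additive.ofMul (x j)) (Additive.ofMul (x k))

lemma sx_tors {m : ℕ} (hn : 0 < p) (hζ : IsPrimitiveRoot ζ p) (x : Fin m → Kˣ) (j k : Fin m) :
    p • sx hn hζ x j k = 0 := sg_tors hn hζ _ _

lemma one_hasRep : HasRep (1 : BrauerGroup.{u, u} K) 1 :=
  ⟨K, inferInstance, inferInstance, inferInstance, inferInstance, inferInstance, rfl, by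
    rw [Module.finrank_self, one_pow]⟩

/-- the index of the class with coefficients `M` if `M + N` is degenerate for a relation `N` -/
theorem index_of_degenerate [Fact p.Prime] (hn : 0 < p) (hζ : IsPrimitiveRoot ζ p) (i : K)
    (hi : i ^ p = -1) {g : ℕ} (x : Fin (2 * g) → Kˣ) (M N : Matrix (Fin (2 * g)) (Fin (2 * g)) (ZMod p))
    (hN : linHom (sx hn hζ x) (sx_tors hn hζ x) N = 0) {v : Fin (2 * g) → ZMod p} (hv : v ≠ 0)
    (hM : ((M + N) - (M + N).transpose).mulVec v = 0) :
    IndDvd (linHom (sx hn hζ x) (sx_tors hn hζ x) M).toMul (p ^ (g - 1)) := by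
  obtain ⟨U, W, h⟩ := few_symbols (sg_skew hn hζ) (sg_alt hn hζ i hi) (sg_tors hn hζ)
    (fun l => Additive.ofMul (x l)) (Fintype.card_fin _) (M + N) hv hM
  have h1 : linHom (sx hn hζ x) (sx_tors hn hζ x) M = ∑ i, sg hn hζ (U i) (W i) := by
    rw [← h]
    have h2 := map_add (linHom (sx hn hζ x) (sx_tors hn hζ x)) M N
    rw [hN, add_zero] at h2
    exact h2.symm
  have h4 : (linHom (sx hn hζ x) (sx_tors hn hζ x) M).toMul =
      1 * ∏ i, symCl hn hζ (U i).toMul (W i).toMul := by
    rw [one_mul]
    exact (congrArg Additive.toMul h1).trans (toMul_sum _ _)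
  rw [h4]
  have h5 := (hasRep_prod hn hζ (g - 1) 1 (fun i => (U i).toMul) (fun i => (W i).toMul) 1
    one_hasRep).indDvd
  rwa [one_mul (p ^ (g - 1))] at h5

end Pool.Agent.TH439.PI
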