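import Mathlib

/-!
Framework for the local-global question for zero-cycles of degree one: the smooth projective
geometrically integral varieties over a class of global fields closed under finite extensions.
-/

namespace Pool.Agent.TH439.TF

universe u

/-- `ℚ/ℤ` -/
abbrev QZ := AddCircle (1 : ℚ)

/-- A class of global fields closed under finite extensions (for example all number fields), the
smooth projective geometrically integral varieties over them, their dimensions and their
zero-cycles. -/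
structure Vars where
  /-- The global fields of the class. -/
  K : Type u
  /-- The set of places. -/
  Pl : K → Type u
  /-- The smooth projective geometrically integral varieties over `F`. -/
  V : K → Type u
  /-- The dimension. -/
  dim : ∀ {F}, V F → ℕ
  /-- The group `Z_0(X)` of zero-cycles. -/
  Z0 : ∀ {F}, V F → Type u
  grp0 : ∀ {F} (X : V F), AddCommGroup (Z0 X)
  /-- The degree over `F`. -/
  deg0 : ∀ {F} (X : V F), Z0 X →+ ℤ
  /-- The group `Z_0(X_w)` of zero-cycles on `X_w = X ×_F F_w`. -/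
  Z : ∀ {F}, V F → Pl F → Type u
  grp : ∀ {F} (X : V F) (w : Pl F), AddCommGroup (Z X w)
  /-- The degree over `F_w`. -/
  deg : ∀ {F} (X : V F) (w : Pl F), Z X w →+ ℤ
  /-- The zero-cycle on `X_w` defined by a zero-cycle on `X`. -/
  loc : ∀ {F} (X : V F) (w : Pl F), Z0 X →+ Z X w
  deg_loc : ∀ {F} (X : V F) w a, deg X w (loc X w a) = deg0 X a

attribute [instance] Vars.grp0 Vars.grp

/-- The degree of a local zero-cycle. -/
@[reducible] def Vars.dg (W : Vars.{u}) {F : W.K} {X : W.V F} {w : W.Pl F} (z : W.Z X w) : ℤ :=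
  W.deg X w z

/-- Brauer groups and the local pairings `j_w` with values in `ℚ/ℤ`. -/
structure Pairing (W : Vars.{u}) where
  /-- The Brauer group `Br(X)`. -/
  Br : ∀ {F}, W.V F → Type u
  grpBr : ∀ {F} (X : W.V F), AddCommGroup (Br X)
  /-- The pairing `j_w : Z_0(X_w) × Br(X) → ℚ/ℤ`. -/
  j : ∀ {F} (X : W.V F) (w : W.Pl F), W.Z X w →+ Br X →+ QZ

attribute [instance] Pairing.grpBr

/-- The value of the pairing. -/
@[reducible] def Pairing.pr {W : Vars.{u}} (P : Pairing W) {F : W.K} {X : W.V F} {w : W.Pl F}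
    (z : W.Z X w) (α : P.Br X) : QZ :=
  P.j X w z α

/-- `n α = 0` -/
@[reducible] def Pairing.Kills {W : Vars.{u}} (P : Pairing W) {F : W.K} {X : W.V F} (n : ℕ)
    (α : P.Br X) : Prop :=
  n • α = 0

/-- `Br(X)` is a torsion group, and for local zero-cycles of degree 1 only finitely many terms of
the pairing are nonzero. -/
structure PairingFacts {W : Vars.{u}} (P : Pairing W) : Prop where
  tors : ∀ {F} (X : W.V F) (α : P.Br X), ∃ n : ℕ, 0 < n ∧ P.Kills n α
  fint : ∀ {F} (X : W.V F) (z : ∀ w, W.Z X w), (∀ w, W.dg (z w) = 1) → ∀ α : P.Br X,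
    {w | P.pr (z w) α ≠ 0}.Finite

theorem PairingFacts.torsion {W : Vars.{u}} {P : Pairing W} (h : PairingFacts P) {F : W.K}
    (X : W.V F) (α : P.Br X) : ∃ n : ℕ, 0 < n ∧ n • α = 0 := h.tors X α

theorem PairingFacts.j_finite {W : Vars.{u}} {P : Pairing W} (h : PairingFacts P) {F : W.K}
    (X : W.V F) (z : ∀ w, W.Z X w) (hz : ∀ w, W.deg X w (z w) = 1) (α : P.Br X) :
    {w | P.j X w (z w) α ≠ 0}.Finite := h.fint X z hz α

/-- Global reciprocity: for a zero-cycle `a` on `X` and `α ∈ Br(X)` only finitely many of the local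
terms are nonzero and their sum is zero. -/
structure Reciprocity {W : Vars.{u}} (P : Pairing W) : Prop where
  fint : ∀ {F} (X : W.V F) (a : W.Z0 X) (α : P.Br X), {w | P.pr (W.loc X w a) α ≠ 0}.Finite
  tot : ∀ {F} (X : W.V F) (a : W.Z0 X) (α : P.Br X), ∑ᶠ w, P.pr (W.loc X w a) α = 0

theorem Reciprocity.finite {W : Vars.{u}} {P : Pairing W} (h : Reciprocity P) {F : W.K}
    (X : W.V F) (a : W.Z0 X) (α : P.Br X) : {w | P.j X w (W.loc X w a) α ≠ 0}.Finite :=
  h.fint X a α

theorem Reciprocity.sum {W : Vars.{u}} {P : Pairing W} (h : Reciprocity P) {F : W.K}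
    (X : W.V F) (a : W.Z0 X) (α : P.Br X) : ∑ᶠ w, P.j X w (W.loc X w a) α = 0 := h.tot X a α

/-- Closed immersions of varieties over `F` and push-forward of zero-cycles. -/
structure Immersions (W : Vars.{u}) where
  /-- The closed immersions `Y → X` over `F`. -/
  Hom : ∀ {F}, W.V F → W.V F → Type u
  /-- Push-forward of global zero-cycles. -/
  push0 : ∀ {F} {Y X : W.V F}, Hom Y X → W.Z0 Y →+ W.Z0 X
  deg_push0 : ∀ {F} {Y X : W.V F} (f : Hom Y X) a, W.deg0 X (push0 f a) = W.deg0 Y a
  /-- Push-forward of local zero-cycles. -/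
  push : ∀ {F} {Y X : W.V F}, Hom Y X → ∀ w, W.Z Y w →+ W.Z X w
  dg_push : ∀ {F} {Y X : W.V F} (f : Hom Y X) w z, W.dg (push f w z) = W.dg z

/-- Push-forward of a local zero-cycle. -/
@[reducible] def Immersions.ps {W : Vars.{u}} (I : Immersions W) {F : W.K} {Y X : W.V F}
    (f : I.Hom Y X) {w : W.Pl F} (z : W.Z Y w) : W.Z X w := I.push f w z

theorem Immersions.deg_push {W : Vars.{u}} (I : Immersions W) {F : W.K} {Y X : W.V F}
    (f : I.Hom Y X) (w : W.Pl F) (z : W.Z Y w) :
    W.deg X w (I.push f w z) = W.deg Y w z := I.dg_push f w z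

/-- Pull-back of Brauer classes under closed immersions. -/
structure Pullback {W : Vars.{u}} (P : Pairing W) (I : Immersions W) where
  /-- `Br(X) → Br(Y)` -/
  pull : ∀ {F} {Y X : W.V F}, I.Hom Y X → P.Br X → P.Br Y
  ad : ∀ {F} {Y X : W.V F} (f : I.Hom Y X) (w : W.Pl F) (z : W.Z Y w) (α : P.Br X),
    P.pr (I.ps f z) α = P.pr z (pull f α)

theorem Pullback.adj {W : Vars.{u}} {P : Pairing W} {I : Immersions W} (J : Pullback P I)
    {F : W.K} {Y X : W.V F} (f : I.Hom Y X) (w : W.Pl F) (z : W.Z Y w) (α : P.Br X) :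
    P.j X w (I.push f w z) α = P.j Y w z (J.pull f α) := J.ad f w z α

/-- Base change of varieties and local zero-cycles for finite extensions `E/F`. -/
structure BaseChange (W : Vars.{u}) where
  /-- The embeddings `F → E` of finite degree. -/
  Ext : W.K → W.K → Type u
  /-- `[E : F]` -/
  degree : ∀ {F E}, Ext F E → ℕ
  /-- `X_E` -/
  bc : ∀ {F E}, Ext F E → W.V F → W.V E
  dim_bc : ∀ {F E} (h : Ext F E) (X : W.V F), W.dim (bc h X) = W.dim X
  /-- The place of `F` below a place of `E`. -/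
  below : ∀ {F E}, Ext F E → W.Pl E → W.Pl F
  /-- Base change of zero-cycles from `F_w` to `E_{w'}`. -/
  res : ∀ {F E} (h : Ext F E) (X : W.V F) (w' : W.Pl E), W.Z X (below h w') →+ W.Z (bc h X) w'
  dg_res : ∀ {F E} (h : Ext F E) (X : W.V F) w' z, W.dg (res h X w' z) = W.dg z

theorem BaseChange.deg_res {W : Vars.{u}} (B : BaseChange W) {F E : W.K} (h : B.Ext F E)
    (X : W.V F) (w' : W.Pl E) (z : W.Z X (B.below h w')) :
    W.deg (B.bc h X) w' (B.res h X w' z) = W.deg X (B.below h w') z := B.dg_res h X w' z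

/-- Base change of a family of local zero-cycles. -/
@[reducible] def BaseChange.fam {W : Vars.{u}} (B : BaseChange W) {F E : W.K} (h : B.Ext F E)
    {X : W.V F} (z : ∀ w, W.Z X w) (w' : W.Pl E) : W.Z (B.bc h X) w' :=
  B.res h X w' (z (B.below h w'))

/-- Corestriction of Brauer classes. -/
structure Corestriction {W : Vars.{u}} (P : Pairing W) (B : BaseChange W) where
  /-- Corestriction `Br(X_E) → Br(X)`. -/
  cor : ∀ {F E} (h : B.Ext F E) (X : W.V F), P.Br (B.bc h X) → P.Br X
  /-- Projection formula: `∑_{w' | w} j_{w'}(res z_w, β) = j_w(z_w, cor β)`. -/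
  prj : ∀ {F E} (h : B.Ext F E) (X : W.V F) (z : ∀ w, W.Z X w) β w,
      ∑ᶠ w' : {w' // B.below h w' = w}, P.pr (B.fam h z w'.1) β = P.pr (z w) (cor h X β)

theorem Corestriction.proj {W : Vars.{u}} {P : Pairing W} {B : BaseChange W}
    (K : Corestriction P B) {F E : W.K} (h : B.Ext F E) (X : W.V F) (z : ∀ w, W.Z X w)
    (β : P.Br (B.bc h X)) (w : W.Pl F) :
      ∑ᶠ w' : {w' // B.below h w' = w},
        P.j (B.bc h X) w'.1 (B.res h X w'.1 (z (B.below h w'.1))) β
          = P.j X w (z w) (K.cor h X β) := K.prj h X z β w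

/-- Zero-cycles and base change. -/
structure CycleFacts {W : Vars.{u}} (B : BaseChange W) : Prop where
  /-- The image in `X` of a zero-cycle on `X_E` of degree `d` has degree `[E : F] d`. -/
  down : ∀ {F E} (h : B.Ext F E) (X : W.V F) (a : W.Z0 (B.bc h X)),
    ∃ b : W.Z0 X, W.deg0 X b = B.degree h * W.deg0 (B.bc h X) a
  /-- Sylow: over an extension of degree prime to `p` the variety has a closed point of `p`-power
  degree. -/
  sylow : ∀ {F} (X : W.V F) (p : ℕ), p.Prime → ∃ (E : W.K) (h : B.Ext F E), ¬ p ∣ B.degree h ∧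
    ∃ (a : W.Z0 (B.bc h X)) (m : ℕ), W.deg0 _ a = (p : ℤ) ^ m

/-- A profinite integer: a sequence of integers `c_n` with `c_l ≡ c_n` modulo `n` for `n ∣ l`. -/
def IsProfinite (c : ℕ → ℤ) : Prop := ∀ n l : ℕ, 0 < l → n ∣ l → (n : ℤ) ∣ c l - c n

/-- Compactness of the groups of degree 0 divisor classes of curves over `F_w`: for a zero-cycle
`a` of degree 0 on `X_w` and a profinite integer `c = (c_n)` there is a zero-cycle `c a` of degree
0 with `j_w(c a, α) = c j_w(a, α)`. -/
def HatStable {W : Vars.{u}} (P : Pairing W) : Prop :=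
  ∀ {F} (X : W.V F) (w : W.Pl F) (c : ℕ → ℤ), IsProfinite c →
    ∀ a : W.Z X w, W.dg a = 0 → ∃ a' : W.Z X w, W.dg a' = 0 ∧
      ∀ (α : P.Br X) (n : ℕ), 0 < n → P.Kills n α → P.pr a' α = c n • P.pr a α

/-- `α` is a `p`-primary torsion element. -/
@[reducible] def Pairing.Primary {W : Vars.{u}} (P : Pairing W) (p : ℕ) {F : W.K} {X : W.V F}
    (α : P.Br X) : Prop := ∃ r : ℕ, P.Kills (p ^ r) α

/-- The image of `f` contains the image of `c` on local zero-cycles, as when `C ⊆ Y ⊆ X`. -/
def Through {W : Vars.{u}} (I : Immersions W) {F : W.K} {X Y C : W.V F} (f : I.Hom Y X)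
    (c : I.Hom C X) : Prop :=
  ∀ (w : W.Pl F) (z : W.Z C w), ∃ y : W.Z Y w, I.ps f y = I.ps c z

/-- Bertini (Altman-Kleiman) and Lefschetz: if `dim X ≥ 4`, two curves and a zero-cycle on `X` lie
on a smooth hypersurface section `Y` such that `Br(X){p} → Br(Y){p}` is surjective (`p` different
from the characteristic). -/
def HypersurfaceSections {W : Vars.{u}} {P : Pairing W} {I : Immersions W}
    (J : Pullback P I) (p : ℕ) : Prop :=
  ∀ {F} (X C₁ C₂ : W.V F) (c₁ : I.Hom C₁ X) (c₂ : I.Hom C₂ X) (a : W.Z0 X), 4 ≤ W.dim X →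
    W.dim C₁ = 1 → W.dim C₂ = 1 → ∃ (Y : W.V F) (f : I.Hom Y X), W.dim Y + 1 = W.dim X ∧
      (∃ b : W.Z0 Y, I.push0 f b = a) ∧ Through I f c₁ ∧ Through I f c₂ ∧
      ∀ α : P.Br Y, P.Primary p α → ∃ β : P.Br X, P.Primary p β ∧ J.pull f β = α

/-- The `ℤ_p`-modules `M_w = Hom(Br(X_w){p}, ℚ/ℤ)`. -/
structure LocalModules (W : Vars.{u}) (p : ℕ) [Fact p.Prime] where
  /-- `Hom(Br(X_w){p}, ℚ/ℤ)` -/
  M : ∀ {F}, W.V F → W.Pl F → Type u
  grp : ∀ {F} (X : W.V F) w, AddCommGroup (M X w)
  mod : ∀ {F} (X : W.V F) w, Module ℤ_[p] (M X w)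
  /-- The homomorphism `Z_0(X_w) → Hom(Br(X_w){p}, ℚ/ℤ)`. -/
  θ : ∀ {F} (X : W.V F) w, W.Z X w →+ M X w

attribute [instance] LocalModules.grp LocalModules.mod

/-- The image of a zero-cycle. -/
@[reducible] def LocalModules.th {W : Vars.{u}} {p : ℕ} [Fact p.Prime] (L : LocalModules W p)
    {F : W.K} {X : W.V F} {w : W.Pl F} (z : W.Z X w) : L.M X w := L.θ X w z

/-- The image of the zero-cycles of degree 0. -/
@[reducible] def LocalModules.im {W : Vars.{u}} {p : ℕ} [Fact p.Prime] (L : LocalModules W p)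
    {F : W.K} (X : W.V F) (w : W.Pl F) : Set (L.M X w) := {x | ∃ z, W.dg z = 0 ∧ L.th z = x}

/-- The subset `S` of `M_w` is a `ℤ_p`-submodule. -/
@[reducible] def LocalModules.IsSub {W : Vars.{u}} {p : ℕ} [Fact p.Prime] (L : LocalModules W p)
    {F : W.K} {X : W.V F} {w : W.Pl F} (S : Set (L.M X w)) : Prop :=
  ∃ N : Submodule ℤ_[p] (L.M X w), (N : Set (L.M X w)) = S

/-- `x + p y` -/
@[reducible] noncomputable def LocalModules.addp {W : Vars.{u}} {p : ℕ} [Fact p.Prime] (L : LocalModules W p)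
    {F : W.K} {X : W.V F} {w : W.Pl F} (x y : L.M X w) : L.M X w := x + (p : ℤ_[p]) • y

/-- Functoriality of the modules `M_w` for closed immersions. -/
structure ModuleMaps {W : Vars.{u}} (I : Immersions W) {p : ℕ} [Fact p.Prime]
    (L : LocalModules W p) where
  /-- The dual of `Br(X_w){p} → Br(Y_w){p}`. -/
  map : ∀ {F} {Y X : W.V F} (_ : I.Hom Y X) w, L.M Y w →ₗ[ℤ_[p]] L.M X w
  mp : ∀ {F} {Y X : W.V F} (f : I.Hom Y X) (w : W.Pl F) (z : W.Z Y w),
    L.th (I.ps f z) = map f w (L.th z)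

theorem ModuleMaps.map_θ {W : Vars.{u}} {I : Immersions W} {p : ℕ} [Fact p.Prime]
    {L : LocalModules W p} (R : ModuleMaps I L) {F : W.K} {Y X : W.V F} (f : I.Hom Y X)
    (w : W.Pl F) (z : W.Z Y w) : L.θ X w (I.push f w z) = R.map f w (L.θ Y w z) := R.mp f w z

/-- Properties of the modules `M_w`. -/
structure ModuleFacts {W : Vars.{u}} (P : Pairing W) {p : ℕ} [Fact p.Prime]
    (L : LocalModules W p) : Prop where
  /-- `Br(X_w){p}` is of cofinite type. -/
  fin : ∀ {F} (X : W.V F) w, Module.Finite ℤ_[p] (L.M X w)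
  /-- `θ(z)` determines the pairing of `z` with `Br(X){p}`. -/
  th_pr : ∀ {F} (X : W.V F) (w : W.Pl F) (z z' : W.Z X w), L.th z = L.th z' → ∀ α : P.Br X,
    P.Primary p α → P.pr z α = P.pr z' α
  /-- The image of the group of zero-cycles of degree 0 is closed (compactness of the groups of
  degree 0 divisor classes of curves over `F_w`). -/
  cl : ∀ {F} (X : W.V F) (w : W.Pl F), L.IsSub (L.im X w)

theorem ModuleFacts.closed {W : Vars.{u}} {P : Pairing W} {p : ℕ} [Fact p.Prime]
    {L : LocalModules W p} (h : ModuleFacts P L) {F : W.K} (X : W.V F) (w : W.Pl F) :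
    ∃ N : Submodule ℤ_[p] (L.M X w), (N : Set (L.M X w)) = L.θ X w '' {z | W.deg X w z = 0} :=
  h.cl X w

/-- The curve `C → X` is full at `w`: it has a zero-cycle of degree 1 over `F_w` and its
zero-cycles of degree 0 have the same image in `M_w` as those of `X_w`. -/
def Full {W : Vars.{u}} {I : Immersions W} {p : ℕ} [Fact p.Prime] (L : LocalModules W p)
    {F : W.K} {C X : W.V F} (c : I.Hom C X) (w : W.Pl F) : Prop :=
  (∃ z : W.Z C w, W.dg z = 1) ∧ ∀ y : W.Z X w, W.dg y = 0 →
    ∃ y' : W.Z C w, W.dg y' = 0 ∧ L.th (I.ps c y') = L.th y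

/-- `C → X` has a zero-cycle near `a` at `w`: of the same degree and with the same image in `M_w`
up to `p` times the image of a zero-cycle of degree 0. -/
def Near {W : Vars.{u}} {I : Immersions W} {p : ℕ} [Fact p.Prime] (L : LocalModules W p)
    {F : W.K} {C X : W.V F} (c : I.Hom C X) (w : W.Pl F) (a : W.Z X w) : Prop :=
  ∃ a' : W.Z C w, W.dg a' = W.dg a ∧ ∃ y : W.Z X w, W.dg y = 0 ∧
    L.th (I.ps c a') = L.addp (L.th a) (L.th y)

/-- Curves through approximations of local zero-cycles (Bertini, weak approximation, continuity of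
the pairing with the Brauer group; `pN` is open in the image `N` of the zero-cycles of degree 0);
by good reduction (and class field theory over finite fields), the curve is full at almost all
places. -/
def Curves {W : Vars.{u}} (I : Immersions W) {p : ℕ} [Fact p.Prime]
    (L : LocalModules W p) : Prop :=
  ∀ {F} (X : W.V F), 2 ≤ W.dim X → ∀ T : Set (W.Pl F), T.Finite → ∀ (N : ℕ)
    (a : ∀ w, ℕ → W.Z X w), ∃ (C : W.V F) (c : I.Hom C X), W.dim C = 1 ∧
      (∀ w ∈ T, ∀ i < N, Near L c w (a w i)) ∧ {w | ¬ Full L c w}.Finite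

end Pool.Agent.TH439.TF
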