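import Pool.Agent.TH439.TF1

namespace Pool.Agent.TH439.TF

universe u

/-- There is a family of local zero-cycles of degree 1 orthogonal to `Br(X)`. -/
def BM {W : Vars.{u}} (P : Pairing W) {F : W.K} (X : W.V F) : Prop :=
  ∃ z : ∀ w, W.Z X w, (∀ w, W.dg (z w) = 1) ∧ ∀ α : P.Br X, ∑ᶠ w, P.pr (z w) α = 0

/-- Restriction-corestriction. -/
theorem bm_bc {W : Vars.{u}} {P : Pairing W} (hP : PairingFacts P) (B : BaseChange W)
    (K : Corestriction P B)
    {F E : W.K} (h : B.Ext F E) (X : W.V F)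
    (hX : BM P X) : BM P (B.bc h X) := by
  classical
  obtain ⟨z, hz, ho⟩ := hX
  have hdeg : ∀ w', W.deg (B.bc h X) w' (B.res h X w' (z (B.below h w'))) = 1 := by
    intro w'; rw [B.deg_res]; exact hz _
  refine ⟨fun w' => B.res h X w' (z (B.below h w')), hdeg, ?_⟩
  intro β
  set f : W.Pl E → QZ :=
    fun w' => P.j (B.bc h X) w' (B.res h X w' (z (B.below h w'))) β with hf
  have hfs : {w' | f w' ≠ 0}.Finite := hP.j_finite (B.bc h X) _ hdeg β
  have hfs' : (Function.support f).Finite := hfs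
  set g : W.Pl F → QZ := fun w => P.j X w (z w) (K.cor h X β) with hg
  have hfg : ∀ w, ∑ᶠ w' : {w' : W.Pl E // B.below h w' = w}, f w'.1 = g w := by
    intro w; exact K.proj h X z β w
  have hfib : ∀ w, ∑ᶠ w' : {w' : W.Pl E // B.below h w' = w}, f w'.1
      = ∑ w' ∈ hfs'.toFinset with B.below h w' = w, f w' := by
    intro w
    have h1 : ∑ᶠ w' : {w' : W.Pl E // B.below h w' = w}, f w'.1
        = ∑ᶠ w' ∈ {w' : W.Pl E | B.below h w' = w}, f w' :=
      finsum_subtype_eq_finsum_cond (fun w' => B.below h w' = w)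
    rw [h1]
    apply finsum_mem_eq_sum_of_inter_support_eq
    ext w'
    simp only [Set.mem_inter_iff, Set.mem_ofPred_eq, Function.mem_support, Finset.coe_filter,
      Set.Finite.mem_toFinset]
    tauto
  have hgs : Function.support g ⊆ ↑(hfs'.toFinset.image (B.below h)) := by
    intro w hw
    rw [Function.mem_support, ← hfg w, hfib w] at hw
    obtain ⟨w', hw', -⟩ := Finset.exists_ne_zero_of_sum_ne_zero hw
    rw [Finset.mem_filter] at hw'
    rw [Finset.mem_coe, Finset.mem_image]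
    exact ⟨w', hw'.1, hw'.2⟩
  have h0 := ho (K.cor h X β)
  change ∑ᶠ w, g w = 0 at h0
  rw [finsum_eq_sum_of_support_subset g hgs] at h0
  change ∑ᶠ w', f w' = 0
  rw [finsum_eq_sum f hfs', ← Finset.sum_fiberwise_of_maps_to
    (fun w' hw' => Finset.mem_image_of_mem (B.below h) hw'), ← h0]
  apply Finset.sum_congr rfl
  intro w _
  rw [← hfg w, hfib w]

/-- The profinite integer which is `0` at `p` and `1 / p ^ m` at the other primes. -/
theorem exists_hat (p : ℕ) (hp : p.Prime) (m : ℕ) :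
    ∃ c : ℕ → ℤ, IsProfinite c ∧
      (∀ r : ℕ, ((p ^ r : ℕ) : ℤ) ∣ c (p ^ r)) ∧
      ∀ n : ℕ, 0 < n → n.Coprime p → (n : ℤ) ∣ c n * (p : ℤ) ^ m - 1 := by
  let c : ℕ → ℤ := fun n =>
    (p : ℤ) ^ ((ordCompl[p] n).totient * (n.factorization p + m + 1) - m)
  have hpos : ∀ n : ℕ, 0 < n → 0 < (ordCompl[p] n).totient := by
    intro n hn
    exact Nat.totient_pos.2 (Nat.ordCompl_pos p hn.ne')
  have hge : ∀ n : ℕ, 0 < n →
      n.factorization p + m + 1 ≤ (ordCompl[p] n).totient * (n.factorization p + m + 1) :=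
    fun n hn => Nat.le_mul_of_pos_left _ (hpos n hn)
  have hA : ∀ n : ℕ, 0 < n → ((p : ℤ) ^ n.factorization p) ∣ c n := by
    intro n hn
    apply pow_dvd_pow
    have := hge n hn
    omega
  have hB : ∀ n : ℕ, 0 < n → ((ordCompl[p] n : ℕ) : ℤ) ∣ c n * (p : ℤ) ^ m - 1 := by
    intro n hn
    have h1 : c n * (p : ℤ) ^ m
        = (((p ^ (ordCompl[p] n).totient) ^ (n.factorization p + m + 1) : ℕ) : ℤ) := by
      have := hge n hn
      simp only [c]
      rw [← pow_add, Nat.sub_add_cancel (by omega)]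
      push_cast
      rw [← pow_mul]
    rw [h1]
    have hcop : Nat.Coprime p (ordCompl[p] n) := Nat.coprime_ordCompl hp hn.ne'
    have h2 : (p ^ (ordCompl[p] n).totient) ≡ 1 [MOD ordCompl[p] n] := Nat.ModEq.pow_totient hcop
    have h3 := h2.pow (n.factorization p + m + 1)
    rw [one_pow] at h3
    have h4 := (Nat.modEq_iff_dvd.1 h3.symm)
    simpa using h4
  refine ⟨c, ?_, ?_, ?_⟩
  · intro n l hl hnl
    have hn : 0 < n := Nat.pos_of_dvd_of_pos hnl hl
    have hfac : n.factorization p ≤ l.factorization p :=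
      (Nat.factorization_le_iff_dvd hn.ne' hl.ne').2 hnl p
    have hoc : ordCompl[p] n ∣ ordCompl[p] l := Nat.ordCompl_dvd_ordCompl_of_dvd hnl p
    have h1 : ((p : ℤ) ^ n.factorization p) ∣ c l - c n :=
      dvd_sub ((pow_dvd_pow _ hfac).trans (hA l hl)) (hA n hn)
    have h2 : ((ordCompl[p] n : ℕ) : ℤ) ∣ (c l - c n) * (p : ℤ) ^ m := by
      have h3 : ((ordCompl[p] n : ℕ) : ℤ) ∣ c l * (p : ℤ) ^ m - 1 :=
        (Int.natCast_dvd_natCast.2 hoc).trans (hB l hl)
      have h4 := dvd_sub h3 (hB n hn)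
      have h5 : c l * (p : ℤ) ^ m - 1 - (c n * (p : ℤ) ^ m - 1) = (c l - c n) * (p : ℤ) ^ m := by
        ring
      rwa [h5] at h4
    have hcop : IsCoprime ((p : ℤ)) ((ordCompl[p] n : ℕ) : ℤ) :=
      Nat.isCoprime_iff_coprime.2 (Nat.coprime_ordCompl hp hn.ne')
    have h3 : ((ordCompl[p] n : ℕ) : ℤ) ∣ c l - c n :=
      (hcop.symm.pow_right (n := m)).dvd_of_dvd_mul_right h2
    have h4 := (hcop.pow_left (m := n.factorization p)).mul_dvd h1 h3
    have h5 : ((p : ℤ) ^ n.factorization p) * ((ordCompl[p] n : ℕ) : ℤ) = (n : ℤ) := by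
      exact_mod_cast Nat.ordProj_mul_ordCompl_eq_self n p
    rwa [h5] at h4
  · intro r
    have h1 := hA (p ^ r) (pow_pos hp.pos r)
    rw [hp.factorization_pow] at h1
    simpa using h1
  · intro n hn hc
    have h1 := hB n hn
    have h2 : n.factorization p = 0 :=
      Nat.factorization_eq_zero_of_not_dvd ((Nat.Prime.coprime_iff_not_dvd hp).1 hc.symm)
    rw [h2, pow_zero, Nat.div_one] at h1
    exact h1

end Pool.Agent.TH439.TF
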