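import Pool.Agent.TH439.TF2

namespace Pool.Agent.TH439.TF

universe u

/-- The curve `C → X` captures the zero-cycles of degree 1 at `w`: every zero-cycle of degree 1 on
`X_w` has the same pairing with `Br(X_w){p}` as a zero-cycle of degree 1 on `C_w`. -/
def Captures {W : Vars.{u}} {I : Immersions W} {p : ℕ} [Fact p.Prime]
    (L : LocalModules W p) {F : W.K} {C X : W.V F} (c : I.Hom C X)
    (w : W.Pl F) : Prop :=
  ∀ z : W.Z X w, W.deg X w z = 1 → ∃ z' : W.Z C w, W.deg C w z' = 1 ∧
    L.θ X w (I.push c w z') = L.θ X w z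

theorem captures_of {W : Vars.{u}} {I : Immersions W} {p : ℕ}
    [Fact p.Prime] (L : LocalModules W p) {F : W.K} {C X : W.V F}
    (c : I.Hom C X) (w : W.Pl F) (h : Full L c w) : Captures L c w := by
  obtain ⟨h1, h2⟩ := h
  simp only [Vars.dg, LocalModules.th, Immersions.ps] at h1 h2
  intro z hz
  obtain ⟨z₁, hz₁⟩ := h1
  obtain ⟨y', hy', hθ⟩ := h2 (z - I.push c w z₁) (by rw [map_sub, I.deg_push, hz, hz₁, sub_self])
  refine ⟨z₁ + y', by rw [map_add, hz₁, hy', add_zero], ?_⟩
  rw [map_add, map_add, hθ, map_sub]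
  abel

/-- **The curve lemma**: a curve capturing the zero-cycles of degree 1 at the places of a finite
set and at almost all places (Nakayama's lemma for the images of the zero-cycles of degree 0). -/
theorem exists_curve {W : Vars.{u}} {P : Pairing W} {I : Immersions W} {p : ℕ}
    [hp : Fact p.Prime] (L : LocalModules W p) (R : ModuleMaps I L) (hL : ModuleFacts P L)
    (hC : Curves I L) {F : W.K}
    (X : W.V F) (hX : 2 ≤ W.dim X) (z : ∀ w, W.Z X w)
    (hz : ∀ w, W.deg X w (z w) = 1) (T : Set (W.Pl F)) (hT : T.Finite) :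
    ∃ (C : W.V F) (c : I.Hom C X), W.dim C = 1 ∧ (∀ w ∈ T, Captures L c w) ∧
      {w | ¬ Captures L c w}.Finite := by
  classical
  -- generators of the images at the places of `T`
  have hgen : ∀ w : W.Pl F, ∃ (n : ℕ) (a : ℕ → W.Z X w) (N : Submodule ℤ_[p] (L.M X w)),
      (N : Set (L.M X w)) = L.θ X w '' {z | W.deg X w z = 0} ∧
      (∀ i, W.deg X w (a i) = 0) ∧
      N = Submodule.span ℤ_[p] (Set.range fun i : Fin n => L.θ X w (a i)) := by
    intro w
    obtain ⟨N, hN⟩ := hL.closed X w
    have := hL.fin X w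
    have hfg : N.FG := IsNoetherian.noetherian N
    obtain ⟨n, s, hs⟩ := Submodule.fg_iff_exists_fin_generating_family.1 hfg
    have hmem : ∀ i, ∃ y, W.deg X w y = 0 ∧ L.θ X w y = s i := by
      intro i
      have : s i ∈ (N : Set (L.M X w)) := by
        rw [← hs]; exact Submodule.subset_span ⟨i, rfl⟩
      rw [hN] at this
      obtain ⟨y, hy, hy'⟩ := this
      exact ⟨y, hy, hy'⟩
    choose y hy hy' using hmem
    refine ⟨n, fun i => if h : i < n then y ⟨i, h⟩ else 0, N, hN, ?_, ?_⟩
    · intro i
      by_cases h : i < n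
      · simp only [h, dif_pos]; exact hy _
      · simp only [h, dif_neg, not_false_eq_true]; exact map_zero _
    · rw [← hs]
      congr 2
      funext i
      simp only [i.2, dif_pos]
      exact (hy' i).symm
  choose n a N hN ha hspan using hgen
  -- a common bound
  obtain ⟨m, hm⟩ : ∃ m, ∀ w ∈ T, n w < m := by
    refine ⟨hT.toFinset.sup n + 1, fun w hw => ?_⟩
    have : n w ≤ hT.toFinset.sup n := Finset.le_sup (f := n) (hT.mem_toFinset.2 hw)
    omega
  obtain ⟨C, c, hdim, hnear, hfin⟩ := hC X hX T hT (m + 1)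
    (fun w i => if i = 0 then z w else a w (i - 1))
  refine ⟨C, c, hdim, ?_, ?_⟩
  · intro w hw
    refine captures_of L c w ⟨?_, ?_⟩
    · obtain ⟨a', ha', -⟩ := hnear w hw 0 (by omega)
      simp only [Vars.dg] at ha' ⊢
      refine ⟨a', ?_⟩
      rw [ha']
      simp only [if_true]
      exact hz w
    · -- Nakayama
      obtain ⟨NC, hNC⟩ := hL.closed C w
      have := hL.fin X w
      have hle : NC.map (R.map c w) ≤ N w := by
        rintro _ ⟨x, hx, rfl⟩
        have hx' : x ∈ (NC : Set (L.M C w)) := hx
        rw [hNC] at hx'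
        obtain ⟨y, hy, rfl⟩ := hx'
        have h1 : R.map c w (L.θ C w y) ∈ (N w : Set (L.M X w)) := by
          rw [hN w, ← R.map_θ]
          exact ⟨I.push c w y, by
            show W.deg X w (I.push c w y) = 0
            rw [I.deg_push]; exact hy, rfl⟩
        exact h1
      have hsup : N w ≤ NC.map (R.map c w) ⊔
          (Ideal.span {(p : ℤ_[p])}) • N w := by
        rw [hspan w, Submodule.span_le]
        rintro _ ⟨i, rfl⟩
        obtain ⟨a', ha', y, hy, hθ⟩ := hnear w hw ((i : ℕ) + 1)
          (by have := hm w hw; have := i.2; omega)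
        simp only [Vars.dg, LocalModules.th, Immersions.ps, LocalModules.addp] at ha' hy hθ
        simp only [Nat.add_eq_zero_iff, one_ne_zero, and_false, if_false,
          Nat.add_sub_cancel] at ha' hθ
        have h1 : L.θ X w (I.push c w a') ∈ NC.map (R.map c w) := by
          rw [R.map_θ]
          refine Submodule.mem_map_of_mem ?_
          have : L.θ C w a' ∈ (NC : Set (L.M C w)) := by
            rw [hNC]
            exact ⟨a', by
              show W.deg C w a' = 0
              rw [ha']; exact ha w _, rfl⟩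
          exact this
        have h2 : L.θ X w y ∈ N w := by
          have : L.θ X w y ∈ (N w : Set (L.M X w)) := by
            rw [hN w]; exact ⟨y, hy, rfl⟩
          exact this
        have h3 : (p : ℤ_[p]) • L.θ X w y ∈ (Ideal.span {(p : ℤ_[p])}) • N w :=
          Submodule.smul_mem_smul (Ideal.mem_span_singleton_self _) h2
        have h4 : L.θ X w (a w i) = L.θ X w (I.push c w a') - (p : ℤ_[p]) • L.θ X w y := by
          rw [hθ]; abel
        rw [← hspan w]
        show L.θ X w (a w i) ∈ _
        rw [h4]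
        exact Submodule.sub_mem _ (Submodule.mem_sup_left h1) (Submodule.mem_sup_right h3)
      have hNak : N w ≤ NC.map (R.map c w) := by
        apply Submodule.le_of_le_smul_of_le_jacobson_bot (IsNoetherian.noetherian (N w)) ?_ hsup
        rw [IsLocalRing.jacobson_eq_maximalIdeal ⊥ bot_ne_top,
          ← PadicInt.maximalIdeal_eq_span_p]
      intro y hy
      have h1 : L.θ X w y ∈ N w := by
        have : L.θ X w y ∈ (N w : Set (L.M X w)) := by
          rw [hN w]; exact ⟨y, hy, rfl⟩
        exact this
      obtain ⟨x, hx, hxy⟩ := hNak h1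
      have hx' : x ∈ (NC : Set (L.M C w)) := hx
      rw [hNC] at hx'
      obtain ⟨y', hy', rfl⟩ := hx'
      exact ⟨y', hy', (R.map_θ c w y').trans hxy⟩
  · refine hfin.subset ?_
    intro w hw
    by_contra hn
    apply hw
    simp only [Set.mem_ofPred_eq, not_not] at hn
    exact captures_of L c w hn

end Pool.Agent.TH439.TF
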