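import Pool.Agent.TH439.TF3

namespace Pool.Agent.TH439.TF

universe u

/-- Property (ZC): if there is an orthogonal family of local zero-cycles of degree 1, then `X` has a
zero-cycle of degree 1. -/
def ZC {W : Vars.{u}} (P : Pairing W) {F : W.K} (X : W.V F) : Prop :=
  BM P X → ∃ a : W.Z0 X, W.deg0 X a = 1

/-- The `p`-part of property (ZC): if there is an orthogonal family of local zero-cycles of degree
1, then `X` has a zero-cycle of degree prime to `p`. -/
def ZCAt {W : Vars.{u}} (P : Pairing W) (p : ℕ) {F : W.K}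
    (X : W.V F) : Prop :=
  BM P X → ∃ a : W.Z0 X, ¬ (p : ℤ) ∣ W.deg0 X a

theorem zsmul_eq_self_of {A : Type*} [AddCommGroup A] {x : A} {n : ℕ} (hx : n • x = 0)
    {c : ℤ} (hc : (n : ℤ) ∣ c - 1) : c • x = x := by
  obtain ⟨d, hd⟩ := hc
  have h1 : c = n * d + 1 := by linarith
  rw [h1, add_smul, one_smul, mul_comm, mul_smul, natCast_zsmul, hx, smul_zero, zero_add]

theorem zsmul_eq_zero_of {A : Type*} [AddCommGroup A] {x : A} {n : ℕ} (hx : n • x = 0)
    {c : ℤ} (hc : (n : ℤ) ∣ c) : c • x = 0 := by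
  obtain ⟨d, hd⟩ := hc
  rw [hd, mul_comm, mul_smul, natCast_zsmul, hx, smul_zero]

/-- A family on `Y` whose `p`-part is orthogonal can be corrected to an orthogonal family, if `Y`
has a global zero-cycle of `p`-power degree. -/
theorem bm_of_primary {W : Vars.{u}} (P : Pairing W) (hP : PairingFacts P) (hR : Reciprocity P)
    (hH : HatStable P)
    {F : W.K} (Y : W.V F) (p : ℕ) (hp : p.Prime)
    (b : W.Z0 Y) (m : ℕ) (hb : W.deg0 Y b = (p : ℤ) ^ m) (y : ∀ w, W.Z Y w)
    (hy : ∀ w, W.deg Y w (y w) = 1)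
    (ho : ∀ α : P.Br Y, (∃ r : ℕ, p ^ r • α = 0) → ∑ᶠ w, P.j Y w (y w) α = 0) : BM P Y := by
  classical
  obtain ⟨c, hc, hcp, hcn⟩ := exists_hat p hp m
  have hA : ∀ w, ∃ a' : W.Z Y w, W.deg Y w a' = 0 ∧ ∀ (α : P.Br Y) (n : ℕ), 0 < n →
      n • α = 0 → P.j Y w a' α
        = c n • (P.j Y w (W.loc Y w b) α - (p : ℤ) ^ m • P.j Y w (y w) α) := by
    intro w
    have h0 : W.deg Y w (W.loc Y w b - (p : ℤ) ^ m • y w) = 0 := by
      rw [map_sub, W.deg_loc, hb, map_zsmul, hy, smul_eq_mul, mul_one, sub_self]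
    obtain ⟨a', ha', hj⟩ := hH Y w c hc _ h0
    refine ⟨a', ha', fun α n hn hα => ?_⟩
    refine (hj α n hn hα).trans ?_
    simp only [Pairing.pr]
    rw [map_sub, map_zsmul]
    rfl
  choose a' ha' hj using hA
  have hdeg : ∀ w, W.deg Y w (y w + a' w) = 1 := by
    intro w; rw [map_add, hy, ha', add_zero]
  have hjadd : ∀ w (α : P.Br Y), P.j Y w (y w + a' w) α = P.j Y w (y w) α + P.j Y w (a' w) α := by
    intro w α; rw [map_add]; rfl
  refine ⟨fun w => y w + a' w, hdeg, ?_⟩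
  -- the `p`-primary part
  have hp1 : ∀ α : P.Br Y, (∃ r : ℕ, p ^ r • α = 0) → ∑ᶠ w, P.j Y w (y w + a' w) α = 0 := by
    rintro α ⟨r, hr⟩
    rw [← ho α ⟨r, hr⟩]
    apply finsum_congr
    intro w
    rw [hjadd, hj w α (p ^ r) (pow_pos hp.pos r) hr, zsmul_eq_zero_of ?_ (hcp r), add_zero]
    rw [smul_sub, smul_comm, ← map_nsmul, ← map_nsmul, hr, map_zero, map_zero, smul_zero, sub_zero]
  -- the prime-to-`p` part
  have hp2 : ∀ (α : P.Br Y) (n : ℕ), 0 < n → n.Coprime p → n • α = 0 →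
      ∑ᶠ w, P.j Y w (y w + a' w) α = 0 := by
    intro α n hn hnp hα
    have h1 : ∀ w, P.j Y w (y w + a' w) α = c n • P.j Y w (W.loc Y w b) α := by
      intro w
      have h2 : n • P.j Y w (y w) α = 0 := by rw [← map_nsmul, hα, map_zero]
      have h3 : (c n * (p : ℤ) ^ m) • P.j Y w (y w) α = P.j Y w (y w) α :=
        zsmul_eq_self_of h2 (hcn n hn hnp)
      rw [hjadd, hj w α n hn hα, smul_sub, ← mul_smul, h3]
      abel
    rw [finsum_congr h1, ← smul_finsum' (c n) (hR.finite Y b α), hR.sum Y b α,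
      smul_zero]
  intro α
  obtain ⟨N, hN, hα⟩ := hP.torsion Y α
  obtain ⟨r, n, hpn, hNe⟩ := Nat.exists_eq_pow_mul_and_not_dvd hN.ne' p hp.ne_one
  have hn : 0 < n := by
    rcases Nat.eq_zero_or_pos n with h | h
    · rw [h] at hpn; exact absurd (dvd_zero p) hpn
    · exact h
  have hcop : n.Coprime p := ((Nat.Prime.coprime_iff_not_dvd hp).2 hpn).symm
  obtain ⟨s, t, hst⟩ : ∃ s t : ℤ, s * (p ^ r : ℕ) + t * n = 1 :=
    Nat.isCoprime_iff_coprime.2 (hcop.symm.pow_left r)
  have hdec : α = (t * n) • α + (s * (p ^ r : ℕ)) • α := by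
    rw [← add_smul, add_comm, hst, one_smul]
  have h1 : p ^ r • ((t * n) • α) = 0 := by
    rw [← natCast_zsmul, ← mul_smul, show ((p ^ r : ℕ) : ℤ) * (t * n) = t * ((p ^ r * n : ℕ) : ℤ) by
      push_cast; ring, mul_smul, natCast_zsmul, ← hNe, hα, smul_zero]
  have h2 : n • ((s * (p ^ r : ℕ)) • α) = 0 := by
    rw [← natCast_zsmul, ← mul_smul, show (n : ℤ) * (s * (p ^ r : ℕ)) = s * ((p ^ r * n : ℕ) : ℤ) by
      push_cast; ring, mul_smul, natCast_zsmul, ← hNe, hα, smul_zero]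
  have h3 : ∀ w, P.j Y w (y w + a' w) α = P.j Y w (y w + a' w) ((t * n) • α)
      + P.j Y w (y w + a' w) ((s * (p ^ r : ℕ)) • α) := by
    intro w
    rw [← map_add, ← hdec]
  change ∑ᶠ w, P.j Y w (y w + a' w) α = 0
  rw [finsum_congr h3, finsum_add_distrib (hP.j_finite Y _ hdeg _) (hP.j_finite Y _ hdeg _),
    hp1 _ ⟨r, h1⟩, hp2 _ n hn hcop h2, add_zero]

/-- The main step over a field over which there is a zero-cycle of `p`-power degree. -/
theorem core_step {W : Vars.{u}} {P : Pairing W} {I : Immersions W}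
    {J : Pullback P I} (hP : PairingFacts P) (hR : Reciprocity P) (hH : HatStable P) (p : ℕ) [hp : Fact p.Prime]
    (hS : HypersurfaceSections J p) (L : LocalModules W p) (R : ModuleMaps I L)
    (hL : ModuleFacts P L) (hC : Curves I L) (d : ℕ)
    (hd : 3 ≤ d)
    (ih : ∀ {F} (Y : W.V F), W.dim Y = d →
      ZCAt P p Y)
    {E : W.K} (X : W.V E)
    (hX : W.dim X = d + 1) (hBM : BM P X) (a : W.Z0 X) (m : ℕ) (ha : W.deg0 X a = (p : ℤ) ^ m) :
    ∃ e : W.Z0 X, ¬ (p : ℤ) ∣ W.deg0 X e := by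
  obtain ⟨z, hz, ho⟩ := hBM
  obtain ⟨C₁, c₁, hC₁, -, hfin⟩ := exists_curve L R hL hC X (by omega) z hz ∅ Set.finite_empty
  obtain ⟨C₂, c₂, hC₂, hcap₂, -⟩ := exists_curve L R hL hC X (by omega) z hz _ hfin
  obtain ⟨Y, f, hdimY, ⟨b, hb⟩, hf₁, hf₂, hsurj⟩ :=
    hS X C₁ C₂ c₁ c₂ a (by omega) hC₁ hC₂
  have hbdeg : W.deg0 Y b = (p : ℤ) ^ m := by rw [← I.deg_push0 f, hb, ha]
  have hloc : ∀ w, ∃ y : W.Z Y w, W.deg Y w y = 1 ∧
      L.θ X w (I.push f w y) = L.θ X w (z w) := by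
    intro w
    by_cases hw : Captures L c₁ w
    · obtain ⟨z', hz', hθ⟩ := hw (z w) (hz w)
      obtain ⟨y, hy⟩ := hf₁ w z'
      simp only [Immersions.ps] at hy
      exact ⟨y, by rw [← I.deg_push f, hy, I.deg_push, hz'], by rw [hy, hθ]⟩
    · obtain ⟨z', hz', hθ⟩ := hcap₂ w hw (z w) (hz w)
      obtain ⟨y, hy⟩ := hf₂ w z'
      simp only [Immersions.ps] at hy
      exact ⟨y, by rw [← I.deg_push f, hy, I.deg_push, hz'], by rw [hy, hθ]⟩
  choose y hy hθ using hloc
  have hprim : ∀ α : P.Br Y, (∃ r : ℕ, p ^ r • α = 0) → ∑ᶠ w, P.j Y w (y w) α = 0 := by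
    intro α hα
    obtain ⟨β, hβ, rfl⟩ := hsurj α hα
    rw [← ho β]
    apply finsum_congr
    intro w
    rw [← J.adj]
    exact hL.th_pr X w _ _ (hθ w) β hβ
  have hBMY : BM P Y := bm_of_primary P hP hR hH Y p hp.1 b m hbdeg y hy hprim
  obtain ⟨e, he⟩ := ih Y (by omega) hBMY
  exact ⟨I.push0 f e, by rw [I.deg_push0]; exact he⟩

/-- **The main step**: from dimension `d` to dimension `d + 1`, at the prime `p`. -/
theorem main_step {W : Vars.{u}} {P : Pairing W} {I : Immersions W} {B : BaseChange W}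
    {J : Pullback P I} (K : Corestriction P B) (hB : CycleFacts B) (hP : PairingFacts P)
    (hR : Reciprocity P)
    (hH : HatStable P) (p : ℕ)
    [hp : Fact p.Prime] (hS : HypersurfaceSections J p) (L : LocalModules W p) (R : ModuleMaps I L)
    (hL : ModuleFacts P L) (hC : Curves I L) (d : ℕ)
    (hd : 3 ≤ d)
    (ih : ∀ {F} (Y : W.V F), W.dim Y = d →
      ZCAt P p Y)
    {F : W.K} (X : W.V F)
    (hX : W.dim X = d + 1) : ZCAt P p X := by
  intro hBM
  obtain ⟨E, h, hn, a, m, ha⟩ := hB.sylow X p hp.1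
  have hBM' := bm_bc hP B K h X hBM
  obtain ⟨e, he⟩ := core_step hP hR hH p hS L R hL hC d hd ih (B.bc h X)
    (by rw [B.dim_bc, hX]) hBM' a m ha
  obtain ⟨x, hx⟩ := hB.down h X e
  refine ⟨x, ?_⟩
  rw [hx]
  intro hdvd
  have hprime : Prime (p : ℤ) := Nat.prime_iff_prime_int.1 hp.1
  rcases hprime.dvd_or_dvd hdvd with h1 | h1
  · exact hn (Int.natCast_dvd_natCast.1 h1)
  · exact he h1

/-- All dimensions `≥ 3` from dimension 3, at the prime `p`. -/
theorem all_dims {W : Vars.{u}} {P : Pairing W} {I : Immersions W} {B : BaseChange W}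
    {J : Pullback P I} (K : Corestriction P B) (hB : CycleFacts B) (hP : PairingFacts P)
    (hR : Reciprocity P)
    (hH : HatStable P) (p : ℕ)
    [hp : Fact p.Prime] (hS : HypersurfaceSections J p) (L : LocalModules W p) (R : ModuleMaps I L)
    (hL : ModuleFacts P L) (hC : Curves I L)
    (h3 : ∀ {F} (Y : W.V F), W.dim Y = 3 →
      ZCAt P p Y) (d : ℕ) (hd : 3 ≤ d) :
    ∀ {F} (X : W.V F), W.dim X = d → ZCAt P p X := by
  induction d, hd using Nat.le_induction with
  | base => exact fun X hX => h3 X hX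
  | succ d hd ih => exact fun X hX => main_step K hB hP hR hH p hS L R hL hC d hd ih X hX

/-- A subgroup of `ℤ` containing, for every prime `p`, an integer prime to `p` contains `1`. -/
theorem exists_one_of_forall {A : Type*} [AddCommGroup A] (f : A →+ ℤ)
    (h : ∀ p : ℕ, p.Prime → ∃ a, ¬ (p : ℤ) ∣ f a) : ∃ a, f a = 1 := by
  obtain ⟨g, hg⟩ := Int.subgroup_cyclic f.range
  have hmem : ∀ a, g ∣ f a := by
    intro a
    have h1 : f a ∈ AddSubgroup.closure {g} := by rw [← hg]; exact ⟨a, rfl⟩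
    rw [AddSubgroup.mem_closure_singleton] at h1
    obtain ⟨n, hn⟩ := h1
    exact ⟨n, by rw [← hn, smul_eq_mul, mul_comm]⟩
  have hunit : g.natAbs = 1 := by
    by_contra hne
    obtain ⟨p, hp, hpd⟩ := Nat.exists_prime_and_dvd hne
    obtain ⟨a, ha⟩ := h p hp
    exact ha ((Int.natCast_dvd.2 hpd).trans (hmem a))
  have h1 : (1 : ℤ) ∈ f.range := by
    rw [hg, AddSubgroup.mem_closure_singleton]
    rcases Int.natAbs_eq_iff.1 hunit with h2 | h2
    · exact ⟨1, by rw [h2]; simp⟩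
    · exact ⟨-1, by rw [h2]; simp⟩
  exact h1

/-- The arithmetic of the smooth projective geometrically integral varieties over a class of global
fields closed under finite extensions. -/
structure Arithmetic where
  W : Vars.{u}
  P : Pairing W
  I : Immersions W
  J : Pullback P I
  B : BaseChange W
  K : Corestriction P B
  facts : PairingFacts P
  recip : Reciprocity P
  cycles : CycleFacts B
  hat : HatStable P

/-- The facts at a prime `p` different from the characteristics of the fields of the class. -/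
structure AtPrime (A : Arithmetic.{u}) (p : ℕ) [Fact p.Prime] where
  L : LocalModules A.W p
  R : ModuleMaps A.I L
  facts : ModuleFacts A.P L
  curves : Curves A.I L
  sections : HypersurfaceSections A.J p

/-- (ZC) holds for all varieties of dimension `d` over all fields of the class. -/
def Arithmetic.ZCDim (A : Arithmetic.{u}) (d : ℕ) : Prop :=
  ∀ (F : A.W.K) (X : A.W.V F), A.W.dim X = d → ZC A.P X

/-- The `p`-part of (ZC) holds for all varieties of dimension `d` over all fields of the class. -/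
def Arithmetic.ZCDimAt (A : Arithmetic.{u}) (p d : ℕ) : Prop :=
  ∀ (F : A.W.K) (X : A.W.V F), A.W.dim X = d → ZCAt A.P p X

theorem Arithmetic.zcDimAt (A : Arithmetic.{u}) (p : ℕ) [hp : Fact p.Prime] (D : AtPrime A p)
    (h3 : A.ZCDimAt p 3) (d : ℕ) (hd : 3 ≤ d) : A.ZCDimAt p d := by
  intro F X hX
  exact all_dims A.K A.cycles A.facts A.recip A.hat p D.sections D.L D.R D.facts D.curves
    (fun Y hY => h3 _ Y hY) d hd X hX

theorem Arithmetic.zcDim (A : Arithmetic.{u}) (D : ∀ (p : ℕ) [Fact p.Prime], AtPrime A p)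
    (h3 : A.ZCDim 3) (d : ℕ) (hd : 3 ≤ d) : A.ZCDim d := by
  intro F X hX hBM
  apply exists_one_of_forall (A.W.deg0 X)
  intro p hp
  have : Fact p.Prime := ⟨hp⟩
  refine A.zcDimAt p (D p) ?_ d hd F X hX hBM
  intro F Y hY hBMY
  obtain ⟨a, ha⟩ := h3 F Y hY hBMY
  refine ⟨a, ?_⟩
  rw [ha]
  intro h1
  have h2 := Int.le_of_dvd one_pos h1
  have := hp.one_lt
  omega

end Pool.Agent.TH439.TF
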