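import Pool.Agent.TH439.TF4
import Pool.Agent.TH439.CP3

namespace Pool.Agent.TH439.TG

open Pool.Agent.TH439

universe u

/-- The fields of the class and their separable closures. -/
structure GaloisData (W : TF.Vars.{u}) where
  /-- The field `F`. -/
  k : W.K → Type u
  /-- A separable closure of `F`. -/
  Ω : W.K → Type u
  fk : ∀ F, Field (k F)
  fΩ : ∀ F, Field (Ω F)
  alg : ∀ F, Algebra (k F) (Ω F)
  gal : ∀ F, IsGalois (k F) (Ω F)
  sep : ∀ F, IsSepClosed (Ω F)

attribute [instance] GaloisData.fk GaloisData.fΩ GaloisData.alg GaloisData.gal GaloisData.sep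

/-- The varieties `Y` over `F` as Brauer-Manin data over `F` (points, zero-cycles and Brauer groups
over all finite extensions of `F`). -/
structure Compare (A : TF.Arithmetic.{u}) (G : GaloisData A.W) where
  /-- The Brauer-Manin data of `Y`. -/
  D : ∀ {F} (_ : A.W.V F), CP.BrauerManinData.{u, u} (G.k F) (G.Ω F)
  /-- An orthogonal family of local zero-cycles of degree 1 on `Y`. -/
  bm : ∀ {F} (Y : A.W.V F), TF.BM A.P Y → (D Y).BMCycle ⊥
  /-- If the degrees of the finite extensions of `F` over which `Y` has points have greatest common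
  divisor 1, then `Y` has a zero-cycle of degree 1. -/
  cyc : ∀ {F} (Y : A.W.V F), (D Y).IndexOne ⊥ → ∃ a : A.W.Z0 Y, A.W.deg0 Y a = 1

/-- The special case of (ZC) for threefolds. -/
def SpecialThreefolds {A : TF.Arithmetic.{u}} {G : GaloisData A.W} (B : Compare A G) : Prop :=
  ∀ {F} (Y : A.W.V F), A.W.dim Y = 3 → (B.D Y).SpecialCycles

theorem zcDim_three {A : TF.Arithmetic.{u}} {G : GaloisData A.W} (B : Compare A G)
    (h : SpecialThreefolds B) : A.ZCDim 3 := by
  intro F Y hY hBM
  apply B.cyc Y
  have h1 : (B.D Y).Q1 := (B.D Y).result_cycles.2 (h Y hY)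
  exact h1 ⊥ inferInstance (B.bm Y hBM)

end Pool.Agent.TH439.TG
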